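import Mathlib

/-!
Fixed points of cyclic uniform morphisms over `ZMod k`: descent of pairs of windows.
-/

set_option linter.unusedSectionVars false

namespace CycAb

open Finset

variable {k m : ℕ} [NeZero k] (h : ℕ → ZMod k)

/-- the fixed point of `a ↦ h + a`: the sum of `h` over the base `m` digits -/
noncomputable def wd (m : ℕ) (h : ℕ → ZMod k) (n : ℕ) : ZMod k := ((Nat.digits m n).map h).sum

lemma wd_rec (hm : 2 ≤ m) (h0 : h 0 = 0) (q r : ℕ) (hr : r < m) :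
    wd m h (m * q + r) = wd m h q + h r := by
  unfold wd
  by_cases hz : r ≠ 0 ∨ q ≠ 0
  · rw [add_comm (m * q) r, Nat.digits_add m (by omega) r q hr hz]
    simp [add_comm]
  · push Not at hz
    obtain ⟨rfl, rfl⟩ := hz
    simp [h0]

lemma sum_blocks {A : Type*} [AddCommMonoid A] (m : ℕ) (g : ℕ → A) (q r : ℕ) :
    ∑ i ∈ range (m * q + r), g i
      = ∑ j ∈ range q, ∑ s ∈ range m, g (m * j + s) + ∑ s ∈ range r, g (m * q + s) := by
  rw [Finset.sum_range_add]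
  congr 1
  induction q with
  | zero => simp
  | succ q ih =>
    rw [Nat.mul_succ, Finset.sum_range_add, ih, Finset.sum_range_succ]

variable (w : ℕ → ZMod k)

/-- prefix counts -/
def Pc (n : ℕ) (a : ZMod k) : ℤ := ∑ i ∈ range n, if w i = a then 1 else 0

/-- prefix sums of `ν` -/
def Nc (ν : ZMod k → ℤ) (n : ℕ) (a : ZMod k) : ℤ := ∑ i ∈ range n, ν (a - w i)

/-- block prefix sums of `ν` -/
def F0 (ν : ZMod k → ℤ) (r : ℕ) (t : ZMod k) : ℤ := ∑ j ∈ range r, ν (t - h j)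

lemma Nc_eq (ν : ZMod k → ℤ) (n : ℕ) (a : ZMod k) :
    Nc w ν n a = ∑ b, ν (a - b) * Pc w n b := by
  unfold Nc Pc
  simp only [Finset.mul_sum]
  rw [Finset.sum_comm]
  refine Finset.sum_congr rfl fun i _ => ?_
  simp

lemma Nc_rec (ν : ZMod k → ℤ) (δ : ℤ) (hw : ∀ q r, r < m → w (m * q + r) = w q + h r)
    (hν : ∀ t, F0 h ν m t = if t = 0 then δ else 0) (q r : ℕ) (hr : r < m) (a : ZMod k) :
    Nc w ν (m * q + r) a = δ * Pc w q a + F0 h ν r (a - w q) := by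
  unfold Nc
  rw [sum_blocks]
  congr 1
  · unfold Pc
    rw [Finset.mul_sum]
    refine Finset.sum_congr rfl fun j _ => ?_
    have := hν (a - w j)
    unfold F0 at this
    rw [show (∑ s ∈ range m, ν (a - w (m * j + s))) = ∑ s ∈ range m, ν (a - w j - h s) from
      Finset.sum_congr rfl fun s hs => by rw [hw j s (Finset.mem_range.mp hs)]; congr 1; ring, this]
    by_cases hj : w j = a
    · simp [hj]
    · have : a - w j ≠ 0 := fun h0 => hj (by rw [sub_eq_zero] at h0; exact h0.symm)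
      simp [hj, this]
  · unfold F0
    refine Finset.sum_congr rfl fun s hs => ?_
    rw [hw q s (lt_trans (Finset.mem_range.mp hs) hr)]
    congr 1; ring

/-- the normalised difference of a pair of windows -/
def nd (i1 i2 j1 j2 : ℕ) (t : ZMod k) : ℤ :=
  Pc w i2 (w i1 + t) - Pc w i1 (w i1 + t) - Pc w j2 (w i1 + t) + Pc w j1 (w i1 + t)

lemma nd_E1 (ν : ZMod k → ℤ) (δ : ℤ) (hw : ∀ q r, r < m → w (m * q + r) = w q + h r)
    (hν : ∀ t, F0 h ν m t = if t = 0 then δ else 0)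
    (a1 a2 b1 b2 r1 r2 r3 r4 : ℕ) (h1 : r1 < m) (h2 : r2 < m) (h3 : r3 < m) (h4 : r4 < m)
    (t : ZMod k) :
    δ * nd w a1 a2 b1 b2 t
      = ∑ s, ν (t - h r1 - s) * nd w (m * a1 + r1) (m * a2 + r2) (m * b1 + r3) (m * b2 + r4) s
        - F0 h ν r2 (t - (w a2 - w a1)) + F0 h ν r1 t + F0 h ν r4 (t - (w b2 - w a1))
        - F0 h ν r3 (t - (w b1 - w a1)) := by
  have e1 := Nc_rec h w ν δ hw hν a1 r1 h1 (w a1 + t)
  have e2 := Nc_rec h w ν δ hw hν a2 r2 h2 (w a1 + t)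
  have e3 := Nc_rec h w ν δ hw hν b1 r3 h3 (w a1 + t)
  have e4 := Nc_rec h w ν δ hw hν b2 r4 h4 (w a1 + t)
  have es : ∑ s, ν (t - h r1 - s) * nd w (m * a1 + r1) (m * a2 + r2) (m * b1 + r3) (m * b2 + r4) s
      = Nc w ν (m * a2 + r2) (w a1 + t) - Nc w ν (m * a1 + r1) (w a1 + t)
        - Nc w ν (m * b2 + r4) (w a1 + t) + Nc w ν (m * b1 + r3) (w a1 + t) := by
    rw [Nc_eq, Nc_eq, Nc_eq, Nc_eq, ← Finset.sum_sub_distrib, ← Finset.sum_sub_distrib,
      ← Finset.sum_add_distrib]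
    rw [← Equiv.sum_comp (Equiv.addLeft (w (m * a1 + r1)))
      (fun b => ν (w a1 + t - b) * Pc w (m * a2 + r2) b - ν (w a1 + t - b) * Pc w (m * a1 + r1) b
        - ν (w a1 + t - b) * Pc w (m * b2 + r4) b + ν (w a1 + t - b) * Pc w (m * b1 + r3) b)]
    refine Finset.sum_congr rfl fun s _ => ?_
    simp only [Equiv.coe_addLeft, nd]
    rw [show w a1 + t - (w (m * a1 + r1) + s) = t - h r1 - s by rw [hw a1 r1 h1]; ring]
    ring
  rw [es, e1, e2, e3, e4]
  unfold nd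
  rw [show w a1 + t - w a1 = t by ring, show w a1 + t - w a2 = t - (w a2 - w a1) by ring,
    show w a1 + t - w b2 = t - (w b2 - w a1) by ring,
    show w a1 + t - w b1 = t - (w b1 - w a1) by ring]
  ring

section chi

variable {A : Type*} [CommRing A] (χ : ZMod k → A)

/-- block prefix sums of the character -/
def G0 (r : ℕ) : A := ∑ j ∈ range r, χ (h j)

lemma Gc_rec (hχ : ∀ a b, χ (a + b) = χ a * χ b)
    (hw : ∀ q r, r < m → w (m * q + r) = w q + h r) (hG : G0 h χ m = 0) (q r : ℕ) (hr : r < m) :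
    ∑ i ∈ range (m * q + r), χ (w i) = χ (w q) * G0 h χ r := by
  rw [sum_blocks]
  have : ∀ j, ∑ s ∈ range m, χ (w (m * j + s)) = 0 := by
    intro j
    have : ∑ s ∈ range m, χ (w (m * j + s)) = χ (w j) * G0 h χ m := by
      unfold G0
      rw [Finset.mul_sum]
      refine Finset.sum_congr rfl fun s hs => ?_
      rw [hw j s (Finset.mem_range.mp hs), hχ]
    rw [this, hG, mul_zero]
  simp only [this, Finset.sum_const_zero, zero_add]
  unfold G0
  rw [Finset.mul_sum]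
  refine Finset.sum_congr rfl fun s hs => ?_
  rw [hw q s (lt_trans (Finset.mem_range.mp hs) hr), hχ]

lemma sum_chi_Pc (n : ℕ) : ∑ b, χ b * (Pc w n b : A) = ∑ i ∈ range n, χ (w i) := by
  unfold Pc
  push_cast
  simp only [Finset.mul_sum]
  rw [Finset.sum_comm]
  refine Finset.sum_congr rfl fun i _ => ?_
  simp

lemma nd_E2 (hχ : ∀ a b, χ (a + b) = χ a * χ b) (hχ0 : χ 0 = 1)
    (hw : ∀ q r, r < m → w (m * q + r) = w q + h r) (hG : G0 h χ m = 0)
    (a1 a2 b1 b2 r1 r2 r3 r4 : ℕ) (h1 : r1 < m) (h2 : r2 < m) (h3 : r3 < m) (h4 : r4 < m) :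
    ∑ s, χ s * (nd w (m * a1 + r1) (m * a2 + r2) (m * b1 + r3) (m * b2 + r4) s : A)
      = χ (w (m * a2 + r2) - w (m * a1 + r1)) * (χ (-h r2) * G0 h χ r2)
        - χ (-h r1) * G0 h χ r1
        - χ (w (m * b2 + r4) - w (m * a1 + r1)) * (χ (-h r4) * G0 h χ r4)
        + χ (w (m * b1 + r3) - w (m * a1 + r1)) * (χ (-h r3) * G0 h χ r3) := by
  have hinv : χ (-w (m * a1 + r1)) * χ (w (m * a1 + r1)) = 1 := by
    rw [← hχ, neg_add_cancel, hχ0]
  have key : χ (w (m * a1 + r1)) *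
      ∑ s, χ s * (nd w (m * a1 + r1) (m * a2 + r2) (m * b1 + r3) (m * b2 + r4) s : A)
      = χ (w a2) * G0 h χ r2 - χ (w a1) * G0 h χ r1 - χ (w b2) * G0 h χ r4
        + χ (w b1) * G0 h χ r3 := by
    rw [← Gc_rec h w χ hχ hw hG a2 r2 h2, ← Gc_rec h w χ hχ hw hG a1 r1 h1,
      ← Gc_rec h w χ hχ hw hG b2 r4 h4, ← Gc_rec h w χ hχ hw hG b1 r3 h3,
      ← sum_chi_Pc, ← sum_chi_Pc, ← sum_chi_Pc, ← sum_chi_Pc, ← Finset.sum_sub_distrib,
      ← Finset.sum_sub_distrib, ← Finset.sum_add_distrib, Finset.mul_sum]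
    rw [← Equiv.sum_comp (Equiv.addLeft (w (m * a1 + r1)))
      (fun b => χ b * ((Pc w (m * a2 + r2) b : ℤ) : A) - χ b * ((Pc w (m * a1 + r1) b : ℤ) : A)
        - χ b * ((Pc w (m * b2 + r4) b : ℤ) : A) + χ b * ((Pc w (m * b1 + r3) b : ℤ) : A))]
    refine Finset.sum_congr rfl fun s _ => ?_
    simp only [Equiv.coe_addLeft, nd, hχ]
    push_cast
    ring
  have hs : ∀ x : ZMod k, χ (w (m * a1 + r1)) * χ (x - w (m * a1 + r1)) = χ x := by
    intro x; rw [← hχ]; congr 1; ring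
  have hmul : ∀ x y : A, χ (w (m * a1 + r1)) * x = χ (w (m * a1 + r1)) * y → x = y := by
    intro x y hxy
    have := congrArg (fun z => χ (-w (m * a1 + r1)) * z) hxy
    simpa [← mul_assoc, hinv] using this
  apply hmul
  rw [key]
  have t2 : χ (w (m * a1 + r1)) * (χ (w (m * a2 + r2) - w (m * a1 + r1)) * (χ (-h r2) * G0 h χ r2))
      = χ (w a2) * G0 h χ r2 := by
    rw [← mul_assoc, hs, ← mul_assoc, ← hχ, hw a2 r2 h2]; congr 2; ring
  have t3 : χ (w (m * a1 + r1)) * (χ (w (m * b1 + r3) - w (m * a1 + r1)) * (χ (-h r3) * G0 h χ r3))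
      = χ (w b1) * G0 h χ r3 := by
    rw [← mul_assoc, hs, ← mul_assoc, ← hχ, hw b1 r3 h3]; congr 2; ring
  have t4 : χ (w (m * a1 + r1)) * (χ (w (m * b2 + r4) - w (m * a1 + r1)) * (χ (-h r4) * G0 h χ r4))
      = χ (w b2) * G0 h χ r4 := by
    rw [← mul_assoc, hs, ← mul_assoc, ← hχ, hw b2 r4 h4]; congr 2; ring
  have t1 : χ (w (m * a1 + r1)) * (χ (-h r1) * G0 h χ r1) = χ (w a1) * G0 h χ r1 := by
    rw [← mul_assoc, ← hχ, hw a1 r1 h1]; congr 2; ring
  rw [mul_add, mul_sub, mul_sub, t1, t2, t3, t4]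

end chi

end CycAb
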