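import Pool.Agent.Lib.CycAb.Sound6
import Pool.Agent.Lib.Pbbea99.Final

/-!
From the bound on pairs of equivalent windows to avoidance.
-/

set_option linter.unusedSectionVars false

namespace CycAb

open Finset MPbbea99

/-- a factor of the list of values of a sequence -/
lemma factor_eq {α : Type*} (V : ℕ → α) {N : ℕ} {s x t : List α}
    (h : s ++ x ++ t = (List.range N).map V) :
    x = (List.range x.length).map fun i => V (s.length + i) := by
  apply List.ext_getElem?
  intro i
  have hlen : s.length + x.length + t.length = N := by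
    have := congrArg List.length h
    simp only [List.length_append, List.length_map, List.length_range] at this
    omega
  by_cases hi : i < x.length
  · have h1 : (s ++ x ++ t)[s.length + i]? = ((List.range N).map V)[s.length + i]? := by rw [h]
    rw [List.append_assoc, List.getElem?_append_right (by omega)] at h1
    rw [show s.length + i - s.length = i by omega, List.getElem?_append_left hi] at h1
    rw [h1, List.getElem?_map, List.getElem?_map, List.getElem?_range (by omega),
      List.getElem?_range hi]
    rfl
  · push Not at hi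
    rw [List.getElem?_eq_none (by omega), List.getElem?_eq_none (by simpa using hi)]

lemma count_range {α : Type*} [DecidableEq α] (V : ℕ → α) (l : ℕ) (c : α) :
    (((List.range l).map V).count c : ℤ) = ∑ i ∈ range l, if V i = c then 1 else 0 := by
  induction l with
  | zero => simp
  | succ l ih =>
    rw [List.range_succ, List.map_append, List.count_append, Finset.sum_range_succ, ← ih]
    by_cases h : V l = c
    · simp [h]
    · simp [h]

/-- equivalent windows -/
lemma nd_of_perm {k : ℕ} [NeZero k] (w : ℕ → ZMod k) (A l p : ℕ)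
    (h : ∀ c : ZMod k, (∑ i ∈ range l, if w (A + i) = c then (1 : ℤ) else 0)
      = ∑ i ∈ range l, if w (A + p + i) = c then (1 : ℤ) else 0) :
    nd w A (A + l) (A + p) (A + p + l) = 0 := by
  funext t
  have e : ∀ B : ℕ, Pc w (B + l) (w A + t) - Pc w B (w A + t)
      = ∑ i ∈ range l, if w (B + i) = w A + t then (1 : ℤ) else 0 := by
    intro B
    unfold Pc
    rw [Finset.sum_range_add, add_sub_cancel_left]
  unfold nd
  have e1 := e A
  have e2 := e (A + p)
  have := h (w A + t)
  simp only [Pi.zero_apply]
  linarith

/-- avoidance from the checks -/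
theorem avoid_of (P : Par) (g : Good P) (n : ℕ) (hn : P.k = n) (s : ℝ)
    (hs : ∀ l p : ℕ, 1 ≤ l → l ≤ p → (P.den : ℤ) * l - P.a1 * p < P.e → 1 + (l : ℝ) / p < s) :
    Avoid s n := by
  subst hn
  have hk2 : 2 ≤ P.k := by
    have := g.cnum
    unfold Par.chkNum at this
    exact (of_decide_eq_true this).2.2.1
  have : NeZero P.k := ⟨by omega⟩
  unfold Avoid
  apply Set.Infinite.of_image List.length
  apply Set.Infinite.mono (s := Set.univ) _ Set.infinite_univ
  intro N _
  let V : ℕ → Fin P.k := fun i => ⟨(Good.wP P i).val, ZMod.val_lt _⟩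
  have hV : ∀ i (c : ZMod P.k), V i = ⟨c.val, ZMod.val_lt _⟩ ↔ Good.wP P i = c := by
    intro i c
    constructor
    · intro h
      exact ZMod.val_injective P.k (congrArg Fin.val h)
    · intro h; rw [← h]
  refine ⟨(List.range N).map V, ?_, by simp⟩
  rintro r hr1 hr2 hr3 ⟨u, v, u', ⟨s1, t1, hst⟩, hperm, hlen⟩
  have hul : u'.length = u.length := hperm.length_eq.symm
  have hu : u = (List.range u.length).map fun i => V (s1.length + i) :=
    factor_eq V (s := s1) (t := v ++ u' ++ t1) (by rw [← hst]; simp)
  have hu' : u' = (List.range u'.length).map fun i => V ((s1 ++ u ++ v).length + i) :=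
    factor_eq V (s := s1 ++ u ++ v) (t := t1) (by rw [← hst]; simp)
  have hnd : nd (Good.wP P) s1.length (s1.length + u.length)
      (s1.length + (u.length + v.length)) (s1.length + (u.length + v.length) + u.length) = 0 := by
    apply nd_of_perm
    intro c
    have h1 : ((u.count (⟨c.val, ZMod.val_lt _⟩ : Fin P.k) : ℕ) : ℤ)
        = ∑ i ∈ range u.length, if Good.wP P (s1.length + i) = c then (1 : ℤ) else 0 := by
      conv_lhs => rw [hu]
      rw [count_range]
      exact Finset.sum_congr rfl fun i _ => by simp only [hV]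
    have h2 : ((u'.count (⟨c.val, ZMod.val_lt _⟩ : Fin P.k) : ℕ) : ℤ)
        = ∑ i ∈ range u.length,
          if Good.wP P (s1.length + (u.length + v.length) + i) = c then (1 : ℤ) else 0 := by
      conv_lhs => rw [hu', hul]
      rw [count_range]
      refine Finset.sum_congr rfl fun i _ => ?_
      rw [show (s1 ++ u ++ v).length + i = s1.length + (u.length + v.length) + i by
        simp only [List.length_append]; ring]
      simp only [hV]
    rw [← h1, ← h2, hperm.count_eq]
  -- exponent
  have hlen' : (((u.length + v.length : ℕ) : ℝ) + u.length) / ((u.length + v.length : ℕ) : ℝ)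
      = r := by
    rw [← hlen]
    simp only [List.length_append]
    push_cast
    ring
  have hp0 : (0 : ℝ) < ((u.length + v.length : ℕ) : ℝ) := by
    rcases Nat.eq_zero_or_pos (u.length + v.length) with h0 | h0
    · rw [h0] at hlen'
      simp only [Nat.cast_zero, div_zero] at hlen'
      linarith
    · exact_mod_cast h0
  have hr : r = 1 + (u.length : ℝ) / ((u.length + v.length : ℕ) : ℝ) := by
    rw [← hlen', add_div, div_self hp0.ne']
  have hm1 : 1 ≤ u.length := by
    rcases Nat.eq_zero_or_pos u.length with h0 | h0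
    · rw [h0] at hr
      simp only [Nat.cast_zero, zero_div, add_zero] at hr
      linarith
    · exact h0
  have := hs u.length (u.length + v.length) hm1 (by omega)
    (g.windows s1.length u.length (u.length + v.length) hm1 (by omega) hnd)
  rw [← hr] at this
  linarith

/-- the avoidability threshold in the non-strict case -/
theorem avoid_nonstrict (P : Par) (g : Good P) (n : ℕ) (hn : P.k = n) (a1 den : ℕ)
    (ha : P.a1 = a1) (hd : P.den = den) (he : P.e = 0) : Avoid (1 + (a1 : ℝ) / den) n := by
  apply avoid_of P g n hn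
  intro l p hl hlp h
  rw [he, ha, hd] at h
  have hden : 1 ≤ P.den := by
    have := g.cnum
    unfold Par.chkNum at this
    exact (of_decide_eq_true this).2.2.2.2.2.2.2.2.2.2.2.2.2.1
  rw [hd] at hden
  have hp : (0 : ℝ) < p := by
    have : 0 < p := by omega
    exact_mod_cast this
  have hd0 : (0 : ℝ) < den := by exact_mod_cast hden
  have h1 : (den : ℤ) * l < a1 * p := by
    push_cast at h
    linarith
  have h2 : (den : ℝ) * l < a1 * p := by exact_mod_cast h1
  have : (l : ℝ) / p < a1 / den := by
    rw [div_lt_div_iff₀ hp hd0]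
    linarith
  linarith

/-- the strict case -/
theorem avoid_strict (P : Par) (g : Good P) (n : ℕ) (hn : P.k = n) (a1 den : ℕ)
    (ha : P.a1 = a1) (hd : P.den = den) (he : P.e = 1) (s : ℝ) (hs : 1 + (a1 : ℝ) / den < s) :
    Avoid s n := by
  apply avoid_of P g n hn
  intro l p hl hlp h
  rw [he, ha, hd] at h
  have hden : 1 ≤ P.den := by
    have := g.cnum
    unfold Par.chkNum at this
    exact (of_decide_eq_true this).2.2.2.2.2.2.2.2.2.2.2.2.2.1
  rw [hd] at hden
  have hp : (0 : ℝ) < p := by
    have : 0 < p := by omega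
    exact_mod_cast this
  have hd0 : (0 : ℝ) < den := by exact_mod_cast hden
  have h1 : (den : ℤ) * l ≤ a1 * p := by
    push_cast at h
    linarith
  have h2 : (den : ℝ) * l ≤ a1 * p := by exact_mod_cast h1
  have : (l : ℝ) / p ≤ a1 / den := by
    rw [div_le_div_iff₀ hp hd0]
    linarith
  linarith

/-- more letters -/
theorem avoid_alphabet {s : ℝ} {n n' : ℕ} (h : Avoid s n) (hn : n ≤ n') : Avoid s n' := by
  unfold Avoid at h ⊢
  have hinj : Function.Injective (List.map (Fin.castLE hn)) :=
    List.map_injective_iff.mpr (Fin.castLE_injective hn)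
  apply Set.Infinite.mono _ (h.image hinj.injOn)
  rintro _ ⟨w, hw, rfl⟩
  intro r h1 h2 h3 ⟨u, v, u', ⟨s1, t1, hst⟩, hperm, hlen⟩
  apply hw r h1 h2 h3
  obtain ⟨x1, t1', hw1, hx1, ht1⟩ := List.map_eq_append_iff.mp hst.symm
  obtain ⟨s1', x2, hx2, hs1, hx3⟩ := List.map_eq_append_iff.mp hx1
  obtain ⟨x4, u1', hx4, hx5, hu1'⟩ := List.map_eq_append_iff.mp hx3
  obtain ⟨u1, v1, hx6, hu1, hv1⟩ := List.map_eq_append_iff.mp hx5
  refine ⟨u1, v1, u1', ⟨s1', t1', ?_⟩, ?_, ?_⟩
  · rw [hw1, hx2, hx4, hx6]
  · rw [← hu1, ← hu1'] at hperm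
    exact (List.map_perm_map_iff (Fin.castLE_injective hn)).mp hperm
  · rw [← hlen, ← hu1, ← hv1]
    simp

end CycAb
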