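import Pool.Agent.Lib.CycAb.Kern

/-!
Kernel-side checks of the tables.
-/

namespace CycAb

noncomputable section

namespace Par
variable (P : Par)

/-- numeric side conditions -/
def chkNum : Bool :=
  decide (2 ≤ P.m ∧ P.m ≤ 64 ∧ 2 ≤ P.k ∧ P.k ≤ 8 ∧ 2 ≤ P.Dl ∧ 1 ≤ P.dl ∧ 32 * P.dl < 2 ^ 24 ∧
    P.h 0 = 0 ∧ P.lam < 2 ^ 24 ∧ 2 ≤ P.P0 ∧ P.P0 ≤ 16 ∧ P.P0 ≤ P.P2 ∧ 2 * P.P0 ≤ P.m + 1 ∧
    1 ≤ P.den ∧ P.a1 ≤ P.den ∧ 17 * P.den < 4096)

def chkH : Bool := allN P.m fun r => decide (P.h r < P.k)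

/-- the vector `nu` -/
def chkNu : Bool :=
  band (allN P.k fun t => decide ((sumN P.m fun r => P.np ((t + P.k - P.h r) % P.k))
      = P.m * P.lam + (if t = 0 then P.dl else 0)))
    (decide ((sumN P.k fun t => (P.np t - P.lam) + (P.lam - P.np t)) ≤ P.dl ∧
      (sumN P.k fun t => P.np t) = P.snu + P.k * P.lam ∧
      (sumN P.k fun t => (2 ^ 24) ^ t) = P.one ∧
      (sumN P.k fun t => P.np t * (2 ^ 24) ^ t) = P.NP))

/-- the character -/
def chkChi : Bool :=
  band (allN P.k fun a => allN P.k fun b =>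
      decide ((P.ch a * P.ch b) % P.Dl = P.ch ((a + b) % P.k)))
    (band (decide (P.ch 0 = 1 ∧ (sumN P.m fun r => P.ch (P.h r)) % P.Dl = 0))
      (allN P.m fun r => decide (P.Kv r
        = (P.ch ((P.k - P.h r) % P.k) * (sumN r fun j => P.ch (P.h j))) % P.Dl)))

/-- the table of packed vectors -/
def chkF : Bool :=
  allN P.k fun s => band (decide (P.F s 0 = 3 * P.dl * P.one))
    (allN (P.m - 1) fun r => decide (P.F s (r + 1) + P.lam * P.one
      = P.F s r + P.rot P.NP ((s + P.h r) % P.k)))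

def chkB : Bool :=
  allN P.m fun r => allN P.k fun t =>
    decide (r * P.lam ≤ 3 * P.dl + (sumN r fun j => P.np ((t + P.k - P.h j) % P.k)) ∧
      (sumN r fun j => P.np ((t + P.k - P.h j) % P.k)) ≤ 3 * P.dl + r * P.lam)

/-- the class tables -/
def chkTab (e : ℕ) : Bool :=
  allN P.m fun r2 => allN P.m fun r4 =>
    let u := (P.Kv r2 + (P.Dl - (P.ch e * P.Kv r4) % P.Dl)) % P.Dl
    band (bitN (nthD 0 P.BM e) u) (band (bitN (nthD 0 P.BM e) (u + P.Dl))
      (onSome ((nthD Tr.nil P.tab e).find u) fun l => memL (r2 * 64 + r4) l))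

/-- the states with zero difference -/
def chkZero : Bool :=
  allN P.k fun n2 => allN P.k fun n3 => allN P.k fun n4 =>
    onSome (P.T.find (16 * P.one * 512 + (n2 + 8 * n3 + 64 * n4))) fun _ => true

/-- ranges of the entries of the states -/
def chkRange (key : ℕ) (_ : List ℕ) : Bool :=
  band (allN P.k fun t => decide (12 ≤ fld 24 (key / 512) t ∧ fld 24 (key / 512) t ≤ 20))
    (decide (16 * P.k ≤ (sumN P.k fun t => fld 24 (key / 512) t) + 1 ∧
      (sumN P.k fun t => fld 24 (key / 512) t) ≤ 16 * P.k + 1))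

/-- letters differences -/
def chkD : Bool :=
  band (allN (P.m - 1) fun r => memL ((P.h (r + 1) + P.k - P.h r) % P.k) P.D)
    (allL P.D fun d => band (decide (d < P.k)) (memL ((d + P.k - P.h (P.m - 1)) % P.k) P.D))

/-- letter `x` of the two blocks with difference `d` -/
def blk (d x : ℕ) : ℕ := if x < P.m then P.h x else (d + P.h (x - P.m)) % P.k

/-- letter of the window -/
def uu (d r t : ℕ) : ℕ := (P.blk d (r + t) + P.k - P.h r) % P.k

/-- packed prefix counts of the window -/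
def SS (d r x : ℕ) : ℕ := sumN x fun j => (2 ^ 24) ^ (P.uu d r j)

/-- test for one small pair of windows -/
def chkWin (d r p l1 l2 : ℕ) : Bool :=
  @Option.rec (List ℕ) (fun _ => Bool) true
    (fun v => memL (p * 4096 + (P.den * l1 + P.den - P.a1 * p)) v)
    (P.T.find ((16 * P.one + P.SS d r l1 + P.SS d r p - P.SS d r (p + l2)) * 512
      + (P.uu d r l1 + 8 * P.uu d r p + 64 * P.uu d r (p + l2))))

def chkSmall (d r : ℕ) : Bool :=
  allN P.P0 fun p => allN (p + 1) fun l1 =>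
    bor (decide (P.den * l1 + P.den ≤ P.a1 * p))
      (band (P.chkWin d r p l1 l1) (band (P.chkWin d r p l1 (l1 + 1))
        (band (bor (decide (l1 = 0)) (P.chkWin d r p l1 (l1 - 1)))
          (bor (decide (l1 = 0 ∨ P.SS d r l1 + P.SS d r p ≠ P.SS d r (p + l1)))
            (decide (P.den * l1 < P.a1 * p + P.e))))))

def chkSmalls (d : ℕ) : Bool := allN P.m fun r => P.chkSmall d r

end Par

end

end CycAb
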