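import Pool.Agent.Lib.CycAb.D8
import Pool.Agent.Lib.CycAb.Chk

set_option maxRecDepth 100000

namespace CycAb.D8

open CycAb

theorem cnum : P.chkNum = true := by decide +kernel

theorem cH : P.chkH = true := by decide +kernel

theorem cnu : P.chkNu = true := by decide +kernel

theorem cchi : P.chkChi = true := by decide +kernel

theorem cF : P.chkF = true := by decide +kernel

theorem cB : P.chkB = true := by decide +kernel

theorem czero : P.chkZero = true := by decide +kernel

theorem cD : P.chkD = true := by decide +kernel

theorem crange : P.T.all P.chkRange = true := by decide +kernel

theorem ctab0 : P.chkTab 0 = true := by decide +kernel

theorem ctab1 : P.chkTab 1 = true := by decide +kernel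

theorem ctab2 : P.chkTab 2 = true := by decide +kernel

theorem ctab3 : P.chkTab 3 = true := by decide +kernel

theorem ctab4 : P.chkTab 4 = true := by decide +kernel

theorem ctab5 : P.chkTab 5 = true := by decide +kernel

theorem ctab6 : P.chkTab 6 = true := by decide +kernel

theorem ctab7 : P.chkTab 7 = true := by decide +kernel

theorem cs1 : P.chkSmalls 1 = true := by decide +kernel

theorem cs2 : P.chkSmalls 2 = true := by decide +kernel

theorem cs3 : P.chkSmalls 3 = true := by decide +kernel

theorem cs4 : P.chkSmalls 4 = true := by decide +kernel

theorem n94 : P.chkState 3064991253001511049903536446594841084402195155627549230 [] = true := by decide +kernel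

theorem n284 : P.chkState 3064991264419492591551215495063546691637385505038934255 [] = true := by decide +kernel

theorem n189 : P.chkState 3064991253001511730468270288471768011151410027753906294 [] = true := by decide +kernel

theorem n474 : P.chkState 3064991264419493272115949336938055766603255922150088915 [] = true := by decide +kernel

theorem n664 : P.chkState 3064991264419493272115949336938055766747371110225944625 [] = true := by decide +kernel

theorem n569 : P.chkState 3064991264419493272115949336938055766747371101636010489 [] = true := by decide +kernel

theorem n379 : P.chkState 3064991264419493272115908772121266315045752474072785148 [] = true := by decide +kernel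

theorem n854 : P.chkState 3064991264419493272115949336938055766747371110225944815 [] = true := by decide +kernel

theorem n1044 : P.chkState 3064991264419493272115949336938055766747371110225945005 [] = true := by decide +kernel

theorem n949 : P.chkState 3064991264419493272115949336938055766747371110225944910 [] = true := by decide +kernel

theorem n1234 : P.chkState 3064991264419493272115949336938055766747371110225945315 [] = true := by decide +kernel

theorem n1424 : P.chkState 3064991264419493952680683178814982693352470785686512458 [] = true := by decide +kernel

theorem n1329 : P.chkState 3064991264419493272115949336938055766747371118815879288 [] = true := by decide +kernel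

theorem n1139 : P.chkState 3064991264419493272115949336938055766747371110225945100 [] = true := by decide +kernel

theorem n759 : P.chkState 3064991264419493272115949336938055766747371110225944720 [4098,8193] = true := by decide +kernel

end CycAb.D8
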