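import Pool.Agent.Lib.CycAb.D8

set_option maxRecDepth 100000

namespace CycAb.D8

theorem x0 : t0.all P.chkState = true := by decide +kernel

theorem x95 : t95.all P.chkState = true := by decide +kernel

theorem x190 : t190.all P.chkState = true := by decide +kernel

theorem x285 : t285.all P.chkState = true := by decide +kernel

end CycAb.D8
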