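import Pool.Agent.Lib.CycAb.D8

set_option maxRecDepth 100000

namespace CycAb.D8

theorem x380 : t380.all P.chkState = true := by decide +kernel

theorem x475 : t475.all P.chkState = true := by decide +kernel

theorem x570 : t570.all P.chkState = true := by decide +kernel

theorem x665 : t665.all P.chkState = true := by decide +kernel

end CycAb.D8
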