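import Pool.Agent.Lib.CycAb.Sound6
import Pool.Agent.Lib.CycAb.D8x0
import Pool.Agent.Lib.CycAb.D8x1
import Pool.Agent.Lib.CycAb.D8x2
import Pool.Agent.Lib.CycAb.D8x3
import Pool.Agent.Lib.CycAb.D8c

/-!
All checks of the instance D8.
-/

namespace CycAb.D8

open CycAb

theorem good : Good P where
  cnum := cnum
  cH := cH
  cnu := cnu
  cchi := cchi
  cF := cF
  cB := cB
  ctab := by
    intro e he
    have he : e < 8 := he
    interval_cases e
    · exact ctab0
    · exact ctab1
    · exact ctab2
    · exact ctab3
    · exact ctab4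
    · exact ctab5
    · exact ctab6
    · exact ctab7
  czero := czero
  crange := crange
  cD := cD
  csmall := by
    intro d hd
    have hd : d ∈ [1, 2, 3, 4] := hd
    simp only [List.mem_cons, List.not_mem_nil, or_false] at hd
    rcases hd with rfl | rfl | rfl | rfl
    · exact cs1
    · exact cs2
    · exact cs3
    · exact cs4
  cstate := (all_mk n759 (all_mk n379 (all_mk n189 (all_mk n94 x0 x95) (all_mk n284 x190 x285)) (all_mk n569 (all_mk n474 x380 x475) (all_mk n664 x570 x665))) (all_mk n1139 (all_mk n949 (all_mk n854 x760 x855) (all_mk n1044 x950 x1045)) (all_mk n1329 (all_mk n1234 x1140 x1235) (all_mk n1424 x1330 x1425))))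

end CycAb.D8
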