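import Pool.Agent.Lib.CycAb.Abs

/-!
The induction: no pair of equivalent windows of large exponent.
-/

set_option linter.unusedSectionVars false

namespace CycAb

open Finset

variable {k m : ℕ} [NeZero k] (h : ℕ → ZMod k) (w : ℕ → ZMod k)

theorem induct (T : ZMod k → ZMod k → ZMod k → (ZMod k → ℤ) → Prop)
    (R : ZMod k → ZMod k → ZMod k → (ZMod k → ℤ) → ℕ → ℤ → Prop)
    (P0 P2 : ℕ) (a1 den e : ℤ) (hm : 2 ≤ m) (hP0 : 2 ≤ P0) (hP2 : P0 ≤ P2)
    (hden : 0 < den) (ha1 : 0 ≤ a1) (ha1' : a1 ≤ den) (he : 0 ≤ e)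
    (hcl : ∀ A1 A2 B1 B2 r1 r2 r3 r4 : ℕ, r1 < m → r2 < m → r3 < m → r4 < m →
      T (w (m * A2 + r2) - w (m * A1 + r1)) (w (m * B1 + r3) - w (m * A1 + r1))
        (w (m * B2 + r4) - w (m * A1 + r1))
        (nd w (m * A1 + r1) (m * A2 + r2) (m * B1 + r3) (m * B2 + r4)) →
      T (w A2 - w A1) (w B1 - w A1) (w B2 - w A1) (nd w A1 A2 B1 B2) ∧
      ∀ (p' : ℕ) (φ' : ℤ), R (w A2 - w A1) (w B1 - w A1) (w B2 - w A1) (nd w A1 A2 B1 B2) p' φ' →
        -den < m * φ' + den * ((r2 : ℤ) - r1) - a1 * ((r3 : ℤ) - r1) →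
        (p' < P2 → ∀ p : ℕ, (p : ℤ) = m * p' + r3 - r1 → P0 ≤ p →
          m * φ' + den * ((r2 : ℤ) - r1) - a1 * ((r3 : ℤ) - r1) + a1 * p ≤ den * p →
          R (w (m * A2 + r2) - w (m * A1 + r1)) (w (m * B1 + r3) - w (m * A1 + r1))
            (w (m * B2 + r4) - w (m * A1 + r1))
            (nd w (m * A1 + r1) (m * A2 + r2) (m * B1 + r3) (m * B2 + r4)) (min p P2)
            (m * φ' + den * ((r2 : ℤ) - r1) - a1 * ((r3 : ℤ) - r1)) ∧
          (nd w (m * A1 + r1) (m * A2 + r2) (m * B1 + r3) (m * B2 + r4) = 0 →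
            m * φ' + den * ((r2 : ℤ) - r1) - a1 * ((r3 : ℤ) - r1) < e)) ∧
        (p' = P2 →
          R (w (m * A2 + r2) - w (m * A1 + r1)) (w (m * B1 + r3) - w (m * A1 + r1))
            (w (m * B2 + r4) - w (m * A1 + r1))
            (nd w (m * A1 + r1) (m * A2 + r2) (m * B1 + r3) (m * B2 + r4)) P2
            (m * φ' + den * ((r2 : ℤ) - r1) - a1 * ((r3 : ℤ) - r1)) ∧
          (nd w (m * A1 + r1) (m * A2 + r2) (m * B1 + r3) (m * B2 + r4) = 0 →
            m * φ' + den * ((r2 : ℤ) - r1) - a1 * ((r3 : ℤ) - r1) < e)))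
    (hsm : ∀ i1 i2 j1 j2 : ℕ, i1 ≤ i2 → i2 ≤ j1 → j1 ≤ j2 → j1 < i1 + P0 →
      T (w i2 - w i1) (w j1 - w i1) (w j2 - w i1) (nd w i1 i2 j1 j2) →
      -den < den * ((i2 : ℤ) - i1) - a1 * ((j1 : ℤ) - i1) →
      R (w i2 - w i1) (w j1 - w i1) (w j2 - w i1) (nd w i1 i2 j1 j2) (j1 - i1)
        (den * ((i2 : ℤ) - i1) - a1 * ((j1 : ℤ) - i1)))
    (hsm0 : ∀ i1 l p : ℕ, 1 ≤ l → l ≤ p → p < P0 →
      nd w i1 (i1 + l) (i1 + p) (i1 + p + l) = 0 → den * (l : ℤ) - a1 * p < e)
    (hT0 : ∀ n2 n3 n4, T n2 n3 n4 0) (i1 l p : ℕ) (hl : 1 ≤ l) (hlp : l ≤ p)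
    (hnd : nd w i1 (i1 + l) (i1 + p) (i1 + p + l) = 0) : den * (l : ℤ) - a1 * p < e := by
  have main : ∀ p i1 i2 j1 j2 : ℕ, j1 = i1 + p → i1 ≤ i2 → i2 ≤ j1 → j1 ≤ j2 →
      T (w i2 - w i1) (w j1 - w i1) (w j2 - w i1) (nd w i1 i2 j1 j2) →
      -den < den * ((i2 : ℤ) - i1) - a1 * ((j1 : ℤ) - i1) →
      R (w i2 - w i1) (w j1 - w i1) (w j2 - w i1) (nd w i1 i2 j1 j2) (min p P2)
        (den * ((i2 : ℤ) - i1) - a1 * ((j1 : ℤ) - i1)) ∧
      (P0 ≤ p → nd w i1 i2 j1 j2 = 0 → den * ((i2 : ℤ) - i1) - a1 * ((j1 : ℤ) - i1) < e) := by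
    intro p
    induction p using Nat.strong_induction_on with
    | _ p ih =>
      intro i1 i2 j1 j2 hp h12 h21 hj hT hal
      by_cases hpP : p < P0
      · refine ⟨?_, fun hh => by omega⟩
        have := hsm i1 i2 j1 j2 h12 h21 hj (by omega) hT hal
        rwa [show j1 - i1 = min p P2 by omega] at this
      · push Not at hpP
        have hmpos : 0 < m := by omega
        -- parents
        obtain ⟨A1, r1, hr1, hA1⟩ : ∃ A r, r < m ∧ i1 = m * A + r :=
          ⟨i1 / m, i1 % m, Nat.mod_lt _ hmpos, (Nat.div_add_mod i1 m).symm⟩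
        obtain ⟨A2, r2, hr2, hA2⟩ : ∃ A r, r < m ∧ i2 = m * A + r :=
          ⟨i2 / m, i2 % m, Nat.mod_lt _ hmpos, (Nat.div_add_mod i2 m).symm⟩
        obtain ⟨B1, r3, hr3, hB1⟩ : ∃ A r, r < m ∧ j1 = m * A + r :=
          ⟨j1 / m, j1 % m, Nat.mod_lt _ hmpos, (Nat.div_add_mod j1 m).symm⟩
        obtain ⟨B2, r4, hr4, hB2⟩ : ∃ A r, r < m ∧ j2 = m * A + r :=
          ⟨j2 / m, j2 % m, Nat.mod_lt _ hmpos, (Nat.div_add_mod j2 m).symm⟩
        have mono : ∀ A B r s : ℕ, r < m → m * A + r ≤ m * B + s → s < m → A ≤ B := by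
          intro A B r s _ hle hs
          by_contra hlt
          push Not at hlt
          have : m * (B + 1) ≤ m * A := Nat.mul_le_mul_left m hlt
          nlinarith
        have o1 : A1 ≤ A2 := mono A1 A2 r1 r2 hr1 (by omega) hr2
        have o2 : A2 ≤ B1 := mono A2 B1 r2 r3 hr2 (by omega) hr3
        have o3 : B1 ≤ B2 := mono B1 B2 r3 r4 hr3 (by omega) hr4
        subst hA1 hA2 hB1 hB2
        obtain ⟨hTp, hRp⟩ := hcl A1 A2 B1 B2 r1 r2 r3 r4 hr1 hr2 hr3 hr4 hT
        obtain ⟨q, hq⟩ := Nat.exists_eq_add_of_le (o1.trans o2)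
        -- relation of p and q
        have hpq : (p : ℤ) = m * q + r3 - r1 := by
          have : ((m * B1 + r3 : ℕ) : ℤ) = ((m * A1 + r1 + p : ℕ) : ℤ) := by exact_mod_cast hp
          rw [hq] at this
          push_cast at this
          linarith
        have hqp : q < p := by
          by_contra hcon
          push Not at hcon
          have h1 : (p : ℤ) ≤ q := by exact_mod_cast hcon
          have h2 : (r1 : ℤ) ≤ m - 1 := by have : (r1 : ℤ) < m := by exact_mod_cast hr1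
                                           linarith
          have h3 : (0 : ℤ) ≤ r3 := by positivity
          have h4 : (2 : ℤ) ≤ m := by exact_mod_cast hm
          have h5 : (2 : ℤ) ≤ p := by exact_mod_cast (hP0.trans hpP)
          nlinarith
        have hphi : den * (((m * A2 + r2 : ℕ) : ℤ) - ((m * A1 + r1 : ℕ) : ℤ))
            - a1 * (((m * B1 + r3 : ℕ) : ℤ) - ((m * A1 + r1 : ℕ) : ℤ))
            = m * (den * ((A2 : ℤ) - A1) - a1 * ((B1 : ℤ) - A1)) + den * ((r2 : ℤ) - r1)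
              - a1 * ((r3 : ℤ) - r1) := by
          push_cast; ring
        have halp : -den < den * ((A2 : ℤ) - A1) - a1 * ((B1 : ℤ) - A1) := by
          rw [hphi] at hal
          have h2 : (r2 : ℤ) ≤ m - 1 := by have : (r2 : ℤ) < m := by exact_mod_cast hr2
                                           linarith
          have h3 : (0 : ℤ) ≤ r3 := by positivity
          have h1 : (0 : ℤ) ≤ r1 := by positivity
          have h4 : (2 : ℤ) ≤ m := by exact_mod_cast hm
          by_contra hcon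
          push Not at hcon
          have h6 : (m : ℤ) * (den * ((A2 : ℤ) - A1) - a1 * ((B1 : ℤ) - A1)) ≤ m * (-den) :=
            mul_le_mul_of_nonneg_left hcon (by linarith)
          have h7 : den * (r2 : ℤ) ≤ den * (m - 1) := mul_le_mul_of_nonneg_left h2 hden.le
          have h8 : 0 ≤ a1 * (r3 : ℤ) := mul_nonneg ha1 h3
          have h9 : 0 ≤ (den - a1) * (r1 : ℤ) := mul_nonneg (by linarith) h1
          nlinarith
        have ihq := (ih q hqp A1 A2 B1 B2 hq o1 o2 o3 hTp halp).1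
        have key := hRp _ _ ihq
        rw [← hphi] at key
        have key := key hal
        by_cases hq2 : q < P2
        · rw [min_eq_left hq2.le] at key
          have := key.1 hq2 p hpq hpP (by
            have : ((m * A2 + r2 : ℕ) : ℤ) ≤ ((m * B1 + r3 : ℕ) : ℤ) := by exact_mod_cast h21
            have h7 : ((m * B1 + r3 : ℕ) : ℤ) = ((m * A1 + r1 : ℕ) : ℤ) + p := by
              exact_mod_cast hp
            have h8 : den * ((m * A2 + r2 : ℕ) : ℤ) ≤ den * ((m * B1 + r3 : ℕ) : ℤ) :=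
              mul_le_mul_of_nonneg_left this hden.le
            rw [h7] at h8 ⊢
            ring_nf at h8 ⊢
            linarith)
          exact ⟨this.1, fun _ => this.2⟩
        · push Not at hq2
          rw [min_eq_right hq2] at key
          have := key.2 rfl
          have hp2 : min p P2 = P2 := by omega
          rw [hp2]
          exact ⟨this.1, fun _ => this.2⟩
  by_contra hcon
  push Not at hcon
  by_cases hp : p < P0
  · exact absurd (hsm0 i1 l p hl hlp hp hnd) (not_lt.mpr hcon)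
  · push Not at hp
    have hT : T (w (i1 + l) - w i1) (w (i1 + p) - w i1) (w (i1 + p + l) - w i1)
        (nd w i1 (i1 + l) (i1 + p) (i1 + p + l)) := by rw [hnd]; exact hT0 _ _ _
    have hphi : den * (((i1 + l : ℕ) : ℤ) - i1) - a1 * (((i1 + p : ℕ) : ℤ) - i1)
        = den * (l : ℤ) - a1 * p := by push_cast; ring
    have := (main p i1 (i1 + l) (i1 + p) (i1 + p + l) rfl (by omega) (by omega) (by omega) hT
      (by rw [hphi]; linarith)).2 hp hnd
    rw [hphi] at this
    linarith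

end CycAb
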