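import Mathlib.Data.Nat.Basic

/-!
Kernel-side functions for the template closure of a cyclic uniform morphism over `Z_k`.
Everything is arithmetic of natural numbers.
-/

namespace CycAb

noncomputable section

/-- binary trees with a key and a list at each node -/
inductive Tr where
  | nil : Tr
  | node : Tr → ℕ → List ℕ → Tr → Tr

/-- `band a b = a && b` with `a` evaluated first -/
@[reducible] def band (a b : Bool) : Bool := @Bool.rec (fun _ => Bool) false b a

/-- `bor a b = a || b` with `a` evaluated first -/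
@[reducible] def bor (a b : Bool) : Bool := @Bool.rec (fun _ => Bool) b true a

/-- `ite` on booleans -/
@[reducible] def bite {α : Type} (c : Bool) (a b : α) : α := @Bool.rec (fun _ => α) b a c

/-- the value at a key -/
def Tr.find (t : Tr) (x : ℕ) : Option (List ℕ) :=
  Tr.rec (motive := fun _ => Option (List ℕ)) none
    (fun _ key v _ fl fr => bite (Nat.beq x key) (some v) (bite (Nat.ble x key) fl fr)) t

/-- a test at all nodes -/
def Tr.all (t : Tr) (f : ℕ → List ℕ → Bool) : Bool :=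
  Tr.rec (motive := fun _ => Bool) true
    (fun _ key v _ fl fr => band (f key v) (band fl fr)) t

/-- a test on an optional list; `none` fails -/
@[reducible] def onSome (o : Option (List ℕ)) (f : List ℕ → Bool) : Bool :=
  @Option.rec (List ℕ) (fun _ => Bool) false f o

def allN (n : ℕ) (f : ℕ → Bool) : Bool :=
  Nat.rec (motive := fun _ => Bool) true (fun i ih => band (f i) ih) n

def sumN (n : ℕ) (f : ℕ → ℕ) : ℕ :=
  Nat.rec (motive := fun _ => ℕ) 0 (fun i ih => Nat.add ih (f i)) n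

def allL (l : List ℕ) (f : ℕ → Bool) : Bool :=
  List.rec (motive := fun _ => Bool) true (fun a _ ih => band (f a) ih) l

def memL (x : ℕ) (l : List ℕ) : Bool :=
  List.rec (motive := fun _ => Bool) false (fun a _ ih => bor (Nat.beq a x) ih) l

/-- entry `i` of a list, with default -/
def nthD {α : Type} (d : α) (l : List α) (i : ℕ) : α :=
  List.rec (motive := fun _ => ℕ → α) (fun _ => d)
    (fun a _ ih i => Nat.rec (motive := fun _ => α) a (fun j _ => ih j) i) l i

/-- field `i` of width `w` of the packed number `X` -/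
@[reducible] def fld (w X i : ℕ) : ℕ := Nat.land (Nat.shiftRight X (Nat.mul w i)) (Nat.sub (Nat.pow 2 w) 1)

/-- bit `i` of `X` -/
@[reducible] def bitN (X i : ℕ) : Bool := Nat.beq (Nat.land (Nat.shiftRight X i) 1) 1

/-- the data of an instance -/
structure Par where
  k : ℕ
  m : ℕ
  /-- letters of the block, 4 bits each -/
  H : ℕ
  /-- determinant -/
  dl : ℕ
  /-- modulus of the class functional -/
  Dl : ℕ
  /-- powers of the root, 20 bits each -/
  chi : ℕ
  /-- class values, 20 bits each -/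
  K : ℕ
  /-- packed vector `nu + lam`, 24 bits each -/
  NP : ℕ
  lam : ℕ
  /-- sum of nu -/
  snu : ℕ
  /-- packed ones -/
  one : ℕ
  /-- table of packed vectors `F0 r (t - s) + 3 dl`, index `s * m + r`, `24 * k` bits each -/
  PF : ℕ
  /-- bitmaps of classes, one for each difference of letters, doubled -/
  BM : List ℕ
  /-- candidate lists -/
  tab : List Tr
  /-- the states -/
  T : Tr
  P0 : ℕ
  P2 : ℕ
  /-- numerator minus denominator -/
  a1 : ℕ
  den : ℕ
  e : ℕ
  /-- differences of consecutive letters -/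
  D : List ℕ

namespace Par
variable (P : Par)

@[reducible] def h (r : ℕ) : ℕ := fld 4 P.H r
@[reducible] def ch (t : ℕ) : ℕ := fld 20 P.chi t
@[reducible] def Kv (r : ℕ) : ℕ := fld 20 P.K r
@[reducible] def np (t : ℕ) : ℕ := fld 24 P.NP t
@[reducible] def F (s r : ℕ) : ℕ := fld (Nat.mul 24 P.k) P.PF (Nat.add (Nat.mul s P.m) r)
/-- rotate a packed vector up by `j` fields -/
@[reducible] def rot (X j : ℕ) : ℕ :=
  Nat.add (Nat.land (Nat.shiftLeft X (Nat.mul 24 j)) (Nat.sub (Nat.pow 2 (Nat.mul 24 P.k)) 1))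
    (Nat.shiftRight X (Nat.mul 24 (Nat.sub P.k j)))

/-- the tests for one entry `x` of the parent -/
def chkOne (v : List ℕ) (z : Bool) (r1 r3 A C x : ℕ) : Bool :=
  bor (Nat.ble A C)
    (bite (Nat.ble P.P2 (Nat.div x 4096))
      (band (band (Nat.ble (Nat.sub A C) 4095) (memL (Nat.add (Nat.mul P.P2 4096) (Nat.sub A C)) v))
        (bor (Bool.not z) (Nat.ble (Nat.add (Nat.sub A C) 1) (Nat.add P.e P.den))))
      (bor (Nat.ble (Nat.add (Nat.add (Nat.mul P.m (Nat.div x 4096)) r3) 1) (Nat.add r1 P.P0))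
        (bor (Nat.ble (Nat.add (Nat.mul P.den (Nat.sub (Nat.add (Nat.mul P.m (Nat.div x 4096)) r3) r1))
            (Nat.add P.den 1))
            (Nat.add (Nat.sub A C)
              (Nat.mul P.a1 (Nat.sub (Nat.add (Nat.mul P.m (Nat.div x 4096)) r3) r1))))
          (band (band (Nat.ble (Nat.sub A C) 4095) (memL (Nat.add (Nat.mul
              (bite (Nat.ble P.P2 (Nat.sub (Nat.add (Nat.mul P.m (Nat.div x 4096)) r3) r1)) P.P2
                (Nat.sub (Nat.add (Nat.mul P.m (Nat.div x 4096)) r3) r1)) 4096) (Nat.sub A C)) v))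
            (bor (Bool.not z) (Nat.ble (Nat.add (Nat.sub A C) 1) (Nat.add P.e P.den)))))))

/-- the tests for the edge from the parent to the child: child list `v`, parent list `pv` -/
def chkEdge (v : List ℕ) (z : Bool) (r1 r2 r3 : ℕ) (pv : List ℕ) : Bool :=
  allL pv fun x => P.chkOne v z r1 r3
    (Nat.add (Nat.add (Nat.mul P.m (Nat.mod x 4096)) (Nat.mul P.den r2))
      (Nat.add (Nat.mul P.a1 r1) P.den))
    (Nat.add (Nat.add (Nat.mul P.den r1) (Nat.mul P.a1 r3)) (Nat.mul P.m P.den)) x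

/-- the test for one candidate with the number `X` -/
def chkX (v : List ℕ) (z : Bool) (m3 r1 r3 r2 m2 m4 X : ℕ) : Bool :=
  @Option.rec (List ℕ) (fun _ => Bool)
    (Bool.not (allN P.k fun t => Nat.beq (Nat.mod (fld 24 X t) P.dl) 0))
    (fun pv => P.chkEdge v z r1 r2 r3 pv)
    (P.T.find (Nat.add (Nat.shiftLeft (Nat.div X P.dl) 9)
      (Nat.add m2 (Nat.add (Nat.mul 8 m3) (Nat.mul 64 m4)))))

/-- the test for one candidate -/
def chkCand (v : List ℕ) (z : Bool) (n2 n4 h1 m3 A3 r1 r3 r2 r4 : ℕ) : Bool :=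
  P.chkX v z m3 r1 r3 r2
    (Nat.mod (Nat.sub (Nat.add (Nat.add n2 h1) P.k) (P.h r2)) P.k)
    (Nat.mod (Nat.sub (Nat.add (Nat.add n4 h1) P.k) (P.h r4)) P.k)
    (Nat.sub
      (Nat.add A3 (P.F (Nat.mod (Nat.sub (Nat.add (Nat.add n4 h1) P.k) (P.h r4)) P.k) r4))
      (P.F (Nat.mod (Nat.sub (Nat.add (Nat.add n2 h1) P.k) (P.h r2)) P.k) r2))

/-- the test for one pair `r1, r3` -/
def chkPair (v : List ℕ) (z : Bool) (n2 n4 bm : ℕ) (tb : Tr) (h1 r1 r3 u m3 A1 : ℕ) : Bool :=
  bor (Bool.not (bitN bm u))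
    (onSome (tb.find (Nat.mod u P.Dl)) fun l => allL l fun x =>
      P.chkCand v z n2 n4 h1 m3
        (Nat.sub (Nat.add A1 (Nat.mul (Nat.mul 12 P.dl) P.one)) (P.F m3 r3)) r1 r3
        (Nat.shiftRight x 6) (Nat.land x 63))

/-- the test for one `r1` -/
def chkRow (v : List ℕ) (z : Bool) (n2 n3 n4 iv c3 VP U1 bm : ℕ) (tb : Tr) (h1 r1 : ℕ) : Bool :=
  allN P.m fun r3 => P.chkPair v z n2 n4 bm tb h1 r1 r3
    (Nat.add U1 (Nat.mod (Nat.mul iv (Nat.sub P.Dl (Nat.mod (Nat.mul c3 (P.Kv r3)) P.Dl))) P.Dl))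
    (Nat.mod (Nat.sub (Nat.add (Nat.add n3 h1) P.k) (P.h r3)) P.k)
    (Nat.add (P.rot VP h1) (P.F 0 r1))

/-- the test for the letters and the vector -/
def chkVec (v : List ℕ) (n2 n3 n4 Q g VP : ℕ) : Bool :=
  allN P.m fun r1 => P.chkRow v (Nat.beq Q (Nat.mul 16 P.one)) n2 n3 n4
    (P.ch (Nat.mod (Nat.sub P.k n2) P.k)) (P.ch n3) VP
    (Nat.mod (Nat.mul (P.ch (Nat.mod (Nat.sub P.k n2) P.k)) (Nat.add (P.Kv r1) g)) P.Dl)
    (nthD 0 P.BM (Nat.mod (Nat.sub (Nat.add n4 P.k) n2) P.k))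
    (nthD Tr.nil P.tab (Nat.mod (Nat.sub (Nat.add n4 P.k) n2) P.k)) (P.h r1) r1

/-- `sum chi t * nd t` mod `Dl` -/
def gOf (Q : ℕ) : ℕ := Nat.mod (sumN P.k fun t => Nat.mul (P.ch t)
    (Nat.add (fld 24 Q t) (Nat.mul 16 (Nat.sub P.Dl 1)))) P.Dl

/-- packed `nu * nd + 4 dl` -/
def vOf (Q : ℕ) : ℕ :=
  Nat.sub (Nat.add (sumN P.k fun s => Nat.mul (fld 24 Q s) (P.rot P.NP s))
      (Nat.mul (Nat.mul 4 P.dl) P.one))
    (Nat.mul (Nat.add (Nat.mul 16 P.snu) (Nat.mul P.lam (sumN P.k fun s => fld 24 Q s))) P.one)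

def chkState (key : ℕ) (v : List ℕ) : Bool :=
  P.chkVec v (Nat.land key 7) (Nat.land (Nat.shiftRight key 3) 7) (Nat.land (Nat.shiftRight key 6) 7)
    (Nat.shiftRight key 9) (P.gOf (Nat.shiftRight key 9)) (P.vOf (Nat.shiftRight key 9))

end Par

end

end CycAb
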