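import Pool.Agent.Lib.CycAb.Low6D

set_option maxRecDepth 100000

namespace CycAb.Low6

open CycAb CycAb.Low

theorem g0 : C.go B0 13 [0, 3, 2, 1, 0] [0, 1, 2, 3, 0] 4 = true := by decide +kernel

theorem g1 : C.go B1 6 [4, 3, 2, 1, 0] [0, 1, 2, 3, 4] 5 = true := by decide +kernel

end CycAb.Low6
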