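import Pool.Agent.Lib.CycAb.LowS
import Pool.Agent.Lib.CycAb.Low7x0

/-!
Lower bound: 7 letters, exponent 5/4.
-/

set_option maxRecDepth 100000

namespace CycAb.Low7

open CycAb CycAb.Low MPbbea99

theorem ok : Ok C 1 4 where
  hK := by decide
  hsh := by decide
  hM := by decide +kernel
  hb := by decide
  hwl := by decide
  hprs := by decide +kernel

theorem hps : ∀ q ∈ ps, (∀ c < C.K, ∃ a < C.K, nthD 0 q a = c) ∧ ∀ a < C.K, nthD 0 q a < C.K := by
  decide +kernel

theorem v0 : Valid C 1 4 B0 := ok.valid_zero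

theorem v1 : Valid C 1 4 B1 :=
  ok.step v0 g0 rfl rfl (by decide) (by decide) (by decide) hps (by decide +kernel)

theorem v2 : Valid C 1 4 B2 :=
  ok.step v1 g1 rfl rfl (by decide) (by decide) (by decide) hps (by decide +kernel)

theorem gF : C.go B2 7 [] [] 0 = true := by decide +kernel

theorem not_avoid : ¬ Avoid (1 + ((1 : ℕ) : ℝ) / ((4 : ℕ) : ℝ)) 7 := by
  intro h
  exact ok.go_sound v2 (y := []) rfl (by simp) (by decide) (by decide) gF
    (E_nil_of_avoid (by norm_num) (by norm_num) h)

end CycAb.Low7
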