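import Pool.Agent.Lib.CycAb.LowS

/-!
Lower bound: 9 letters, exponent 7/6.
-/

set_option maxRecDepth 100000

namespace CycAb.Low9

open CycAb CycAb.Low MPbbea99

noncomputable section

def prs : List Ent := [⟨1, 2, [1]⟩,
  ⟨2, 3, [1, 2]⟩,
  ⟨3, 4, [1, 2, 3]⟩,
  ⟨4, 5, [1, 2, 3, 4]⟩,
  ⟨5, 6, [1, 2, 3, 4, 5]⟩,
  ⟨6, 7, [1, 2, 3, 4, 5, 6]⟩,
  ⟨7, 9, [2, 3, 4, 5, 6, 7]⟩,
  ⟨8, 10, [2, 3, 4, 5, 6, 7, 8]⟩,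
  ⟨9, 11, [2, 3, 4, 5, 6, 7, 8, 9]⟩,
  ⟨10, 12, [2, 3, 4, 5, 6, 7, 8, 9, 10]⟩,
  ⟨11, 13, [2, 3, 4, 5, 6, 7, 8, 9, 10, 11]⟩,
  ⟨12, 14, [2, 3, 4, 5, 6, 7, 8, 9, 10, 11, 12]⟩,
  ⟨13, 16, [3, 4, 5, 6, 7, 8, 9, 10, 11, 12, 13]⟩,
  ⟨14, 17, [3, 4, 5, 6, 7, 8, 9, 10, 11, 12, 13, 14]⟩,
  ⟨15, 18, [3, 4, 5, 6, 7, 8, 9, 10, 11, 12, 13, 14, 15]⟩,
  ⟨16, 19, [3, 4, 5, 6, 7, 8, 9, 10, 11, 12, 13, 14, 15, 16]⟩,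
  ⟨17, 20, [3, 4, 5, 6, 7, 8, 9, 10, 11, 12, 13, 14, 15, 16, 17]⟩,
  ⟨18, 21, [3, 4, 5, 6, 7, 8, 9, 10, 11, 12, 13, 14, 15, 16, 17, 18]⟩,
  ⟨19, 23, [4, 5, 6, 7, 8, 9, 10, 11, 12, 13, 14, 15, 16, 17, 18, 19]⟩,
  ⟨20, 24, [4, 5, 6, 7, 8, 9, 10, 11, 12, 13, 14, 15, 16, 17, 18, 19, 20]⟩]

def C : Cfg := ⟨9, 72, 4722366482869645213695, 4, 6, prs⟩

end

theorem ok : Ok C 1 6 where
  hK := by decide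
  hsh := by decide
  hM := by decide +kernel
  hb := by decide
  hwl := by decide
  hprs := by decide +kernel

theorem gF : C.go 0 34 [] [] 0 = true := by decide +kernel

theorem not_avoid : ¬ Avoid (1 + ((1 : ℕ) : ℝ) / ((6 : ℕ) : ℝ)) 9 := by
  intro h
  exact ok.go_sound ok.valid_zero (y := []) rfl (by simp) (by decide) (by decide) gF
    (E_nil_of_avoid (by norm_num) (by norm_num) h)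

end CycAb.Low9
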