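import Pool.Agent.Lib.CycAb.Sound1
import Pool.Agent.Lib.Pbbea99.Final

/-!
Two-sided extendable words.
-/

set_option linter.unusedSectionVars false

namespace CycAb.Low

open CycAb Finset MPbbea99

variable (K a1 den : ℕ)

/-- words over `{0, ..., K-1}` with no pair of equivalent windows with `den * l ≥ a1 * p` -/
def Gd (x : List ℕ) : Prop :=
  (∀ c ∈ x, c < K) ∧ ∀ u v u' : List ℕ, (u ++ v ++ u') <:+: x → u.Perm u' → u ≠ [] →
    ¬ a1 * (u.length + v.length) ≤ den * u.length

/-- words with arbitrarily long two-sided good extensions -/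
def E (x : List ℕ) : Prop :=
  ∀ n : ℕ, ∃ L R : List ℕ, n ≤ L.length ∧ n ≤ R.length ∧ Gd K a1 den (L ++ x ++ R)

variable {K a1 den}

lemma Gd.fac {x y : List ℕ} (h : Gd K a1 den x) (hy : y <:+: x) : Gd K a1 den y :=
  ⟨fun c hc => h.1 c (hy.subset hc), fun u v u' hi hp hu => h.2 u v u' (hi.trans hy) hp hu⟩

lemma Gd.reverse {x : List ℕ} (h : Gd K a1 den x) : Gd K a1 den x.reverse := by
  refine ⟨fun c hc => h.1 c (List.mem_reverse.mp hc), fun u v u' hi hp hu => ?_⟩
  have h1 : (u'.reverse ++ v.reverse ++ u.reverse) <:+: x := by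
    have := List.reverse_infix.mpr hi
    rw [List.reverse_reverse] at this
    simpa [List.append_assoc] using this
  have h2 := h.2 u'.reverse v.reverse u.reverse h1
    ((List.reverse_perm u').trans (hp.symm.trans (List.reverse_perm u).symm))
    (by
      intro h0
      apply hu
      have : u'.length = 0 := by rw [← List.length_reverse, h0]; rfl
      exact List.length_eq_zero_iff.mp (hp.length_eq.trans this))
  rw [List.length_reverse, List.length_reverse, ← hp.length_eq] at h2
  exact h2

lemma Gd.pull {x : List ℕ} {g : ℕ → ℕ} (h : Gd K a1 den (x.map g)) (hx : ∀ c ∈ x, c < K) :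
    Gd K a1 den x := by
  refine ⟨hx, fun u v u' hi hp hu => ?_⟩
  have h1 : (u.map g ++ v.map g ++ u'.map g) <:+: x.map g := by
    have := hi.map g
    simpa using this
  have h2 := h.2 _ _ _ h1 (hp.map g) (by simpa using hu)
  simpa using h2

lemma E.good {x : List ℕ} (h : E K a1 den x) : Gd K a1 den x := by
  obtain ⟨L, R, -, -, h⟩ := h 0
  exact h.fac ⟨L, R, rfl⟩

lemma E.fac {x y : List ℕ} (h : E K a1 den x) (hy : y <:+: x) : E K a1 den y := by
  intro n
  obtain ⟨L, R, hL, hR, h⟩ := h n
  obtain ⟨s, t, rfl⟩ := hy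
  refine ⟨L ++ s, t ++ R, ?_, ?_, ?_⟩
  · rw [List.length_append]; omega
  · rw [List.length_append]; omega
  · simpa [List.append_assoc] using h

lemma E.reverse {x : List ℕ} (h : E K a1 den x) : E K a1 den x.reverse := by
  intro n
  obtain ⟨L, R, hL, hR, h⟩ := h n
  refine ⟨R.reverse, L.reverse, by simpa using hR, by simpa using hL, ?_⟩
  have := h.reverse
  simpa [List.append_assoc] using this

lemma E.pull {x : List ℕ} {g : ℕ → ℕ} (hg : ∀ c < K, ∃ a < K, g a = c)
    (h : E K a1 den (x.map g)) (hx : ∀ c ∈ x, c < K) : E K a1 den x := by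
  classical
  let g' : ℕ → ℕ := fun c => if hc : c < K then (hg c hc).choose else 0
  have hg' : ∀ c, c < K → g' c < K ∧ g (g' c) = c := by
    intro c hc
    simp only [g', hc, dif_pos]
    exact (hg c hc).choose_spec
  intro n
  obtain ⟨L, R, hL, hR, h⟩ := h n
  have hmap : ∀ y : List ℕ, (∀ c ∈ y, c < K) → (y.map g').map g = y := by
    intro y hy
    rw [List.map_map]
    conv_rhs => rw [← List.map_id y]
    exact List.map_congr_left fun c hc => (hg' c (hy c hc)).2
  have hLK : ∀ c ∈ L, c < K := fun c hc => h.1 c (by simp [hc])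
  have hRK : ∀ c ∈ R, c < K := fun c hc => h.1 c (by simp [hc])
  refine ⟨L.map g', R.map g', by simpa using hL, by simpa using hR, ?_⟩
  apply Gd.pull (g := g)
  · rw [List.map_append, List.map_append, hmap L hLK, hmap R hRK]
    exact h
  · intro c hc
    simp only [List.mem_append, List.mem_map] at hc
    rcases hc with (⟨a, ha, rfl⟩ | hc) | ⟨a, ha, rfl⟩
    · exact (hg' a (hLK a ha)).1
    · exact hx c hc
    · exact (hg' a (hRK a ha)).1

lemma E.cons {x : List ℕ} (h : E K a1 den x) : ∃ c < K, E K a1 den (c :: x) := by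
  classical
  by_contra hcon
  push Not at hcon
  have h1 : ∀ c < K, ∃ n, ¬ ∃ L R : List ℕ, n ≤ L.length ∧ n ≤ R.length ∧
      Gd K a1 den (L ++ (c :: x) ++ R) := by
    intro c hc
    have := hcon c hc
    unfold E at this
    push Not at this
    obtain ⟨n, hn⟩ := this
    exact ⟨n, by push Not; exact hn⟩
  choose! N hN using h1
  set M := (range K).sup N with hM
  obtain ⟨L, R, hL, hR, hG⟩ := h (M + 1)
  obtain ⟨L', c, rfl⟩ : ∃ L' c, L = L' ++ [c] := by
    rcases List.eq_nil_or_concat L with h0 | ⟨L', c, h0⟩
    · rw [h0] at hL; simp at hL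
    · exact ⟨L', c, by rw [h0, List.concat_eq_append]⟩
  have hc : c < K := hG.1 c (by simp)
  apply hN c hc
  have hle : N c ≤ M := Finset.le_sup (f := N) (Finset.mem_range.mpr hc)
  refine ⟨L', R, ?_, by omega, ?_⟩
  · simp at hL; omega
  · simpa [List.append_assoc] using hG

/-- a new letter can be taken to be the least unused one -/
lemma E.canon {x : List ℕ} {c u : ℕ} (h : E K a1 den (c :: x)) (hc : c < K) (hx : ∀ a ∈ x, a < u)
    (hu : u ≤ c) : E K a1 den (u :: x) := by
  classical
  apply E.pull (g := fun a => if a = u then c else if a = c then u else a)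
  · intro a ha
    by_cases h1 : a = u
    · refine ⟨c, hc, ?_⟩
      subst h1
      by_cases h2 : c = a
      · simp [h2]
      · simp [h2]
    · by_cases h2 : a = c
      · exact ⟨u, by omega, by simp [h2]⟩
      · exact ⟨a, ha, by simp [h1, h2]⟩
  · have : (u :: x).map (fun a => if a = u then c else if a = c then u else a) = c :: x := by
      rw [List.map_cons, if_pos rfl]
      congr 1
      conv_rhs => rw [← List.map_id x]
      refine List.map_congr_left fun a ha => ?_
      have := hx a ha
      rw [if_neg (by omega), if_neg (by omega)]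
      rfl
    rw [this]
    exact h
  · intro a ha
    rcases List.mem_cons.mp ha with h1 | h1
    · omega
    · have := hx a h1
      omega

/-- from an infinite set of words -/
lemma E_nil_of_avoid (hden : 0 < den) (ha0 : 0 < a1)
    (h : Avoid (1 + (a1 : ℝ) / den) K) : E K a1 den [] := by
  intro n
  obtain ⟨w, hw, hlen⟩ : ∃ w ∈ AvoidSet (1 + (a1 : ℝ) / den) K, 2 * n ≤ w.length := by
    by_contra hcon
    push Not at hcon
    apply h
    apply (List.finite_length_lt (Fin K) (2 * n)).subset
    intro w hw
    exact hcon w hw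
  refine ⟨(w.map Fin.val).take n, (w.map Fin.val).drop n, ?_, ?_, ?_⟩
  · rw [List.length_take, List.length_map]; omega
  · rw [List.length_drop, List.length_map]; omega
  · rw [List.append_nil, List.take_append_drop]
    refine ⟨fun c hc => ?_, fun u v u' hi hp hu hle => ?_⟩
    · obtain ⟨a, _, rfl⟩ := List.mem_map.mp hc
      exact a.isLt
    · obtain ⟨s1, t1, hst⟩ := hi
      obtain ⟨x1, t1', hw1, hx1, ht1⟩ := List.map_eq_append_iff.mp hst.symm
      obtain ⟨s1', x2, hx2, hs1, hx3⟩ := List.map_eq_append_iff.mp hx1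
      obtain ⟨x4, u1', hx4, hx5, hu1'⟩ := List.map_eq_append_iff.mp hx3
      obtain ⟨u1, v1, hx6, hu1, hv1⟩ := List.map_eq_append_iff.mp hx5
      have hl : 1 ≤ u1.length := by
        rcases Nat.eq_zero_or_pos u1.length with h0 | h0
        · exfalso; apply hu; rw [← hu1, List.length_eq_zero_iff.mp h0]; rfl
        · exact h0
      rw [← hu1, ← hv1, List.length_map, List.length_map] at hle
      have hp0 : (0 : ℝ) < ((u1.length + v1.length : ℕ) : ℝ) := by
        have : 0 < u1.length + v1.length := by omega
        exact_mod_cast this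
      have hd0 : (0 : ℝ) < den := by exact_mod_cast hden
      have ha0' : (0 : ℝ) < a1 := by exact_mod_cast ha0
      have hle' : (a1 : ℝ) * ((u1.length + v1.length : ℕ) : ℝ) ≤ den * u1.length := by
        exact_mod_cast hle
      apply hw (1 + (u1.length : ℝ) / ((u1.length + v1.length : ℕ) : ℝ))
      · have : (a1 : ℝ) / den ≤ (u1.length : ℝ) / ((u1.length + v1.length : ℕ) : ℝ) := by
          rw [div_le_div_iff₀ hd0 hp0]
          linarith
        linarith
      · have : (0 : ℝ) < (u1.length : ℝ) / ((u1.length + v1.length : ℕ) : ℝ) := by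
          have : (0 : ℝ) < u1.length := by exact_mod_cast hl
          positivity
        linarith
      · have : (u1.length : ℝ) / ((u1.length + v1.length : ℕ) : ℝ) ≤ 1 := by
          rw [div_le_one hp0]
          push_cast
          have : (0 : ℝ) ≤ v1.length := by positivity
          linarith
        linarith
      · refine ⟨u1, v1, u1', ⟨s1', t1', ?_⟩, ?_, ?_⟩
        · rw [hw1, hx2, hx4, hx6]
        · rw [← hu1, ← hu1'] at hp
          exact (List.map_perm_map_iff Fin.val_injective).mp hp
        · simp only [List.length_append]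
          push_cast
          field_simp

end CycAb.Low
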