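import Pool.Agent.Lib.CycAb.Kern

/-!
Kernel-side search for lower bounds.  Words are lists of letters `< K`, last letter first.
-/

namespace CycAb.Low

open CycAb

noncomputable section

/-- an entry: a period `p`, a length threshold, and a list of lengths `l` -/
structure Ent where
  p : ℕ
  thr : ℕ
  ls : List ℕ

/-- parameters -/
structure Cfg where
  /-- number of letters -/
  K : ℕ
  /-- width of a field, `8 * K` -/
  sh : ℕ
  /-- `2 ^ sh - 1` -/
  M : ℕ
  /-- bits of a letter in the codes of words -/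
  b : ℕ
  /-- length of the windows for the table of dead factors -/
  wl : ℕ
  prs : List Ent

def anyL (l : List ℕ) (f : ℕ → Bool) : Bool :=
  List.rec (motive := fun _ => Bool) false (fun a _ ih => bor (f a) ih) l

/-- total weight -/
def tot (x : List ℕ) : ℕ :=
  List.rec (motive := fun _ => ℕ) 0 (fun c _ ih => Nat.add ih (Nat.pow 2 (Nat.mul 8 c))) x

namespace Cfg
variable (C : Cfg)

/-- test of one period: `T` is `S` shifted by `p` fields, `Sp` is field `p` -/
def tst (S T Sp l : ℕ) : Bool :=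
  Nat.beq (Nat.land (Nat.add (Nat.shiftRight S (Nat.mul C.sh l)) Sp) C.M)
    (Nat.land (Nat.shiftRight T (Nat.mul C.sh l)) C.M)

/-- the word with suffix sums `S` and length `n` ends with a large repetition -/
def dead (S n : ℕ) : Bool :=
  List.rec (motive := fun _ => Bool) false
    (fun e _ ih => band (Nat.ble e.thr n)
      (bor (anyL e.ls fun l => C.tst S (Nat.shiftRight S (Nat.mul C.sh e.p))
        (Nat.land (Nat.shiftRight S (Nat.mul C.sh e.p)) C.M) l) ih)) C.prs

/-- the window of the last `wl` letters is in the table `B` -/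
def win (B W n : ℕ) : Bool :=
  band (Nat.ble C.wl n) (bitN B (Nat.land W (Nat.sub (Nat.pow 2 (Nat.mul C.b C.wl)) 1)))

/-- the test for a new word -/
def stop (B W S n : ℕ) : Bool := bor (C.win B W n) (C.dead S n)

/-- suffix sums of `c :: x` -/
@[reducible] def nS (S n c : ℕ) : ℕ :=
  Nat.shiftLeft (Nat.add S (Nat.mul (Nat.pow 2 (Nat.mul 8 c))
    (Nat.div (Nat.sub (Nat.pow 2 (Nat.mul C.sh (Nat.add n 1))) 1) C.M))) C.sh

/-- prefix sums of `c :: x` -/
@[reducible] def nP (P T n : ℕ) : ℕ :=
  Nat.add P (Nat.shiftLeft T (Nat.mul C.sh (Nat.add n 1)))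

/-- the search: `true` if no arbitrarily long two-sided extension -/
def srch (B : ℕ) (fuel : ℕ) : ℕ → ℕ → ℕ → ℕ → ℕ → ℕ → ℕ → Bool :=
  Nat.rec (motive := fun _ => ℕ → ℕ → ℕ → ℕ → ℕ → ℕ → ℕ → Bool)
    (fun _ _ _ _ _ _ _ => false)
    (fun _ ih W V S P T n u =>
      allN (bite (Nat.ble (Nat.add u 1) C.K) (Nat.add u 1) C.K) fun c =>
        bor (C.stop B (Nat.add (Nat.mul (Nat.pow 2 C.b) W) c) (C.nS S n c) (Nat.add n 1))
          (ih (Nat.add V (Nat.mul c (Nat.pow 2 (Nat.mul C.b n))))
            (Nat.add (Nat.mul (Nat.pow 2 C.b) W) c)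
            (C.nP P (Nat.add T (Nat.pow 2 (Nat.mul 8 c))) n)
            (C.nS S n c) (Nat.add T (Nat.pow 2 (Nat.mul 8 c))) (Nat.add n 1)
            (bite (Nat.ble (Nat.add c 1) u) u (Nat.add c 1)))) fuel

/-- code of a word -/
def code (x : List ℕ) : ℕ :=
  List.rec (motive := fun _ => ℕ) 0 (fun c _ ih => Nat.add (Nat.mul (Nat.pow 2 C.b) ih) c) x

/-- suffix sums of a word -/
def sS (x : List ℕ) : ℕ :=
  List.rec (motive := fun _ => ℕ) 0 (fun c y ih => C.nS ih y.length c) x

/-- the search from a word `x` with letters `< u`; `y` is its reverse -/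
def go (B fuel : ℕ) (x y : List ℕ) (u : ℕ) : Bool :=
  C.srch B fuel (C.code x) (C.code y) (C.sS x) (C.sS y) (tot x) x.length u

/-- mask of the images of a word under letter permutations -/
def mask (ps : List (List ℕ)) (x : List ℕ) : ℕ :=
  List.rec (motive := fun _ => ℕ) 0
    (fun q _ ih => Nat.lor ih (Nat.pow 2 (C.code (x.map fun a => nthD 0 q a)))) ps

end Cfg

end

end CycAb.Low
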