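import Pool.Agent.Lib.CycAb.LowK
import Pool.Agent.Lib.CycAb.LowE

/-!
Soundness of the search.
-/

set_option linter.unusedSectionVars false

namespace CycAb.Low

open CycAb Finset

lemma anyL_eq {l : List ℕ} {f : ℕ → Bool} : anyL l f = true ↔ ∃ x ∈ l, f x = true := by
  induction l with
  | nil => simp [anyL]
  | cons a l ih =>
    have : anyL (a :: l) f = bor (f a) (anyL l f) := rfl
    rw [this, bor_eq, ih]
    simp

lemma bitN_iff {X i : ℕ} : bitN X i = true ↔ X.testBit i = true := by
  have h1 : bitN X i = Nat.beq (X / 2 ^ i % 2) 1 := by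
    unfold bitN
    show Nat.beq ((X >>> i) &&& 1) 1 = _
    rw [Nat.shiftRight_eq_div_pow]
    congr 1
    exact Nat.and_one_is_mod _
  rw [h1, Nat.testBit_eq_decide_div_mod_eq, decide_eq_true_eq]
  constructor
  · intro h; exact Nat.eq_of_beq_eq_true h
  · intro h; rw [h]; rfl

/-! ### weights -/

lemma tot_nil : tot [] = 0 := rfl
lemma tot_cons (c : ℕ) (x : List ℕ) : tot (c :: x) = tot x + 2 ^ (8 * c) := rfl

lemma tot_append (x y : List ℕ) : tot (x ++ y) = tot x + tot y := by
  induction x with
  | nil => simp [tot_nil]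
  | cons c x ih => rw [List.cons_append, tot_cons, tot_cons, ih]; ring

lemma tot_pos {x : List ℕ} (hx : 1 ≤ x.length) : 0 < tot x := by
  cases x with
  | nil => simp at hx
  | cons c x => rw [tot_cons]; positivity

lemma tot_eq_pk {K : ℕ} {x : List ℕ} (hx : ∀ c ∈ x, c < K) :
    tot x = pk (2 ^ 8) K (fun c => x.count c) := by
  induction x with
  | nil => simp [tot_nil, pk]
  | cons a x ih =>
    rw [tot_cons, ih fun c hc => hx c (by simp [hc])]
    unfold pk
    have ha : a < K := hx a (by simp)
    have : ∀ i ∈ range K, (a :: x).count i * (2 ^ 8) ^ i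
        = x.count i * (2 ^ 8) ^ i + (if i = a then (2 ^ 8) ^ i else 0) := by
      intro i _
      rw [List.count_cons]
      by_cases h : a = i
      · subst h; simp; ring
      · have h2 : ¬ i = a := fun h' => h h'.symm
        simp [h, h2]
    rw [Finset.sum_congr rfl this, Finset.sum_add_distrib, Finset.sum_ite_eq' (range K) a,
      if_pos (Finset.mem_range.mpr ha), pow_mul]

lemma tot_lt {K : ℕ} {x : List ℕ} (hx : ∀ c ∈ x, c < K) (hl : x.length < 256) :
    tot x < 2 ^ (8 * K) := by
  rw [tot_eq_pk hx, pow_mul]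
  exact pk_lt fun i _ => lt_of_le_of_lt List.count_le_length hl

lemma perm_of_tot {K : ℕ} {x y : List ℕ} (hx : ∀ c ∈ x, c < K) (hy : ∀ c ∈ y, c < K)
    (hxl : x.length < 256) (hyl : y.length < 256) (h : tot x = tot y) : x.Perm y := by
  rw [List.perm_iff_count]
  intro a
  by_cases ha : a < K
  · rw [tot_eq_pk hx, tot_eq_pk hy] at h
    have e1 := pk_digit (B := 2 ^ 8) (f := fun c => x.count c) (n := K)
      (fun i _ => lt_of_le_of_lt List.count_le_length hxl) ha
    have e2 := pk_digit (B := 2 ^ 8) (f := fun c => y.count c) (n := K)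
      (fun i _ => lt_of_le_of_lt List.count_le_length hyl) ha
    rw [h] at e1
    exact e1.symm.trans e2
  · rw [List.count_eq_zero_of_not_mem fun h => ha (hx a h),
      List.count_eq_zero_of_not_mem fun h => ha (hy a h)]

/-! ### the configuration -/

/-- validity of a configuration -/
structure Ok (C : Cfg) (a1 den : ℕ) : Prop where
  hK : 1 ≤ C.K
  hsh : C.sh = 8 * C.K
  hM : C.M = 2 ^ C.sh - 1
  hb : C.K ≤ 2 ^ C.b
  hwl : 1 ≤ C.wl
  hprs : ∀ e ∈ C.prs, ∀ l ∈ e.ls, 1 ≤ l ∧ l ≤ e.p ∧ e.p ≤ e.thr ∧ a1 * e.p ≤ den * l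

namespace Cfg

variable (C : Cfg)

lemma sS_nil : C.sS [] = 0 := rfl
lemma sS_cons' (c : ℕ) (x : List ℕ) : C.sS (c :: x) = C.nS (C.sS x) x.length c := rfl

lemma code_nil : C.code [] = 0 := rfl
lemma code_cons (c : ℕ) (x : List ℕ) : C.code (c :: x) = 2 ^ C.b * C.code x + c := rfl

lemma code_append_one (x : List ℕ) (c : ℕ) :
    C.code (x ++ [c]) = C.code x + c * 2 ^ (C.b * x.length) := by
  induction x with
  | nil => simp [code_cons, code_nil]
  | cons a x ih =>
    rw [List.cons_append, code_cons, code_cons, ih, List.length_cons, Nat.mul_succ, pow_add]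
    ring

lemma mod_aux {a B A c : ℕ} (hc : c < a) (hB : 0 < B) : (a * A + c) % (a * B) = a * (A % B) + c := by
  have h1 : A = B * (A / B) + A % B := (Nat.div_add_mod A B).symm
  have h2 : a * (A % B) + c < a * B := by
    have h3 : A % B + 1 ≤ B := Nat.mod_lt _ hB
    calc a * (A % B) + c < a * (A % B) + a := by omega
      _ = a * (A % B + 1) := by ring
      _ ≤ a * B := Nat.mul_le_mul_left _ h3
  calc (a * A + c) % (a * B) = ((a * (A % B) + c) + (a * B) * (A / B)) % (a * B) := by
        congr 1
        conv_lhs => rw [h1]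
        ring
    _ = _ := by rw [Nat.add_mul_mod_self_left, Nat.mod_eq_of_lt h2]

lemma code_mod {x : List ℕ} (hx : ∀ c ∈ x, c < 2 ^ C.b) (w : ℕ) :
    C.code x % 2 ^ (C.b * w) = C.code (x.take w) := by
  induction w generalizing x with
  | zero => simp [code_nil, Nat.mod_one]
  | succ w ih =>
    cases x with
    | nil => simp [code_nil]
    | cons a x =>
      rw [List.take_succ_cons, code_cons, code_cons, ← ih fun c hc => hx c (by simp [hc]),
        Nat.mul_succ, add_comm (C.b * w), pow_add]
      exact mod_aux (hx a (by simp)) (by positivity)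

lemma code_inj {x y : List ℕ} (hx : ∀ c ∈ x, c < 2 ^ C.b) (hy : ∀ c ∈ y, c < 2 ^ C.b)
    (hl : x.length = y.length) (h : C.code x = C.code y) : x = y := by
  induction x generalizing y with
  | nil => exact (List.length_eq_zero_iff.mp hl.symm).symm
  | cons a x ih =>
    cases y with
    | nil => simp at hl
    | cons b y =>
      rw [code_cons, code_cons] at h
      have ha := hx a (by simp)
      have hb := hy b (by simp)
      have h1 : a = b := by
        have := congrArg (· % 2 ^ C.b) h
        simp only [Nat.mul_add_mod, Nat.mod_eq_of_lt ha, Nat.mod_eq_of_lt hb] at this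
        exact this
      subst h1
      have h2 : C.code x = C.code y := by
        have : 2 ^ C.b * C.code x = 2 ^ C.b * C.code y := by omega
        exact Nat.eq_of_mul_eq_mul_left (by positivity) this
      rw [ih (fun c hc => hx c (by simp [hc])) (fun c hc => hy c (by simp [hc]))
        (by simpa using hl) h2]

end Cfg

namespace Ok

variable {C : Cfg} {a1 den : ℕ} (k : Ok C a1 den)
include k

lemma two_le_sh : 8 ≤ C.sh := by have := k.hK; rw [k.hsh]; omega

lemma sS_cons (c : ℕ) (x : List ℕ) : C.sS (c :: x)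
    = 2 ^ C.sh * (C.sS x + 2 ^ (8 * c) * ∑ j ∈ range (x.length + 1), (2 ^ C.sh) ^ j) := by
  rw [Cfg.sS_cons']
  have h1 : (2 ^ (C.sh * (x.length + 1)) - 1) / C.M
      = ∑ j ∈ range (x.length + 1), (2 ^ C.sh) ^ j := by
    rw [k.hM, Nat.geomSum_eq, ← pow_mul]
    have := k.two_le_sh
    calc 2 = 2 ^ 1 := rfl
      _ ≤ 2 ^ C.sh := Nat.pow_le_pow_right (by norm_num) (by omega)
  rw [← h1]
  unfold Cfg.nS
  show (C.sS x + 2 ^ (8 * c) * ((2 ^ (C.sh * (x.length + 1)) - 1) / C.M)) <<< C.sh = _
  rw [Nat.shiftLeft_eq]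
  ring

lemma sS_eq (x : List ℕ) :
    C.sS x = pk (2 ^ C.sh) (x.length + 1) (fun j => tot (x.take j)) := by
  induction x with
  | nil => simp [Cfg.sS_nil, pk, tot_nil]
  | cons c x ih =>
    have hz : pk (2 ^ C.sh) 1 (fun j => tot ((c :: x).take j)) = 0 := by simp [pk, tot_nil]
    have hs : pk (2 ^ C.sh) ((c :: x).length + 1) (fun j => tot ((c :: x).take j))
        = 2 ^ C.sh * pk (2 ^ C.sh) (x.length + 1) (fun i => tot ((c :: x).take (1 + i))) := by
      rw [List.length_cons, show x.length + 1 + 1 = 1 + (x.length + 1) by ring, pk_add, hz,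
        zero_add, pow_one]
    rw [k.sS_cons, ih, hs]
    congr 1
    unfold pk
    rw [Finset.mul_sum, ← Finset.sum_add_distrib]
    refine Finset.sum_congr rfl fun j _ => ?_
    have h1 : (c :: x).take (1 + j) = c :: x.take j := by rw [add_comm 1 j, List.take_succ_cons]
    simp only [h1, tot_cons]
    ring

lemma sS_append (x : List ℕ) (c : ℕ) :
    C.sS (x ++ [c]) = C.sS x + tot (x ++ [c]) * (2 ^ C.sh) ^ (x.length + 1) := by
  rw [k.sS_eq, k.sS_eq, List.length_append, List.length_singleton, pk_succ]
  congr 1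
  · unfold pk
    refine Finset.sum_congr rfl fun j hj => ?_
    have := Finset.mem_range.mp hj
    have h1 : (x ++ [c]).take j = x.take j := List.take_append_of_le_length (by omega)
    simp only [h1]
  · rw [List.take_of_length_le (by simp)]

lemma fld_le {x : List ℕ} (hx : ∀ c ∈ x, c < C.K) (hl : x.length < 256) {j : ℕ}
    (hj : j ≤ x.length) : fld C.sh (C.sS x) j = tot (x.take j) := by
  rw [fld_eq, k.sS_eq, pow_mul]
  refine pk_digit (f := fun j => tot (x.take j)) (fun i _ => ?_) (by omega)
  rw [k.hsh]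
  exact tot_lt (fun c hc => hx c (List.mem_of_mem_take hc))
    (lt_of_le_of_lt (List.length_take_le' _ _) hl)

lemma fld_gt {x : List ℕ} (hx : ∀ c ∈ x, c < C.K) (hl : x.length < 256) {j : ℕ}
    (hj : x.length < j) : fld C.sh (C.sS x) j = 0 := by
  rw [fld_eq, k.sS_eq, pow_mul]
  have h1 : pk (2 ^ C.sh) (x.length + 1) (fun j => tot (x.take j))
      < (2 ^ C.sh) ^ (x.length + 1) := by
    refine pk_lt fun i _ => ?_
    rw [k.hsh]
    exact tot_lt (fun c hc => hx c (List.mem_of_mem_take hc))
      (lt_of_le_of_lt (List.length_take_le' _ _) hl)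
  have h2 : (2 ^ C.sh) ^ (x.length + 1) ≤ (2 ^ C.sh) ^ j :=
    Nat.pow_le_pow_right (by positivity) hj
  rw [Nat.div_eq_of_lt (lt_of_lt_of_le h1 h2)]
  rfl

lemma tst_eq {S p l : ℕ} :
    C.tst S (Nat.shiftRight S (Nat.mul C.sh p))
      (Nat.land (Nat.shiftRight S (Nat.mul C.sh p)) C.M) l = true ↔
    (fld C.sh S l + fld C.sh S p) % 2 ^ C.sh = fld C.sh S (p + l) := by
  have hfl : ∀ j, fld C.sh S j = (S >>> (C.sh * j)) % 2 ^ C.sh := fun j => by
    rw [fld_eq, Nat.shiftRight_eq_div_pow]
  have e : ∀ X, Nat.land X C.M = X % 2 ^ C.sh := fun X => by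
    rw [k.hM]; exact Nat.and_two_pow_sub_one_eq_mod X C.sh
  have h1 : Nat.shiftRight (Nat.shiftRight S (Nat.mul C.sh p)) (Nat.mul C.sh l)
      = S >>> (C.sh * (p + l)) := by
    show (S >>> (C.sh * p)) >>> (C.sh * l) = _
    rw [← Nat.shiftRight_add, mul_add]
  unfold Cfg.tst
  rw [e, e, e, h1, hfl (p + l), hfl p, hfl l]
  constructor
  · intro h
    have h := Nat.eq_of_beq_eq_true h
    rw [← h]
    show ((S >>> (C.sh * l)) % 2 ^ C.sh + (S >>> (C.sh * p)) % 2 ^ C.sh) % 2 ^ C.sh
      = ((S >>> (C.sh * l)) + (S >>> (C.sh * p)) % 2 ^ C.sh) % 2 ^ C.sh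
    rw [Nat.mod_add_mod]
  · intro h
    have h2 : Nat.add (Nat.shiftRight S (Nat.mul C.sh l)) (Nat.shiftRight S (Nat.mul C.sh p)
        % 2 ^ C.sh) % 2 ^ C.sh = (S >>> (C.sh * (p + l))) % 2 ^ C.sh := by
      rw [← h]
      show ((S >>> (C.sh * l)) + (S >>> (C.sh * p)) % 2 ^ C.sh) % 2 ^ C.sh
        = ((S >>> (C.sh * l)) % 2 ^ C.sh + (S >>> (C.sh * p)) % 2 ^ C.sh) % 2 ^ C.sh
      rw [Nat.mod_add_mod]
    rw [h2]
    exact Nat.beq_refl _

lemma dead_spec {x : List ℕ} (hx : ∀ c ∈ x, c < C.K) (hl : x.length < 128)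
    (h : C.dead (C.sS x) x.length = true) :
    ∃ p l, 1 ≤ l ∧ l ≤ p ∧ p + l ≤ x.length ∧ a1 * p ≤ den * l ∧
      (x.take l).Perm ((x.drop p).take l) := by
  have key : ∀ ps : List Ent, (∀ e ∈ ps, ∀ l ∈ e.ls, 1 ≤ l ∧ l ≤ e.p ∧ e.p ≤ e.thr ∧
      a1 * e.p ≤ den * l) →
      List.rec (motive := fun _ => Bool) false
        (fun e _ ih => band (Nat.ble e.thr x.length)
          (bor (anyL e.ls fun l => C.tst (C.sS x) (Nat.shiftRight (C.sS x) (Nat.mul C.sh e.p))
            (Nat.land (Nat.shiftRight (C.sS x) (Nat.mul C.sh e.p)) C.M) l) ih)) ps = true →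
      ∃ p l, 1 ≤ l ∧ l ≤ p ∧ p ≤ x.length ∧ a1 * p ≤ den * l ∧
        (fld C.sh (C.sS x) l + fld C.sh (C.sS x) p) % 2 ^ C.sh = fld C.sh (C.sS x) (p + l) := by
    intro ps
    induction ps with
    | nil => intro _ h; exact Bool.noConfusion h
    | cons e ps ih =>
      intro hv h
      have h : band (Nat.ble e.thr x.length)
          (bor (anyL e.ls fun l => C.tst (C.sS x) (Nat.shiftRight (C.sS x) (Nat.mul C.sh e.p))
            (Nat.land (Nat.shiftRight (C.sS x) (Nat.mul C.sh e.p)) C.M) l)
          (List.rec (motive := fun _ => Bool) false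
        (fun e _ ih => band (Nat.ble e.thr x.length)
          (bor (anyL e.ls fun l => C.tst (C.sS x) (Nat.shiftRight (C.sS x) (Nat.mul C.sh e.p))
            (Nat.land (Nat.shiftRight (C.sS x) (Nat.mul C.sh e.p)) C.M) l) ih)) ps)) = true := h
      rw [band_eq, bor_eq, anyL_eq] at h
      rcases h with ⟨h1, ⟨l, hl, h2⟩ | h2⟩
      · obtain ⟨v1, v2, v3, v4⟩ := hv e (by simp) l hl
        have h1 : e.thr ≤ x.length := Nat.le_of_ble_eq_true h1
        exact ⟨e.p, l, v1, v2, v3.trans h1, v4, k.tst_eq.mp h2⟩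
      · exact ih (fun e' he' => hv e' (by simp [he'])) h2
  obtain ⟨p, l, h1, h2, h3, h4, h5⟩ := key C.prs k.hprs h
  have hxl : x.length < 256 := by omega
  rw [k.fld_le hx hxl (h2.trans h3), k.fld_le hx hxl h3] at h5
  have hmemt : ∀ j, ∀ c ∈ x.take j, c < C.K := fun j c hc => hx c (List.mem_of_mem_take hc)
  have hmemd : ∀ c ∈ (x.drop p).take l, c < C.K := fun c hc =>
    hx c (List.mem_of_mem_drop (List.mem_of_mem_take hc))
  have hsum : tot (x.take l) + tot (x.take p) < 2 ^ C.sh := by
    rw [← tot_append, k.hsh]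
    apply tot_lt
    · intro c hc
      rcases List.mem_append.mp hc with hc | hc
      · exact hmemt l c hc
      · exact hmemt p c hc
    · rw [List.length_append, List.length_take, List.length_take]; omega
  rw [Nat.mod_eq_of_lt hsum] at h5
  by_cases hpl : p + l ≤ x.length
  · refine ⟨p, l, h1, h2, hpl, h4, ?_⟩
    rw [k.fld_le hx hxl hpl, List.take_add, tot_append, add_comm] at h5
    apply perm_of_tot (hmemt l) hmemd
    · rw [List.length_take]; omega
    · rw [List.length_take]; omega
    · omega
  · exfalso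
    rw [k.fld_gt hx hxl (by omega)] at h5
    have := tot_pos (x := x.take p) (by rw [List.length_take]; omega)
    omega

lemma not_good {x : List ℕ} (hx : ∀ c ∈ x, c < C.K) (hl : x.length < 128)
    (h : C.dead (C.sS x) x.length = true) : ¬ Gd C.K a1 den x := by
  obtain ⟨p, l, h1, h2, h3, h4, h5⟩ := k.dead_spec hx hl h
  intro hG
  apply hG.2 (x.take l) ((x.drop l).take (p - l)) ((x.drop p).take l)
  · have : x.take l ++ (x.drop l).take (p - l) ++ (x.drop p).take l = x.take (p + l) := by
      rw [List.take_add, ← List.take_add, Nat.add_sub_cancel' h2]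
    rw [this]
    exact List.IsPrefix.isInfix (List.take_prefix _ _)
  · exact h5
  · intro h0
    have := congrArg List.length h0
    rw [List.length_take, List.length_nil] at this
    omega
  · rw [List.length_take, List.length_take, List.length_drop, Nat.min_eq_left (by omega),
      Nat.min_eq_left (by omega), Nat.add_sub_cancel' h2]
    exact h4

end Ok

/-- the table is valid -/
def Valid (C : Cfg) (a1 den B : ℕ) : Prop :=
  ∀ y : List ℕ, y.length = C.wl → (∀ c ∈ y, c < C.K) → bitN B (C.code y) = true →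
    ¬ E C.K a1 den y

namespace Ok

variable {C : Cfg} {a1 den : ℕ} (k : Ok C a1 den)
include k

lemma letters_b {x : List ℕ} (hx : ∀ c ∈ x, c < C.K) : ∀ c ∈ x, c < 2 ^ C.b :=
  fun c hc => lt_of_lt_of_le (hx c hc) k.hb

lemma stop_spec {B : ℕ} (hB : Valid C a1 den B) {x : List ℕ} (hx : ∀ c ∈ x, c < C.K)
    (hl : x.length < 128) (h : C.stop B (C.code x) (C.sS x) x.length = true) :
    ¬ E C.K a1 den x := by
  unfold Cfg.stop at h
  rw [bor_eq] at h
  rcases h with h | h
  · unfold Cfg.win at h
    rw [band_eq] at h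
    have h1 : C.wl ≤ x.length := Nat.le_of_ble_eq_true h.1
    have h2 : Nat.land (C.code x) (Nat.sub (Nat.pow 2 (Nat.mul C.b C.wl)) 1)
        = C.code (x.take C.wl) := by
      rw [← C.code_mod (k.letters_b hx)]
      exact Nat.and_two_pow_sub_one_eq_mod _ _
    have h3 := h.2
    rw [h2] at h3
    intro hE
    exact hB (x.take C.wl) (by rw [List.length_take]; omega)
      (fun c hc => hx c (List.mem_of_mem_take hc)) h3
      (hE.fac (List.IsPrefix.isInfix (List.take_prefix _ _)))
  · exact fun hE => k.not_good hx hl h hE.good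

lemma srch_sound {B : ℕ} (hB : Valid C a1 den B) (fuel : ℕ) : ∀ (x : List ℕ) (u : ℕ),
    (∀ c ∈ x, c < u) → u ≤ C.K → x.length + fuel < 128 →
    C.srch B fuel (C.code x) (C.code x.reverse) (C.sS x) (C.sS x.reverse) (tot x) x.length u
      = true → ¬ E C.K a1 den x := by
  induction fuel with
  | zero => intro x u _ _ _ h; exact Bool.noConfusion h
  | succ f ih =>
    intro x u hxu huK hlen h hE
    -- one more letter
    obtain ⟨c, hcK, hcu, hEc⟩ : ∃ c, c < C.K ∧ c ≤ u ∧ E C.K a1 den (c :: x) := by
      obtain ⟨c, hc, hEc⟩ := hE.cons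
      by_cases hcu : c ≤ u
      · exact ⟨c, hc, hcu, hEc⟩
      · push Not at hcu
        exact ⟨u, by omega, le_rfl, hEc.canon hc hxu hcu.le⟩
    have h : allN (bite (Nat.ble (Nat.add u 1) C.K) (Nat.add u 1) C.K) (fun c =>
        bor (C.stop B (Nat.add (Nat.mul (Nat.pow 2 C.b) (C.code x)) c)
          (C.nS (C.sS x) x.length c) (Nat.add x.length 1))
          (C.srch B f (Nat.add (C.code x.reverse) (Nat.mul c (Nat.pow 2 (Nat.mul C.b x.length))))
            (Nat.add (Nat.mul (Nat.pow 2 C.b) (C.code x)) c)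
            (C.nP (C.sS x.reverse) (Nat.add (tot x) (Nat.pow 2 (Nat.mul 8 c))) x.length)
            (C.nS (C.sS x) x.length c) (Nat.add (tot x) (Nat.pow 2 (Nat.mul 8 c)))
            (Nat.add x.length 1)
            (bite (Nat.ble (Nat.add c 1) u) u (Nat.add c 1)))) = true := h
    have hbound : c < bite (Nat.ble (Nat.add u 1) C.K) (Nat.add u 1) C.K := by
      cases Nat.ble (Nat.add u 1) C.K with
      | true => rw [bite_true]; show c < u + 1; omega
      | false => rw [bite_false]; exact hcK
    have hc := allN_eq.mp h c hbound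
    rw [bor_eq] at hc
    have hx' : ∀ a ∈ c :: x, a < C.K := by
      intro a ha
      rcases List.mem_cons.mp ha with h1 | h1
      · omega
      · have := hxu a h1; omega
    rcases hc with hc | hc
    · exact k.stop_spec hB (x := c :: x) hx' (by rw [List.length_cons]; omega) hc hEc
    · -- recursion on the reverse
      have hrev : (c :: x).reverse = x.reverse ++ [c] := List.reverse_cons
      have e1 : C.code (c :: x).reverse
          = Nat.add (C.code x.reverse) (Nat.mul c (Nat.pow 2 (Nat.mul C.b x.length))) := by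
        rw [hrev, C.code_append_one, List.length_reverse]; rfl
      have e2 : C.sS (c :: x).reverse
          = C.nP (C.sS x.reverse) (Nat.add (tot x) (Nat.pow 2 (Nat.mul 8 c))) x.length := by
        rw [hrev, k.sS_append, List.length_reverse]
        have h1 : tot (x.reverse ++ [c]) = tot x + 2 ^ (8 * c) := by
          have hrr : ∀ y : List ℕ, tot y.reverse = tot y := by
            intro y
            induction y with
            | nil => rfl
            | cons a y ih => rw [List.reverse_cons, tot_append, ih, tot_cons, tot_cons, tot_nil,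
                zero_add]
          rw [tot_append, hrr, tot_cons, tot_nil, zero_add]
        rw [h1]
        show _ = C.sS x.reverse + (tot x + 2 ^ (8 * c)) <<< (C.sh * (x.length + 1))
        rw [Nat.shiftLeft_eq, pow_mul 2 C.sh (x.length + 1)]
      have e3 : tot (c :: x).reverse = Nat.add (tot x) (Nat.pow 2 (Nat.mul 8 c)) := by
        have hrr : ∀ y : List ℕ, tot y.reverse = tot y := by
          intro y
          induction y with
          | nil => rfl
          | cons a y ih => rw [List.reverse_cons, tot_append, ih, tot_cons, tot_cons, tot_nil,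
              zero_add]
        rw [hrr]; rfl
      have e4 : (c :: x).reverse.length = Nat.add x.length 1 := by
        rw [List.length_reverse]; rfl
      have := ih (c :: x).reverse (bite (Nat.ble (Nat.add c 1) u) u (Nat.add c 1)) ?_ ?_ ?_ ?_
      · exact this hEc.reverse
      · intro a ha
        have ha := List.mem_reverse.mp ha
        cases hb : Nat.ble (Nat.add c 1) u with
        | true =>
          rw [bite_true]
          have h1 : c + 1 ≤ u := Nat.le_of_ble_eq_true hb
          rcases List.mem_cons.mp ha with h2 | h2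
          · omega
          · exact hxu a h2
        | false =>
          rw [bite_false]
          have h1 : ¬ c + 1 ≤ u := fun h1 => by
            have := Nat.ble_eq_true_of_le h1
            have hb' : Nat.ble (c + 1) u = false := hb
            rw [this] at hb'
            exact Bool.noConfusion hb'
          show a < c + 1
          rcases List.mem_cons.mp ha with h2 | h2
          · omega
          · have := hxu a h2; omega
      · cases hb : Nat.ble (Nat.add c 1) u with
        | true => rw [bite_true]; exact huK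
        | false => rw [bite_false]; exact hcK
      · rw [List.length_reverse, List.length_cons]; omega
      · rw [List.reverse_reverse, e1, e2, e3, e4]
        exact hc

lemma go_sound {B : ℕ} (hB : Valid C a1 den B) {fuel : ℕ} {x y : List ℕ} {u : ℕ}
    (hy : y = x.reverse) (hxu : ∀ c ∈ x, c < u) (huK : u ≤ C.K) (hl : x.length + fuel < 128)
    (h : C.go B fuel x y u = true) : ¬ E C.K a1 den x := by
  subst hy
  exact k.srch_sound hB fuel x u hxu huK hl h

lemma valid_zero : Valid C a1 den 0 := by
  intro y _ _ h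
  rw [bitN_iff, Nat.zero_testBit] at h
  exact Bool.noConfusion h

lemma valid_or {A B : ℕ} (hA : Valid C a1 den A) (hB : Valid C a1 den B) :
    Valid C a1 den (Nat.lor A B) := by
  intro y hy hyK h
  rw [bitN_iff] at h
  have h : (A ||| B).testBit (C.code y) = true := h
  rw [Nat.testBit_or, Bool.or_eq_true] at h
  rcases h with h | h
  · exact hA y hy hyK (bitN_iff.mpr h)
  · exact hB y hy hyK (bitN_iff.mpr h)

lemma valid_mask {ps : List (List ℕ)} (hps : ∀ q ∈ ps, (∀ c < C.K, ∃ a < C.K, nthD 0 q a = c) ∧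
      ∀ a < C.K, nthD 0 q a < C.K)
    {x : List ℕ} (hxl : x.length = C.wl) (hx : ∀ c ∈ x, c < C.K) (hE : ¬ E C.K a1 den x) :
    Valid C a1 den (C.mask ps x) := by
  induction ps with
  | nil => exact k.valid_zero
  | cons q ps ih =>
    have : C.mask (q :: ps) x = Nat.lor (C.mask ps x)
      (Nat.pow 2 (C.code (x.map fun a => nthD 0 q a))) := rfl
    rw [this]
    apply k.valid_or (ih fun q' hq' => hps q' (by simp [hq']))
    intro y hy hyK h hEy
    rw [bitN_iff] at h
    have h : (2 ^ (C.code (x.map fun a => nthD 0 q a))).testBit (C.code y) = true := h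
    rw [Nat.testBit_two_pow, decide_eq_true_eq] at h
    obtain ⟨hq1, hq2⟩ := hps q (by simp)
    have hxy : y = x.map fun a => nthD 0 q a := by
      apply C.code_inj (k.letters_b hyK) _ (by rw [hy, List.length_map, hxl]) h.symm
      intro c hc
      obtain ⟨a, ha, rfl⟩ := List.mem_map.mp hc
      exact lt_of_lt_of_le (hq2 a (hx a ha)) k.hb
    rw [hxy] at hEy
    exact hE (hEy.pull hq1 hx)

/-- one lemma: a factor that is not extendable -/
theorem step {B B' fuel u : ℕ} {x y : List ℕ} {ps : List (List ℕ)} (hB : Valid C a1 den B)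
    (hgo : C.go B fuel x y u = true) (hy : y = x.reverse) (hxl : x.length = C.wl)
    (hxu : ∀ c ∈ x, c < u) (huK : u ≤ C.K) (hl : x.length + fuel < 128)
    (hps : ∀ q ∈ ps, (∀ c < C.K, ∃ a < C.K, nthD 0 q a = c) ∧ ∀ a < C.K, nthD 0 q a < C.K)
    (hB' : B' = Nat.lor B (Nat.lor (C.mask ps x) (C.mask ps y))) : Valid C a1 den B' := by
  have hE := k.go_sound hB hy hxu huK hl hgo
  have hxK : ∀ c ∈ x, c < C.K := fun c hc => lt_of_lt_of_le (hxu c hc) huK
  rw [hB']
  refine k.valid_or hB (k.valid_or (k.valid_mask hps hxl hxK hE) (k.valid_mask hps ?_ ?_ ?_))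
  · rw [hy, List.length_reverse, hxl]
  · intro c hc; rw [hy] at hc; exact hxK c (List.mem_reverse.mp hc)
  · intro h; rw [hy] at h
    apply hE
    have := h.reverse
    rwa [List.reverse_reverse] at this

end Ok

end CycAb.Low
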