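import Pool.Agent.Lib.CycAb.Kern
import Pool.Agent.Lib.CycAb.Ind

/-!
Meaning of the kernel-side functions.
-/

namespace CycAb

open Finset

lemma band_eq {a b : Bool} : band a b = true ↔ a = true ∧ b = true := by
  cases a <;> cases b <;> simp [band]

lemma bor_eq {a b : Bool} : bor a b = true ↔ a = true ∨ b = true := by
  cases a <;> cases b <;> simp [bor]

lemma bite_true {α : Type} (a b : α) : bite true a b = a := rfl
lemma bite_false {α : Type} (a b : α) : bite false a b = b := rfl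

lemma Tr.find_nil (x : ℕ) : Tr.find .nil x = none := rfl

lemma Tr.find_node (l : Tr) (key : ℕ) (v : List ℕ) (r : Tr) (x : ℕ) :
    Tr.find (.node l key v r) x
      = bite (Nat.beq x key) (some v) (bite (Nat.ble x key) (l.find x) (r.find x)) := rfl

lemma Tr.all_node (l : Tr) (key : ℕ) (v : List ℕ) (r : Tr) (f : ℕ → List ℕ → Bool) :
    Tr.all (.node l key v r) f = band (f key v) (band (l.all f) (r.all f)) := rfl

lemma Tr.find_all {f : ℕ → List ℕ → Bool} {x : ℕ} {v : List ℕ} :
    ∀ {t : Tr}, t.all f = true → t.find x = some v → f x v = true := by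
  intro t
  induction t with
  | nil => intro _ h; simp [Tr.find_nil] at h
  | node l key v' r ihl ihr =>
    intro h1 h2
    rw [Tr.all_node, band_eq, band_eq] at h1
    rw [Tr.find_node] at h2
    cases hb : Nat.beq x key with
    | true =>
      rw [hb, bite_true] at h2
      have : x = key := Nat.eq_of_beq_eq_true hb
      subst this
      cases h2
      exact h1.1
    | false =>
      rw [hb, bite_false] at h2
      cases hc : Nat.ble x key with
      | true => rw [hc, bite_true] at h2; exact ihl h1.2.1 h2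
      | false => rw [hc, bite_false] at h2; exact ihr h1.2.2 h2

theorem all_mk {l r : Tr} {key : ℕ} {v : List ℕ} {f : ℕ → List ℕ → Bool} (h : f key v = true)
    (hl : l.all f = true) (hr : r.all f = true) : (Tr.node l key v r).all f = true := by
  rw [Tr.all_node, band_eq, band_eq]; exact ⟨h, hl, hr⟩

lemma onSome_eq {o : Option (List ℕ)} {f : List ℕ → Bool} :
    onSome o f = true ↔ ∃ l, o = some l ∧ f l = true := by
  cases o with
  | none => simp [onSome]
  | some l => simp [onSome]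

lemma allN_succ (n : ℕ) (f : ℕ → Bool) : allN (n + 1) f = band (f n) (allN n f) := rfl

lemma allN_eq {n : ℕ} {f : ℕ → Bool} : allN n f = true ↔ ∀ i < n, f i = true := by
  induction n with
  | zero => simp [allN]
  | succ n ih =>
    rw [allN_succ, band_eq, ih]
    constructor
    · rintro ⟨h1, h2⟩ i hi
      rcases Nat.lt_succ_iff_lt_or_eq.mp hi with h | h
      · exact h2 i h
      · exact h ▸ h1
    · intro h
      exact ⟨h n (Nat.lt_succ_self n), fun i hi => h i (Nat.lt_succ_of_lt hi)⟩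

lemma sumN_eq (n : ℕ) (f : ℕ → ℕ) : sumN n f = ∑ i ∈ range n, f i := by
  induction n with
  | zero => simp [sumN]
  | succ n ih => rw [Finset.sum_range_succ, ← ih]; rfl

lemma allL_eq {l : List ℕ} {f : ℕ → Bool} : allL l f = true ↔ ∀ x ∈ l, f x = true := by
  induction l with
  | nil => simp [allL]
  | cons a l ih =>
    have : allL (a :: l) f = band (f a) (allL l f) := rfl
    rw [this, band_eq, ih]
    simp

lemma memL_eq {x : ℕ} {l : List ℕ} : memL x l = true ↔ x ∈ l := by
  induction l with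
  | nil => simp [memL]
  | cons a l ih =>
    have : memL x (a :: l) = bor (Nat.beq a x) (memL x l) := rfl
    rw [this, bor_eq, ih, List.mem_cons]
    constructor
    · rintro (h | h)
      · exact Or.inl (Nat.eq_of_beq_eq_true h).symm
      · exact Or.inr h
    · rintro (h | h)
      · left; rw [h]; exact Nat.beq_refl a
      · exact Or.inr h

lemma fld_eq (w X i : ℕ) : fld w X i = X / 2 ^ (w * i) % 2 ^ w := by
  unfold fld
  show (X >>> (w * i)) &&& (2 ^ w - 1) = _
  rw [Nat.and_two_pow_sub_one_eq_mod, Nat.shiftRight_eq_div_pow]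

lemma fld_lt (w X i : ℕ) : fld w X i < 2 ^ w := by
  rw [fld_eq]; exact Nat.mod_lt _ (by positivity)

/-- packing of natural numbers in base `B` -/
def pk (B n : ℕ) (f : ℕ → ℕ) : ℕ := ∑ i ∈ range n, f i * B ^ i

lemma pk_succ (B n : ℕ) (f : ℕ → ℕ) : pk B (n + 1) f = pk B n f + f n * B ^ n := by
  unfold pk; rw [Finset.sum_range_succ]

lemma pk_lt {B n : ℕ} {f : ℕ → ℕ} (hf : ∀ i < n, f i < B) : pk B n f < B ^ n := by
  induction n with
  | zero => simp [pk]
  | succ n ih =>
    rw [pk_succ, pow_succ]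
    have h1 := ih fun i hi => hf i (Nat.lt_succ_of_lt hi)
    have h2 := hf n (Nat.lt_succ_self n)
    have h3 : f n * B ^ n ≤ (B - 1) * B ^ n := Nat.mul_le_mul_right _ (by omega)
    have h4 : (B - 1) * B ^ n + B ^ n = B ^ n * B := by
      rw [← Nat.succ_mul, Nat.succ_eq_add_one, Nat.sub_add_cancel (by omega), mul_comm]
    omega

lemma pk_add (B a b : ℕ) (f : ℕ → ℕ) :
    pk B (a + b) f = pk B a f + B ^ a * pk B b (fun i => f (a + i)) := by
  unfold pk
  rw [Finset.sum_range_add, Finset.mul_sum]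
  congr 1
  refine Finset.sum_congr rfl fun i _ => ?_
  rw [pow_add]; ring

lemma pk_digit {B n : ℕ} {f : ℕ → ℕ} (hf : ∀ i < n, f i < B) {t : ℕ} (ht : t < n) :
    pk B n f / B ^ t % B = f t := by
  have hB : 0 < B := lt_of_le_of_lt (Nat.zero_le _) (hf t ht)
  obtain ⟨b, rfl⟩ := Nat.exists_eq_add_of_lt ht
  rw [show t + b + 1 = t + (b + 1) by ring, pk_add]
  rw [Nat.add_mul_div_left _ _ (pow_pos hB t),
    Nat.div_eq_of_lt (pk_lt fun i hi => hf i (by omega)), zero_add]
  rw [show b + 1 = 1 + b by ring, pk_add]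
  simp only [pk, Finset.sum_range_one, pow_zero, mul_one, pow_one]
  rw [Nat.add_mul_mod_self_left, Nat.mod_eq_of_lt (hf _ (by omega))]
  rfl

/-- packing of integer valued functions on `ZMod k` in base `2 ^ 24` -/
def PK (k : ℕ) (f : ZMod k → ℤ) : ℤ := ∑ t ∈ range k, f (t : ZMod k) * (2 ^ 24) ^ t

lemma PK_add (k : ℕ) (f g : ZMod k → ℤ) : PK k (fun t => f t + g t) = PK k f + PK k g := by
  unfold PK; rw [← Finset.sum_add_distrib]
  exact Finset.sum_congr rfl fun t _ => by ring

lemma PK_sub (k : ℕ) (f g : ZMod k → ℤ) : PK k (fun t => f t - g t) = PK k f - PK k g := by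
  unfold PK; rw [← Finset.sum_sub_distrib]
  exact Finset.sum_congr rfl fun t _ => by ring

lemma PK_smul (k : ℕ) (c : ℤ) (f : ZMod k → ℤ) : PK k (fun t => c * f t) = c * PK k f := by
  unfold PK; rw [Finset.mul_sum]
  exact Finset.sum_congr rfl fun t _ => by ring

lemma PK_sum {ι : Type*} (s : Finset ι) (k : ℕ) (f : ι → ZMod k → ℤ) :
    PK k (fun t => ∑ i ∈ s, f i t) = ∑ i ∈ s, PK k (f i) := by
  unfold PK; rw [Finset.sum_comm]
  exact Finset.sum_congr rfl fun t _ => by rw [Finset.sum_mul]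

lemma PK_nonneg {k : ℕ} {f : ZMod k → ℤ} (hf : ∀ t, 0 ≤ f t) : 0 ≤ PK k f := by
  unfold PK; exact Finset.sum_nonneg fun t _ => mul_nonneg (hf _) (by positivity)

lemma PK_eq_pk {k : ℕ} {f : ZMod k → ℤ} (hf : ∀ t, 0 ≤ f t) :
    PK k f = (pk (2 ^ 24) k fun t => (f (t : ZMod k)).toNat : ℕ) := by
  unfold PK pk
  push_cast
  refine Finset.sum_congr rfl fun t _ => ?_
  rw [Int.toNat_of_nonneg (hf _)]

/-- fields of a packed number -/
lemma fld_PK {k : ℕ} {f : ZMod k → ℤ} (hf : ∀ t, 0 ≤ f t) (hf' : ∀ t, f t < 2 ^ 24) {X : ℕ}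
    (hX : (X : ℤ) = PK k f) {t : ℕ} (ht : t < k) : (fld 24 X t : ℤ) = f (t : ZMod k) := by
  rw [PK_eq_pk hf] at hX
  have hX' : X = pk (2 ^ 24) k fun t => (f (t : ZMod k)).toNat := by exact_mod_cast hX
  rw [fld_eq, hX', pow_mul, pk_digit (fun i _ => by have := hf' (i : ZMod k); have := hf (i : ZMod k); omega) ht,
    Int.toNat_of_nonneg (hf _)]

lemma rot_pk (P : Par) {k : ℕ} (hk : P.k = k) {g : ℕ → ℕ} (hg : ∀ i < k, g i < 2 ^ 24) {j : ℕ}
    (hj : j < k) :
    P.rot (pk (2 ^ 24) k g) j = pk (2 ^ 24) k fun t => g ((t + (k - j)) % k) := by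
  obtain ⟨c, hc⟩ := Nat.exists_eq_add_of_lt hj
  have hkc : k = (c + 1) + j := by omega
  set B := 2 ^ 24 with hB
  have hBpos : 0 < B := by positivity
  set X := pk B k g with hX
  have hX1 : X = pk B (c + 1) g + B ^ (c + 1) * pk B j (fun i => g (c + 1 + i)) := by
    rw [hX, hkc, pk_add]
  have hL := pk_lt (B := B) (n := c + 1) (f := g) fun i hi => hg i (by omega)
  have e1 : P.rot X j = X * B ^ j % B ^ k + X / B ^ (c + 1) := by
    unfold Par.rot
    have : k - j = c + 1 := by omega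
    rw [hk, hB, ← pow_mul, ← pow_mul, ← pow_mul, ← this]
    show ((X <<< (24 * j)) &&& (2 ^ (24 * k) - 1)) + X >>> (24 * (k - j)) = _
    rw [Nat.and_two_pow_sub_one_eq_mod, Nat.shiftLeft_eq, Nat.shiftRight_eq_div_pow]
  have e2 : X / B ^ (c + 1) = pk B j (fun i => g (c + 1 + i)) := by
    rw [hX1, Nat.add_mul_div_left _ _ (pow_pos hBpos _), Nat.div_eq_of_lt hL, zero_add]
  have e3 : X * B ^ j % B ^ k = pk B (c + 1) g * B ^ j := by
    rw [hkc, hX1, add_mul, show B ^ (c + 1) * pk B j (fun i => g (c + 1 + i)) * B ^ j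
      = B ^ (c + 1 + j) * pk B j (fun i => g (c + 1 + i)) by rw [pow_add]; ring,
      Nat.add_mul_mod_self_left, Nat.mod_eq_of_lt]
    rw [pow_add]
    exact Nat.mul_lt_mul_of_pos_right hL (pow_pos hBpos _)
  rw [e1, e2, e3]
  have hkj : k = j + (c + 1) := by omega
  conv_rhs => rw [hkj, pk_add]
  rw [add_comm, mul_comm]
  congr 1
  · unfold pk
    refine Finset.sum_congr rfl fun i hi => ?_
    have hi := Finset.mem_range.mp hi
    congr 1
    show g (c + 1 + i) = g ((i + (j + (c + 1) - j)) % (j + (c + 1)))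
    rw [Nat.mod_eq_of_lt (by omega)]
    congr 1
    omega
  · congr 1
    unfold pk
    refine Finset.sum_congr rfl fun i hi => ?_
    have hi := Finset.mem_range.mp hi
    congr 1
    show g i = g ((j + i + (j + (c + 1) - j)) % (j + (c + 1)))
    rw [show j + i + (j + (c + 1) - j) = i + (j + (c + 1)) by omega, Nat.add_mod_right,
      Nat.mod_eq_of_lt (by omega)]

lemma rot_eq {k : ℕ} [NeZero k] {f : ZMod k → ℤ} (hf : ∀ t, 0 ≤ f t) (hf' : ∀ t, f t < 2 ^ 24)
    (P : Par) (hk : P.k = k) {X : ℕ} (hX : (X : ℤ) = PK k f) {j : ℕ} (hj : j < k) :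
    (P.rot X j : ℤ) = PK k (fun t => f (t - (j : ZMod k))) := by
  rw [PK_eq_pk hf] at hX
  rw [PK_eq_pk fun t => hf _]
  have hX' : X = pk (2 ^ 24) k fun t => (f (t : ZMod k)).toNat := by exact_mod_cast hX
  rw [hX', rot_pk P hk (fun i _ => by
    have := hf' (i : ZMod k); have := hf (i : ZMod k); omega) hj]
  congr 1
  unfold pk
  refine Finset.sum_congr rfl fun t _ => ?_
  have : (((t + (k - j)) % k : ℕ) : ZMod k) = (t : ZMod k) - (j : ZMod k) := by
    rw [ZMod.natCast_mod, Nat.cast_add, Nat.cast_sub hj.le, ZMod.natCast_self]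
    ring
  simp only [this]

end CycAb
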