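import Pool.Agent.Lib.CycAb.Sound1
import Pool.Agent.Lib.CycAb.Chk

/-!
Consequences of the table checks.
-/

set_option linter.unusedSectionVars false

namespace CycAb

open Finset

/-- all kernel checks of an instance -/
structure Good (P : Par) : Prop where
  cnum : P.chkNum = true
  cH : P.chkH = true
  cnu : P.chkNu = true
  cchi : P.chkChi = true
  cF : P.chkF = true
  cB : P.chkB = true
  ctab : ∀ e < P.k, P.chkTab e = true
  czero : P.chkZero = true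
  crange : P.T.all P.chkRange = true
  cD : P.chkD = true
  csmall : ∀ d ∈ P.D, P.chkSmalls d = true
  cstate : P.T.all P.chkState = true

lemma sum_zmod {A : Type*} [AddCommMonoid A] {k : ℕ} [NeZero k] (f : ZMod k → A) :
    ∑ s, f s = ∑ s ∈ range k, f (s : ZMod k) := by
  refine Finset.sum_bij (fun s _ => s.val) (fun s _ => Finset.mem_range.mpr (ZMod.val_lt s))
    (fun a _ b _ hab => ZMod.val_injective k hab) (fun b hb => ⟨(b : ZMod k), Finset.mem_univ _,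
      ZMod.val_cast_of_lt (Finset.mem_range.mp hb)⟩) (fun s _ => by
        simp only [ZMod.natCast_val, ZMod.cast_id', id_eq])

namespace Good

variable {P : Par} [NeZero P.k]

/-- letters in `ZMod k` -/
def hZ (P : Par) : ℕ → ZMod P.k := fun r => (P.h r : ZMod P.k)

/-- the inverse vector -/
def nuZ (P : Par) : ZMod P.k → ℤ := fun t => (P.np t.val : ℤ) - P.lam

/-- the character -/
def chZ (P : Par) : ZMod P.k → ZMod P.Dl := fun t => (P.ch t.val : ZMod P.Dl)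

variable (g : Good P)
include g

lemma numD : 2 ≤ P.m ∧ P.m ≤ 64 ∧ 2 ≤ P.k ∧ P.k ≤ 8 ∧ 2 ≤ P.Dl ∧ 1 ≤ P.dl ∧ 32 * P.dl < 2 ^ 24 ∧
    P.h 0 = 0 ∧ P.lam < 2 ^ 24 ∧ 2 ≤ P.P0 ∧ P.P0 ≤ 16 ∧ P.P0 ≤ P.P2 ∧ 2 * P.P0 ≤ P.m + 1 ∧
    1 ≤ P.den ∧ P.a1 ≤ P.den ∧ 17 * P.den < 4096 := by
  have := g.cnum; unfold Par.chkNum at this; exact of_decide_eq_true this

lemma h_lt {r : ℕ} (hr : r < P.m) : P.h r < P.k := by
  have := g.cH; unfold Par.chkH at this
  exact of_decide_eq_true (allN_eq.mp this r hr)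

lemma hZ_zero : hZ P 0 = 0 := by
  unfold hZ; rw [g.numD.2.2.2.2.2.2.2.1]; simp

lemma cast_sub_h {a r : ℕ} (hr : r < P.m) :
    (((a + P.k - P.h r) % P.k : ℕ) : ZMod P.k) = (a : ZMod P.k) - hZ P r := by
  have := g.h_lt hr
  rw [ZMod.natCast_mod, Nat.cast_sub (by omega), Nat.cast_add, ZMod.natCast_self, add_zero]
  rfl

lemma nu_eq {a : ℕ} (ha : a < P.k) : nuZ P (a : ZMod P.k) = (P.np a : ℤ) - P.lam := by
  unfold nuZ; rw [ZMod.val_cast_of_lt ha]

lemma nu_sub {a r : ℕ} (hr : r < P.m) :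
    nuZ P ((a : ZMod P.k) - hZ P r) = (P.np ((a + P.k - P.h r) % P.k) : ℤ) - P.lam := by
  rw [← g.cast_sub_h hr, g.nu_eq (Nat.mod_lt _ (Nat.pos_of_ne_zero (NeZero.ne _)))]

lemma F0_eq {a r : ℕ} (hr : r ≤ P.m) :
    F0 (hZ P) (nuZ P) r (a : ZMod P.k)
      = ((∑ j ∈ range r, P.np ((a + P.k - P.h j) % P.k) : ℕ) : ℤ) - r * P.lam := by
  unfold F0
  rw [Finset.sum_congr rfl fun j hj => g.nu_sub (lt_of_lt_of_le (Finset.mem_range.mp hj) hr)]
  rw [Finset.sum_sub_distrib]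
  simp

lemma nuCh : (∀ t < P.k, (∑ r ∈ range P.m, P.np ((t + P.k - P.h r) % P.k))
      = P.m * P.lam + (if t = 0 then P.dl else 0)) ∧
    (∑ t ∈ range P.k, ((P.np t - P.lam) + (P.lam - P.np t))) ≤ P.dl ∧
    (∑ t ∈ range P.k, P.np t) = P.snu + P.k * P.lam ∧
    (∑ t ∈ range P.k, (2 ^ 24) ^ t) = P.one ∧
    (∑ t ∈ range P.k, P.np t * (2 ^ 24) ^ t) = P.NP := by
  have := g.cnu
  unfold Par.chkNu at this
  rw [band_eq] at this
  refine ⟨fun t ht => ?_, ?_⟩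
  · have h1 := of_decide_eq_true (allN_eq.mp this.1 t ht)
    rw [sumN_eq] at h1
    exact h1
  · have h1 := of_decide_eq_true this.2
    simpa only [sumN_eq] using h1

lemma hnu (t : ZMod P.k) : F0 (hZ P) (nuZ P) P.m t = if t = 0 then (P.dl : ℤ) else 0 := by
  have ht : ((t.val : ℕ) : ZMod P.k) = t := by simp
  rw [← ht, g.F0_eq le_rfl, g.nuCh.1 _ (ZMod.val_lt t)]
  by_cases h0 : t = 0
  · simp [h0]
  · have : t.val ≠ 0 := fun hv => h0 ((ZMod.val_eq_zero t).mp hv)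
    simp [h0, this]

lemma F0_bound {r : ℕ} (hr : r < P.m) (t : ZMod P.k) :
    -(3 * (P.dl : ℤ)) ≤ F0 (hZ P) (nuZ P) r t ∧ F0 (hZ P) (nuZ P) r t ≤ 3 * P.dl := by
  have ht : ((t.val : ℕ) : ZMod P.k) = t := by simp
  have hB := g.cB
  unfold Par.chkB at hB
  have := of_decide_eq_true (allN_eq.mp (allN_eq.mp hB r hr) _ (ZMod.val_lt t))
  rw [sumN_eq] at this
  rw [← ht, g.F0_eq hr.le]
  have h1 : ((r * P.lam : ℕ) : ℤ) ≤ ((3 * P.dl + ∑ j ∈ range r, P.np ((t.val + P.k - P.h j) % P.k) : ℕ) : ℤ) := by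
    exact_mod_cast this.1
  have h2 : ((∑ j ∈ range r, P.np ((t.val + P.k - P.h j) % P.k) : ℕ) : ℤ)
      ≤ ((3 * P.dl + r * P.lam : ℕ) : ℤ) := by
    exact_mod_cast this.2
  push_cast at h1 h2 ⊢
  constructor <;> linarith

lemma one_eq : (P.one : ℤ) = PK P.k (fun _ => 1) := by
  unfold PK
  rw [← g.nuCh.2.2.2.1]
  push_cast
  exact Finset.sum_congr rfl fun t _ => by ring

lemma const_eq (c : ℤ) : c * (P.one : ℤ) = PK P.k (fun _ => c) := by
  rw [g.one_eq, ← PK_smul]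
  simp

lemma NP_eq : (P.NP : ℤ) = PK P.k (fun t => nuZ P t + P.lam) := by
  unfold PK
  rw [← g.nuCh.2.2.2.2]
  push_cast
  refine Finset.sum_congr rfl fun t ht => ?_
  rw [g.nu_eq (Finset.mem_range.mp ht)]
  ring

lemma nu_lam_bound (t : ZMod P.k) : 0 ≤ nuZ P t + P.lam ∧ nuZ P t + P.lam < 2 ^ 24 := by
  unfold nuZ
  have : P.np t.val < 2 ^ 24 := fld_lt _ _ _
  constructor
  · have : (0 : ℤ) ≤ P.np t.val := by positivity
    linarith
  · have h2 : (P.np t.val : ℤ) < 2 ^ 24 := by exact_mod_cast this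
    linarith

lemma rotNP {j : ℕ} (hj : j < P.k) :
    (P.rot P.NP j : ℤ) = PK P.k (fun t => nuZ P (t - (j : ZMod P.k)) + P.lam) :=
  rot_eq (fun t => (g.nu_lam_bound t).1) (fun t => (g.nu_lam_bound t).2) P rfl g.NP_eq hj

lemma Ftab {s r : ℕ} (hs : s < P.k) (hr : r < P.m) :
    (P.F s r : ℤ) = PK P.k (fun t => F0 (hZ P) (nuZ P) r (t - (s : ZMod P.k)) + 3 * P.dl) := by
  have hF := g.cF
  unfold Par.chkF at hF
  have hF := allN_eq.mp hF s hs
  rw [band_eq, allN_eq] at hF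
  induction r with
  | zero =>
    rw [of_decide_eq_true hF.1]
    simp only [F0, Finset.range_zero, Finset.sum_empty, zero_add]
    rw [← g.const_eq]
    push_cast; ring
  | succ r ih =>
    have hst := of_decide_eq_true (hF.2 r (by omega))
    have ih := ih (by omega)
    have hrot := g.rotNP (j := (s + P.h r) % P.k) (Nat.mod_lt _ (Nat.pos_of_ne_zero (NeZero.ne _)))
    have hst' : (P.F s (r + 1) : ℤ) + P.lam * P.one
        = P.F s r + P.rot P.NP ((s + P.h r) % P.k) := by exact_mod_cast hst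
    have hc := g.const_eq (P.lam : ℤ)
    have : (P.F s (r + 1) : ℤ) = PK P.k (fun t =>
        (F0 (hZ P) (nuZ P) r (t - (s : ZMod P.k)) + 3 * P.dl)
        + (nuZ P (t - (((s + P.h r) % P.k : ℕ) : ZMod P.k)) + P.lam)) - PK P.k (fun _ => (P.lam : ℤ)) := by
      rw [PK_add, ← ih, ← hrot, ← hc]; linarith
    rw [this, ← PK_sub]
    congr 1
    funext t
    unfold F0
    rw [Finset.sum_range_succ, ZMod.natCast_mod, Nat.cast_add]
    have : t - ((s : ZMod P.k) + (P.h r : ZMod P.k)) = t - (s : ZMod P.k) - hZ P r := by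
      unfold hZ; ring
    rw [this]
    ring

/-! ### the character -/

lemma chiCh : (∀ a < P.k, ∀ b < P.k, (P.ch a * P.ch b) % P.Dl = P.ch ((a + b) % P.k)) ∧
    P.ch 0 = 1 ∧ (∑ r ∈ range P.m, P.ch (P.h r)) % P.Dl = 0 ∧
    ∀ r < P.m, P.Kv r = (P.ch ((P.k - P.h r) % P.k) * (∑ j ∈ range r, P.ch (P.h j))) % P.Dl := by
  have := g.cchi
  unfold Par.chkChi at this
  rw [band_eq, band_eq] at this
  refine ⟨fun a ha b hb => ?_, ?_, ?_, fun r hr => ?_⟩
  · exact of_decide_eq_true (allN_eq.mp (allN_eq.mp this.1 a ha) b hb)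
  · exact (of_decide_eq_true this.2.1).1
  · have h1 := (of_decide_eq_true this.2.1).2
    rw [sumN_eq] at h1
    exact h1
  · have h1 := of_decide_eq_true (allN_eq.mp this.2.2 r hr)
    rw [sumN_eq] at h1
    exact h1

lemma ch_lt {a : ℕ} (ha : a < P.k) : P.ch a < P.Dl := by
  have hk : 0 < P.k := Nat.pos_of_ne_zero (NeZero.ne _)
  have h1 := g.chiCh.1 a ha 0 hk
  rw [add_zero, Nat.mod_eq_of_lt ha] at h1
  rw [← h1]
  exact Nat.mod_lt _ (by have := g.numD.2.2.2.2.1; omega)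

lemma chZ_mul (a b : ZMod P.k) : chZ P (a + b) = chZ P a * chZ P b := by
  unfold chZ
  rw [ZMod.val_add, ← g.chiCh.1 _ (ZMod.val_lt a) _ (ZMod.val_lt b), ZMod.natCast_mod,
    Nat.cast_mul]

lemma chZ_zero : chZ P 0 = 1 := by
  unfold chZ; rw [ZMod.val_zero, g.chiCh.2.1]; simp

lemma chZ_nat {a : ℕ} (ha : a < P.k) : chZ P (a : ZMod P.k) = (P.ch a : ZMod P.Dl) := by
  unfold chZ; rw [ZMod.val_cast_of_lt ha]

lemma G0_eq {r : ℕ} (hr : r ≤ P.m) :
    G0 (hZ P) (chZ P) r = ((∑ j ∈ range r, P.ch (P.h j) : ℕ) : ZMod P.Dl) := by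
  unfold G0
  push_cast
  refine Finset.sum_congr rfl fun j hj => ?_
  unfold hZ
  rw [g.chZ_nat (g.h_lt (lt_of_lt_of_le (Finset.mem_range.mp hj) hr))]

lemma G0_m : G0 (hZ P) (chZ P) P.m = 0 := by
  rw [g.G0_eq le_rfl, ← ZMod.natCast_mod, g.chiCh.2.2.1, Nat.cast_zero]

lemma Kv_eq {r : ℕ} (hr : r < P.m) :
    (P.Kv r : ZMod P.Dl) = chZ P (-hZ P r) * G0 (hZ P) (chZ P) r := by
  rw [g.chiCh.2.2.2 r hr, ZMod.natCast_mod, Nat.cast_mul, g.G0_eq hr.le]
  congr 1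
  rw [← g.chZ_nat (Nat.mod_lt _ (Nat.pos_of_ne_zero (NeZero.ne _))), ZMod.natCast_mod,
    Nat.cast_sub (g.h_lt hr).le, ZMod.natCast_self, zero_sub]
  rfl

lemma tabCh {e r2 r4 : ℕ} (he : e < P.k) (h2 : r2 < P.m) (h4 : r4 < P.m) :
    ∃ u, u < P.Dl ∧ ((u : ℕ) : ZMod P.Dl) = P.Kv r2 - P.ch e * P.Kv r4 ∧
      bitN (nthD 0 P.BM e) u = true ∧ bitN (nthD 0 P.BM e) (u + P.Dl) = true ∧
      ∃ l, (nthD Tr.nil P.tab e).find u = some l ∧ r2 * 64 + r4 ∈ l := by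
  have := g.ctab e he
  unfold Par.chkTab at this
  have := allN_eq.mp (allN_eq.mp this r2 h2) r4 h4
  simp only [band_eq, onSome_eq, memL_eq] at this
  have hD : 0 < P.Dl := by have := g.numD.2.2.2.2.1; omega
  refine ⟨_, Nat.mod_lt _ hD, ?_, this.1, this.2.1, this.2.2⟩
  rw [ZMod.natCast_mod, Nat.cast_add, Nat.cast_sub (Nat.mod_lt _ hD).le, ZMod.natCast_mod,
    ZMod.natCast_self]
  push_cast
  ring

end Good

end CycAb
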