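import Pool.Agent.Lib.CycAb.Sound2

/-!
The states: decoding, the packed vectors and the class functional.
-/

set_option linter.unusedSectionVars false

namespace CycAb

open Finset

/-- the state of a pair of windows is in the table -/
def TS (P : Par) (n2 n3 n4 : ZMod P.k) (d : ZMod P.k → ℤ) : Prop :=
  ∃ key v, P.T.find key = some v ∧
    (key : ℤ) = PK P.k (fun t => d t + 16) * 512 + (n2.val + 8 * n3.val + 64 * n4.val) ∧
    ∀ t, -16 ≤ d t ∧ d t < 100

/-- the state with length `p` and value `φ` is in the table -/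
def RS (P : Par) (n2 n3 n4 : ZMod P.k) (d : ZMod P.k → ℤ) (p : ℕ) (φ : ℤ) : Prop :=
  ∃ key v, P.T.find key = some v ∧
    (key : ℤ) = PK P.k (fun t => d t + 16) * 512 + (n2.val + 8 * n3.val + 64 * n4.val) ∧
    ∃ x ∈ v, x / 4096 = p ∧ ((x % 4096 : ℕ) : ℤ) = φ + P.den

lemma decode {a b c : ℕ} (Q : ℕ) (ha : a < 8) (hb : b < 8) (hc : c < 8) {key : ℕ}
    (hkey : key = Q * 512 + (a + 8 * b + 64 * c)) :
    Nat.land key 7 = a ∧ Nat.land (Nat.shiftRight key 3) 7 = b ∧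
      Nat.land (Nat.shiftRight key 6) 7 = c ∧ Nat.shiftRight key 9 = Q ∧ key / 512 = Q := by
  have e1 : ∀ X, Nat.land X 7 = X % 8 := fun X => Nat.and_two_pow_sub_one_eq_mod X 3
  have e2 : ∀ X j, Nat.shiftRight X j = X / 2 ^ j := fun X j => Nat.shiftRight_eq_div_pow X j
  rw [e1, e1, e1, e2, e2, e2]
  norm_num
  omega

namespace Good

variable {P : Par} [NeZero P.k] (g : Good P)
include g

lemma kpos : 0 < P.k := Nat.pos_of_ne_zero (NeZero.ne _)

lemma val8 (n : ZMod P.k) : n.val < 8 := lt_of_lt_of_le (ZMod.val_lt n) g.numD.2.2.2.1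

/-- integer sum with `nuZ` -/
lemma sum_abs_nu : ∑ t, |nuZ P t| ≤ (P.dl : ℤ) := by
  rw [sum_zmod]
  have := g.nuCh.2.1
  have h1 : ((∑ t ∈ range P.k, ((P.np t - P.lam) + (P.lam - P.np t)) : ℕ) : ℤ) ≤ (P.dl : ℤ) := by
    exact_mod_cast this
  refine le_trans (le_of_eq ?_) h1
  push_cast
  refine Finset.sum_congr rfl fun t ht => ?_
  rw [g.nu_eq (Finset.mem_range.mp ht)]
  rcases le_total (P.np t) P.lam with h | h
  · rw [Nat.sub_eq_zero_of_le h, Nat.cast_sub h, abs_of_nonpos]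
    · push_cast; ring
    · have : (P.np t : ℤ) ≤ P.lam := by exact_mod_cast h
      linarith
  · rw [Nat.sub_eq_zero_of_le h, Nat.cast_sub h, abs_of_nonneg]
    · push_cast; ring
    · have : (P.lam : ℤ) ≤ P.np t := by exact_mod_cast h
      linarith

lemma conv_bound {d : ZMod P.k → ℤ} (hd : ∀ t, |d t| ≤ 4) (t : ZMod P.k) :
    |∑ s, nuZ P (t - s) * d s| ≤ 4 * P.dl := by
  calc |∑ s, nuZ P (t - s) * d s| ≤ ∑ s, |nuZ P (t - s) * d s| := Finset.abs_sum_le_sum_abs _ _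
    _ ≤ ∑ s, |nuZ P (t - s)| * 4 := by
        refine Finset.sum_le_sum fun s _ => ?_
        rw [abs_mul]
        exact mul_le_mul_of_nonneg_left (hd s) (abs_nonneg _)
    _ = 4 * ∑ s, |nuZ P (t - s)| := by rw [Finset.mul_sum]; exact Finset.sum_congr rfl fun s _ => by ring
    _ = 4 * ∑ s, |nuZ P s| := by
        congr 1
        exact Equiv.sum_comp (Equiv.subLeft t) (fun s => |nuZ P s|)
    _ ≤ 4 * P.dl := by linarith [g.sum_abs_nu]

/-- fields of a state -/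
lemma fld_state {d : ZMod P.k → ℤ} (hd : ∀ t, -16 ≤ d t ∧ d t < 100) {Q : ℕ}
    (hQ : (Q : ℤ) = PK P.k (fun t => d t + 16)) {t : ℕ} (ht : t < P.k) :
    (fld 24 Q t : ℤ) = d (t : ZMod P.k) + 16 :=
  fld_PK (f := fun t => d t + 16) (fun t => by linarith [(hd t).1])
    (fun t => by linarith [(hd t).2]) hQ ht

lemma vOf_eq {d : ZMod P.k → ℤ} (hd : ∀ t, |d t| ≤ 4) {Q : ℕ}
    (hQ : (Q : ℤ) = PK P.k (fun t => d t + 16)) :
    (P.vOf Q : ℤ) = PK P.k (fun t => ∑ s, nuZ P (t - s) * d s + 4 * P.dl) := by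
  have hd' : ∀ t, -16 ≤ d t ∧ d t < 100 := fun t => by
    have := abs_le.mp (hd t); constructor <;> linarith
  have hf : ∀ t < P.k, (fld 24 Q t : ℤ) = d (t : ZMod P.k) + 16 := fun t ht => g.fld_state hd' hQ ht
  have e1 : ((∑ s ∈ range P.k, fld 24 Q s * P.rot P.NP s : ℕ) : ℤ)
      = PK P.k (fun t => ∑ s, (d s + 16) * (nuZ P (t - s) + P.lam)) := by
    have : ∀ t, ∑ s, (d s + 16) * (nuZ P (t - s) + P.lam)
        = ∑ s ∈ range P.k, (d (s : ZMod P.k) + 16) * (nuZ P (t - (s : ZMod P.k)) + P.lam) :=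
      fun t => sum_zmod _
    simp only [this]
    rw [PK_sum]
    push_cast
    refine Finset.sum_congr rfl fun s hs => ?_
    have hs := Finset.mem_range.mp hs
    rw [hf s hs, g.rotNP hs, ← PK_smul]
  have e2 : ((∑ s ∈ range P.k, fld 24 Q s : ℕ) : ℤ) = ∑ s, (d s + 16) := by
    rw [sum_zmod]
    push_cast
    exact Finset.sum_congr rfl fun s hs => hf s (Finset.mem_range.mp hs)
  have e3 : (P.snu : ℤ) = ∑ s, nuZ P s := by
    rw [sum_zmod]
    have := g.nuCh.2.2.1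
    have h1 : ((∑ t ∈ range P.k, P.np t : ℕ) : ℤ) = ((P.snu + P.k * P.lam : ℕ) : ℤ) := by
      exact_mod_cast this
    push_cast at h1
    rw [Finset.sum_congr rfl fun t ht => g.nu_eq (Finset.mem_range.mp ht),
      Finset.sum_sub_distrib, h1]
    simp
  have key : ((∑ s ∈ range P.k, fld 24 Q s * P.rot P.NP s : ℕ) : ℤ) + 4 * P.dl * P.one
      - (16 * P.snu + P.lam * ((∑ s ∈ range P.k, fld 24 Q s : ℕ) : ℤ)) * P.one
      = PK P.k (fun t => ∑ s, nuZ P (t - s) * d s + 4 * P.dl) := by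
    rw [e1, e2, e3, g.const_eq, g.const_eq, ← PK_add, ← PK_sub]
    congr 1
    funext t
    have h1 : ∑ s, (d s + 16) * (nuZ P (t - s) + P.lam)
        = ∑ s, nuZ P (t - s) * d s + 16 * ∑ s, nuZ P (t - s) + P.lam * ∑ s, (d s + 16) := by
      rw [Finset.mul_sum, Finset.mul_sum, ← Finset.sum_add_distrib, ← Finset.sum_add_distrib]
      exact Finset.sum_congr rfl fun s _ => by ring
    have h2 : ∑ s, nuZ P (t - s) = ∑ s, nuZ P s := Equiv.sum_comp (Equiv.subLeft t) (nuZ P)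
    rw [h1, h2]; ring
  have hnn : 0 ≤ PK P.k (fun t => ∑ s, nuZ P (t - s) * d s + 4 * P.dl) :=
    PK_nonneg fun t => by have := abs_le.mp (g.conv_bound hd t); linarith
  have e0 : P.vOf Q = (∑ s ∈ range P.k, fld 24 Q s * P.rot P.NP s + 4 * P.dl * P.one)
      - (16 * P.snu + P.lam * (∑ s ∈ range P.k, fld 24 Q s)) * P.one := by
    unfold Par.vOf
    rw [sumN_eq, sumN_eq]
    rfl
  rw [e0, Nat.cast_sub]
  · push_cast at key ⊢
    linarith
  · rw [← key] at hnn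
    have : ((((16 * P.snu + P.lam * (∑ s ∈ range P.k, fld 24 Q s)) * P.one : ℕ)) : ℤ)
        ≤ ((∑ s ∈ range P.k, fld 24 Q s * P.rot P.NP s + 4 * P.dl * P.one : ℕ) : ℤ) := by
      push_cast at hnn ⊢
      linarith
    exact_mod_cast this

lemma gOf_eq {d : ZMod P.k → ℤ} (hd : ∀ t, -16 ≤ d t ∧ d t < 100) {Q : ℕ}
    (hQ : (Q : ℤ) = PK P.k (fun t => d t + 16)) :
    (P.gOf Q : ZMod P.Dl) = ∑ s, chZ P s * (d s : ZMod P.Dl) := by
  have e0 : P.gOf Q = (∑ t ∈ range P.k, P.ch t * (fld 24 Q t + 16 * (P.Dl - 1))) % P.Dl := by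
    unfold Par.gOf
    rw [sumN_eq]
    rfl
  rw [e0, ZMod.natCast_mod, sum_zmod]
  push_cast
  refine Finset.sum_congr rfl fun t ht => ?_
  have ht := Finset.mem_range.mp ht
  have h1 := g.fld_state hd hQ ht
  have h2 : ((fld 24 Q t : ℕ) : ZMod P.Dl) = (d (t : ZMod P.k) : ZMod P.Dl) + 16 := by
    have := congrArg (fun z : ℤ => (z : ZMod P.Dl)) h1
    push_cast at this
    exact this
  have hD : 1 ≤ P.Dl := by have := g.numD.2.2.2.2.1; omega
  have h3 : ((P.Dl - 1 : ℕ) : ZMod P.Dl) = -1 := by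
    rw [Nat.cast_sub hD, ZMod.natCast_self]; simp
  have h4 := g.chZ_nat ht
  rw [show ((P.Dl - 1 : ℕ) : ZMod P.Dl) = -1 from h3, h2, ← h4]
  ring

/-- the facts on a state in the table -/
lemma state_facts {n2 n3 n4 : ZMod P.k} {d : ZMod P.k → ℤ} (hT : TS P n2 n3 n4 d) :
    ∃ (key : ℕ) (v : List ℕ) (Q : ℕ), P.T.find key = some v ∧
      key = Q * 512 + (n2.val + 8 * n3.val + 64 * n4.val) ∧
      (Q : ℤ) = PK P.k (fun t => d t + 16) ∧ (∀ t, |d t| ≤ 4) ∧ |∑ t, d t| ≤ 1 := by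
  obtain ⟨key, v, hf, hk, hd⟩ := hT
  have hnn : 0 ≤ PK P.k (fun t => d t + 16) := PK_nonneg fun t => by linarith [(hd t).1]
  obtain ⟨Q, hQ⟩ := Int.eq_ofNat_of_zero_le hnn
  have hkey : key = Q * 512 + (n2.val + 8 * n3.val + 64 * n4.val) := by
    rw [hQ] at hk; exact_mod_cast hk
  have hr := Tr.find_all g.crange hf
  unfold Par.chkRange at hr
  rw [band_eq] at hr
  have hdec := (decode Q (g.val8 n2) (g.val8 n3) (g.val8 n4) hkey).2.2.2.2
  rw [hdec] at hr
  refine ⟨key, v, Q, hf, hkey, hQ.symm, fun t => ?_, ?_⟩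
  · have h1 := of_decide_eq_true (allN_eq.mp hr.1 _ (ZMod.val_lt t))
    have h2 := g.fld_state hd hQ.symm (ZMod.val_lt t)
    rw [ZMod.natCast_zmod_val] at h2
    have h3 : (12 : ℤ) ≤ (fld 24 Q t.val : ℤ) := by exact_mod_cast h1.1
    have h4 : (fld 24 Q t.val : ℤ) ≤ 20 := by exact_mod_cast h1.2
    rw [abs_le]; constructor <;> linarith
  · have h1 := of_decide_eq_true hr.2
    rw [sumN_eq] at h1
    have h2 : ((∑ t ∈ range P.k, fld 24 Q t : ℕ) : ℤ) = ∑ t, d t + 16 * P.k := by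
      rw [sum_zmod]
      push_cast
      rw [Finset.sum_congr rfl fun t ht => g.fld_state hd hQ.symm (Finset.mem_range.mp ht),
        Finset.sum_add_distrib]
      simp; ring
    have h3 : (16 * P.k : ℤ) ≤ ((∑ t ∈ range P.k, fld 24 Q t : ℕ) : ℤ) + 1 := by exact_mod_cast h1.1
    have h4 : ((∑ t ∈ range P.k, fld 24 Q t : ℕ) : ℤ) ≤ 16 * P.k + 1 := by exact_mod_cast h1.2
    rw [abs_le]; constructor <;> linarith

lemma TS_zero (n2 n3 n4 : ZMod P.k) : TS P n2 n3 n4 0 := by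
  have hz := g.czero
  unfold Par.chkZero at hz
  have := allN_eq.mp (allN_eq.mp (allN_eq.mp hz _ (ZMod.val_lt n2)) _ (ZMod.val_lt n3)) _
    (ZMod.val_lt n4)
  rw [onSome_eq] at this
  obtain ⟨v, hv, _⟩ := this
  refine ⟨_, v, hv, ?_, fun t => by simp⟩
  have := g.const_eq 16
  simp only [Pi.zero_apply, zero_add]
  rw [← this]
  push_cast
  ring

end Good

end CycAb
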