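import Pool.Agent.Lib.CycAb.Sound3

/-!
From the closure check to the closure of the set of states.
-/

set_option linter.unusedSectionVars false

namespace CycAb

open Finset

namespace Good

variable {P : Par} [NeZero P.k] (g : Good P)
include g

lemma letter_val (n : ZMod P.k) {r1 r : ℕ} (_ : r1 < P.m) (hr : r < P.m) :
    (n.val + P.h r1 + P.k - P.h r) % P.k = (n - hZ P r + hZ P r1).val := by
  have hlt : (n.val + P.h r1 + P.k - P.h r) % P.k < P.k := Nat.mod_lt _ (g.kpos)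
  rw [← ZMod.val_cast_of_lt hlt]
  congr 1
  rw [g.cast_sub_h hr, Nat.cast_add, ZMod.natCast_zmod_val]
  unfold hZ
  ring

lemma edge {n2 n3 n4 : ZMod P.k} {d d' : ZMod P.k → ℤ} (hT : TS P n2 n3 n4 d)
    {r1 r2 r3 r4 : ℕ} (h1 : r1 < P.m) (h2 : r2 < P.m) (h3 : r3 < P.m) (h4 : r4 < P.m)
    (E1 : ∀ t, (P.dl : ℤ) * d' t = ∑ s, nuZ P (t - hZ P r1 - s) * d s
      - F0 (hZ P) (nuZ P) r2 (t - (n2 - hZ P r2 + hZ P r1)) + F0 (hZ P) (nuZ P) r1 t
      + F0 (hZ P) (nuZ P) r4 (t - (n4 - hZ P r4 + hZ P r1))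
      - F0 (hZ P) (nuZ P) r3 (t - (n3 - hZ P r3 + hZ P r1)))
    (E2 : ∑ s, chZ P s * (d s : ZMod P.Dl) = chZ P n2 * P.Kv r2 - P.Kv r1 - chZ P n4 * P.Kv r4
      + chZ P n3 * P.Kv r3) :
    ∃ (key : ℕ) (v : List ℕ) (key' : ℕ) (pv : List ℕ) (z : Bool),
      P.T.find key = some v ∧
      (key : ℤ) = PK P.k (fun t => d t + 16) * 512 + (n2.val + 8 * n3.val + 64 * n4.val) ∧
      P.T.find key' = some pv ∧
      (key' : ℤ) = PK P.k (fun t => d' t + 16) * 512 + ((n2 - hZ P r2 + hZ P r1).val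
        + 8 * (n3 - hZ P r3 + hZ P r1).val + 64 * (n4 - hZ P r4 + hZ P r1).val) ∧
      (∀ t, -16 ≤ d' t ∧ d' t < 100) ∧ P.chkEdge v z r1 r2 r3 pv = true ∧ (d = 0 → z = true) := by
  obtain ⟨key, v, Q, hf, hkey, hQ, hd4, -⟩ := g.state_facts hT
  have hd : ∀ t, -16 ≤ d t ∧ d t < 100 := fun t => by
    have := abs_le.mp (hd4 t); constructor <;> linarith
  have hst := Tr.find_all g.cstate hf
  obtain ⟨c2, c3, c4, cQ, -⟩ := decode Q (g.val8 n2) (g.val8 n3) (g.val8 n4) hkey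
  unfold Par.chkState at hst
  rw [c2, c3, c4, cQ] at hst
  have hkeyZ : (key : ℤ) = PK P.k (fun t => d t + 16) * 512
      + (n2.val + 8 * n3.val + 64 * n4.val) := by
    rw [hkey, ← hQ]; push_cast; ring
  have hk := g.kpos
  have hD : 0 < P.Dl := by have := g.numD.2.2.2.2.1; omega
  have hdl : 0 < P.dl := g.numD.2.2.2.2.2.1
  -- the class functional
  set e := (n4.val + P.k - n2.val) % P.k with he
  have helt : e < P.k := Nat.mod_lt _ hk
  have hecast : (e : ZMod P.k) = n4 - n2 := by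
    rw [he, ZMod.natCast_mod, Nat.cast_sub (by have := ZMod.val_lt n2; omega), Nat.cast_add,
      ZMod.natCast_self, ZMod.natCast_zmod_val, ZMod.natCast_zmod_val, add_zero]
  obtain ⟨u0, hu0, hu0c, hb1, hb2, l, hl, hmem⟩ := g.tabCh helt h2 h4
  set iv := P.ch ((P.k - n2.val) % P.k) with hiv
  have hivc : (iv : ZMod P.Dl) = chZ P (-n2) := by
    rw [hiv, ← g.chZ_nat (Nat.mod_lt _ hk), ZMod.natCast_mod,
      Nat.cast_sub (ZMod.val_lt n2).le, ZMod.natCast_self, ZMod.natCast_zmod_val, zero_sub]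
  set U1 := iv * (P.Kv r1 + P.gOf Q) % P.Dl with hU1
  set U3 := iv * (P.Dl - P.ch n3.val * P.Kv r3 % P.Dl) % P.Dl with hU3
  have hU1c : (U1 : ZMod P.Dl) = chZ P (-n2) * (P.Kv r1 + ∑ s, chZ P s * (d s : ZMod P.Dl)) := by
    rw [hU1, ZMod.natCast_mod, Nat.cast_mul, Nat.cast_add, hivc, g.gOf_eq hd hQ]
  have hU3c : (U3 : ZMod P.Dl) = chZ P (-n2) * (-(chZ P n3 * P.Kv r3)) := by
    rw [hU3, ZMod.natCast_mod, Nat.cast_mul, hivc, Nat.cast_sub (Nat.mod_lt _ hD).le,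
      ZMod.natCast_mod, ZMod.natCast_self, Nat.cast_mul, ← g.chZ_nat (ZMod.val_lt n3),
      ZMod.natCast_zmod_val]
    ring
  have hinv : chZ P (-n2) * chZ P n2 = 1 := by
    rw [← g.chZ_mul, neg_add_cancel, g.chZ_zero]
  have hu : ((U1 + U3 : ℕ) : ZMod P.Dl) = ((u0 : ℕ) : ZMod P.Dl) := by
    rw [Nat.cast_add, hU1c, hU3c, hu0c, E2, ← g.chZ_nat helt, hecast, sub_eq_add_neg n4 n2,
      g.chZ_mul]
    linear_combination (P.Kv r2 : ZMod P.Dl) * hinv
  have hmod : (U1 + U3) % P.Dl = u0 := by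
    have := (ZMod.natCast_eq_natCast_iff' _ _ _).mp hu
    rw [this, Nat.mod_eq_of_lt hu0]
  have hcase : U1 + U3 = u0 ∨ U1 + U3 = u0 + P.Dl := by
    have hl1 : U1 < P.Dl := Nat.mod_lt _ hD
    have hl3 : U3 < P.Dl := Nat.mod_lt _ hD
    by_cases hc : U1 + U3 < P.Dl
    · left; rw [← hmod, Nat.mod_eq_of_lt hc]
    · right
      push Not at hc
      have : (U1 + U3 - P.Dl) % P.Dl = u0 := by
        rw [← hmod]; exact (Nat.mod_eq_sub_mod hc).symm
      rw [Nat.mod_eq_of_lt (by omega)] at this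
      omega
  have hbit : bitN (nthD 0 P.BM e) (U1 + U3) = true := by
    rcases hcase with h | h <;> rw [h] <;> assumption
  -- unfold the check
  have hrow := allN_eq.mp hst r1 h1
  have hpair := allN_eq.mp hrow r3 h3
  unfold Par.chkPair at hpair
  rw [bor_eq] at hpair
  have hpair : _ ∨ _ := hpair
  rcases hpair with hbad | hgood
  · exfalso
    have hbad : Bool.not (bitN (nthD 0 P.BM e) (U1 + U3)) = true := hbad
    rw [hbit] at hbad
    exact Bool.noConfusion hbad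
  rw [onSome_eq] at hgood
  obtain ⟨l', hl', hall⟩ := hgood
  have hl'' : (nthD Tr.nil P.tab e).find ((U1 + U3) % P.Dl) = some l' := hl'
  rw [hmod, hl] at hl''
  cases hl''
  have hcand := allL_eq.mp hall _ hmem
  have hm64 : P.m ≤ 64 := g.numD.2.1
  have hx1 : Nat.shiftRight (r2 * 64 + r4) 6 = r2 := by
    show (r2 * 64 + r4) >>> 6 = r2
    rw [Nat.shiftRight_eq_div_pow]; omega
  have hx2 : Nat.land (r2 * 64 + r4) 63 = r4 := by
    have := Nat.and_two_pow_sub_one_eq_mod (r2 * 64 + r4) 6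
    have h2 : Nat.land (r2 * 64 + r4) 63 = (r2 * 64 + r4) % 2 ^ 6 := this
    rw [h2]; omega
  rw [hx1, hx2] at hcand
  unfold Par.chkCand at hcand
  -- packed numbers
  set VP := P.vOf Q with hVP
  have hVPc : (VP : ℤ) = PK P.k (fun t => ∑ s, nuZ P (t - s) * d s + 4 * P.dl) := g.vOf_eq hd4 hQ
  have hVb : ∀ t, 0 ≤ ∑ s, nuZ P (t - s) * d s + 4 * P.dl ∧
      ∑ s, nuZ P (t - s) * d s + 4 * (P.dl : ℤ) ≤ 8 * P.dl := fun t => by
    have := abs_le.mp (g.conv_bound hd4 t); constructor <;> linarith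
  have h32 : 32 * (P.dl : ℤ) < 2 ^ 24 := by exact_mod_cast g.numD.2.2.2.2.2.2.1
  have hdlZ : (0 : ℤ) < P.dl := by exact_mod_cast hdl
  have hrotc : (P.rot VP (P.h r1) : ℤ) = PK P.k (fun t =>
      ∑ s, nuZ P (t - hZ P r1 - s) * d s + 4 * P.dl) :=
    rot_eq (fun t => (hVb t).1) (fun t => by linarith [(hVb t).2]) P rfl hVPc (g.h_lt h1)
  set m2 := (n2.val + P.h r1 + P.k - P.h r2) % P.k with hm2
  set m3 := (n3.val + P.h r1 + P.k - P.h r3) % P.k with hm3
  set m4 := (n4.val + P.h r1 + P.k - P.h r4) % P.k with hm4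
  have hm2v := g.letter_val n2 h1 h2
  have hm3v := g.letter_val n3 h1 h3
  have hm4v := g.letter_val n4 h1 h4
  rw [← hm2] at hm2v
  rw [← hm3] at hm3v
  rw [← hm4] at hm4v
  have hm2l : m2 < P.k := Nat.mod_lt _ hk
  have hm3l : m3 < P.k := Nat.mod_lt _ hk
  have hm4l : m4 < P.k := Nat.mod_lt _ hk
  have hm2c : (m2 : ZMod P.k) = n2 - hZ P r2 + hZ P r1 := by rw [hm2v, ZMod.natCast_zmod_val]
  have hm3c : (m3 : ZMod P.k) = n3 - hZ P r3 + hZ P r1 := by rw [hm3v, ZMod.natCast_zmod_val]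
  have hm4c : (m4 : ZMod P.k) = n4 - hZ P r4 + hZ P r1 := by rw [hm4v, ZMod.natCast_zmod_val]
  have f1 := g.Ftab hk h1
  have f2 := g.Ftab hm2l h2
  have f3 := g.Ftab hm3l h3
  have f4 := g.Ftab hm4l h4
  rw [Nat.cast_zero] at f1
  simp only [sub_zero] at f1
  rw [hm2c] at f2
  rw [hm3c] at f3
  rw [hm4c] at f4
  have b1 := fun t => g.F0_bound h1 t
  have b2 := fun t => g.F0_bound h2 t
  have b3 := fun t => g.F0_bound h3 t
  have b4 := fun t => g.F0_bound h4 t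
  -- the chain of subtractions
  set A1 := P.rot VP (P.h r1) + P.F 0 r1 with hA1
  have hA3 : (((A1 + 12 * P.dl * P.one) - P.F m3 r3 : ℕ) : ℤ)
      = PK P.k (fun t => ∑ s, nuZ P (t - hZ P r1 - s) * d s + 4 * P.dl
        + (F0 (hZ P) (nuZ P) r1 t + 3 * P.dl) + 12 * P.dl
        - (F0 (hZ P) (nuZ P) r3 (t - (n3 - hZ P r3 + hZ P r1)) + 3 * P.dl)) := by
    have hint : (A1 : ℤ) + 12 * P.dl * P.one - P.F m3 r3
        = PK P.k (fun t => ∑ s, nuZ P (t - hZ P r1 - s) * d s + 4 * P.dl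
        + (F0 (hZ P) (nuZ P) r1 t + 3 * P.dl) + 12 * P.dl
        - (F0 (hZ P) (nuZ P) r3 (t - (n3 - hZ P r3 + hZ P r1)) + 3 * P.dl)) := by
      rw [PK_sub, PK_add, PK_add, ← f3, ← f1, ← hrotc, ← g.const_eq]
      simp only [hA1]
      push_cast; ring
    have hnn : 0 ≤ PK P.k (fun t => ∑ s, nuZ P (t - hZ P r1 - s) * d s + 4 * P.dl
        + (F0 (hZ P) (nuZ P) r1 t + 3 * P.dl) + 12 * P.dl
        - (F0 (hZ P) (nuZ P) r3 (t - (n3 - hZ P r3 + hZ P r1)) + 3 * P.dl)) :=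
      PK_nonneg fun t => by
        have := (hVb (t - hZ P r1)).1
        have := (b1 t).1
        have := (b3 (t - (n3 - hZ P r3 + hZ P r1))).2
        linarith
    rw [Nat.cast_sub]
    · push_cast; exact hint
    · rw [← hint] at hnn
      have : ((P.F m3 r3 : ℕ) : ℤ) ≤ ((A1 + 12 * P.dl * P.one : ℕ) : ℤ) := by
        push_cast; linarith
      exact_mod_cast this
  set A3 := (A1 + 12 * P.dl * P.one) - P.F m3 r3 with hA3d
  have hfun : (fun t => (P.dl : ℤ) * (d' t + 16)) = fun t =>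
      (∑ s, nuZ P (t - hZ P r1 - s) * d s + 4 * P.dl
        + (F0 (hZ P) (nuZ P) r1 t + 3 * P.dl) + 12 * P.dl
        - (F0 (hZ P) (nuZ P) r3 (t - (n3 - hZ P r3 + hZ P r1)) + 3 * P.dl))
        + (F0 (hZ P) (nuZ P) r4 (t - (n4 - hZ P r4 + hZ P r1)) + 3 * P.dl)
        - (F0 (hZ P) (nuZ P) r2 (t - (n2 - hZ P r2 + hZ P r1)) + 3 * P.dl) := by
    funext t
    rw [mul_add, E1 t]; ring
  have hrange : ∀ t, 0 ≤ (P.dl : ℤ) * (d' t + 16) ∧ (P.dl : ℤ) * (d' t + 16) ≤ 32 * P.dl := by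
    intro t
    have hft := congrFun hfun t

    have q0 := hVb (t - hZ P r1)
    have q1 := b1 t
    have q3 := b3 (t - (n3 - hZ P r3 + hZ P r1))
    have q4 := b4 (t - (n4 - hZ P r4 + hZ P r1))
    have q2 := b2 (t - (n2 - hZ P r2 + hZ P r1))
    rw [hft]
    constructor <;> linarith [q0.1, q0.2, q1.1, q1.2, q3.1, q3.2, q4.1, q4.2, q2.1, q2.2]
  have hd'r : ∀ t, -16 ≤ d' t ∧ d' t ≤ 16 := by
    intro t
    obtain ⟨q1, q2⟩ := hrange t
    constructor
    · by_contra hc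
      push Not at hc
      have : (P.dl : ℤ) * (d' t + 16) < 0 := mul_neg_of_pos_of_neg hdlZ (by linarith)
      linarith
    · by_contra hc
      push Not at hc
      have : (P.dl : ℤ) * 33 ≤ (P.dl : ℤ) * (d' t + 16) :=
        mul_le_mul_of_nonneg_left (by linarith) hdlZ.le
      linarith
  have hnn' : 0 ≤ PK P.k (fun t => d' t + 16) := PK_nonneg fun t => by linarith [(hd'r t).1]
  obtain ⟨Z, hZ'⟩ := Int.eq_ofNat_of_zero_le hnn'
  have hB : A3 + P.F m4 r4 - P.F m2 r2 = P.dl * Z := by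
    have hint : (A3 : ℤ) + P.F m4 r4 - P.F m2 r2 = P.dl * (Z : ℤ) := by
      rw [← hZ', ← PK_smul, hfun, PK_sub, PK_add, ← hA3, ← f4, ← f2]
    have hle : P.F m2 r2 ≤ A3 + P.F m4 r4 := by
      have : (0 : ℤ) ≤ P.dl * (Z : ℤ) := by positivity
      rw [← hint] at this
      have : ((P.F m2 r2 : ℕ) : ℤ) ≤ ((A3 + P.F m4 r4 : ℕ) : ℤ) := by push_cast; linarith
      exact_mod_cast this
    have : ((A3 + P.F m4 r4 - P.F m2 r2 : ℕ) : ℤ) = ((P.dl * Z : ℕ) : ℤ) := by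
      rw [Nat.cast_sub hle]; push_cast; exact hint
    exact_mod_cast this
  have hcand : P.chkX v (Nat.beq Q (16 * P.one)) m3 r1 r3 r2 m2 m4
      (A3 + P.F m4 r4 - P.F m2 r2) = true := hcand
  rw [hB] at hcand
  unfold Par.chkX at hcand
  have hfind : Nat.add (Nat.shiftLeft (Nat.div (P.dl * Z) P.dl) 9)
      (Nat.add m2 (Nat.add (Nat.mul 8 m3) (Nat.mul 64 m4))) = Z * 2 ^ 9 + (m2 + (8 * m3 + 64 * m4)) := by
    show ((P.dl * Z) / P.dl) <<< 9 + (m2 + (8 * m3 + 64 * m4)) = _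
    rw [Nat.mul_div_cancel_left _ hdl, Nat.shiftLeft_eq]
  rw [hfind] at hcand
  obtain ⟨pv, hpv', hedge⟩ : ∃ pv, P.T.find (Z * 2 ^ 9 + (m2 + (8 * m3 + 64 * m4))) = some pv ∧
      P.chkEdge v (Nat.beq Q (16 * P.one)) r1 r2 r3 pv = true := by
    cases hfo : P.T.find (Z * 2 ^ 9 + (m2 + (8 * m3 + 64 * m4))) with
    | some pv => rw [hfo] at hcand; exact ⟨pv, rfl, hcand⟩
    | none =>
      exfalso
      rw [hfo] at hcand
      have hcand : Bool.not (allN P.k fun t => Nat.beq (Nat.mod (fld 24 (P.dl * Z) t) P.dl) 0)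
        = true := hcand
      have hall : (allN P.k fun t => Nat.beq (Nat.mod (fld 24 (P.dl * Z) t) P.dl) 0) = true := by
        rw [allN_eq]
        intro t ht
        have h1 : (fld 24 (P.dl * Z) t : ℤ) = P.dl * (d' (t : ZMod P.k) + 16) := by
          refine fld_PK (f := fun t => (P.dl : ℤ) * (d' t + 16)) (fun t => (hrange t).1)
            (fun t => lt_of_le_of_lt (hrange t).2 h32) ?_ ht
          rw [PK_smul, hZ']
          push_cast
          rfl
        obtain ⟨c, hc⟩ := Int.eq_ofNat_of_zero_le (show 0 ≤ d' (t : ZMod P.k) + 16 by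
          linarith [(hd'r (t : ZMod P.k)).1])
        rw [hc] at h1
        have h2 : fld 24 (P.dl * Z) t = P.dl * c := by exact_mod_cast h1
        show Nat.beq (fld 24 (P.dl * Z) t % P.dl) 0 = true
        rw [h2, Nat.mul_mod_right]
        rfl
      rw [hall] at hcand
      exact Bool.noConfusion hcand
  refine ⟨key, v, _, pv, _, hf, hkeyZ, hpv', ?_, fun t => ⟨(hd'r t).1, by linarith [(hd'r t).2]⟩,
    hedge, ?_⟩
  · rw [hZ', ← hm2v, ← hm3v, ← hm4v]
    push_cast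
    ring
  · intro h0
    have : Q = 16 * P.one := by
      have h1 : (Q : ℤ) = ((16 * P.one : ℕ) : ℤ) := by
        rw [hQ, h0]
        simp only [Pi.zero_apply, zero_add]
        rw [← g.const_eq]
        push_cast; ring
      exact_mod_cast h1
    show Nat.beq Q (16 * P.one) = true
    rw [this]
    exact Nat.beq_refl _

end Good

end CycAb
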