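import Pool.Agent.Lib.CycAb.Sound4

/-!
The closure hypothesis of the induction.
-/

set_option linter.unusedSectionVars false

namespace CycAb

open Finset

lemma ble_eq {a b : ℕ} : Nat.ble a b = true ↔ a ≤ b := Iff.of_eq Nat.ble_eq

lemma bnot_eq {b : Bool} : Bool.not b = true ↔ b = false := by cases b <;> simp

namespace Good

variable {P : Par} [NeZero P.k] (g : Good P)
include g

/-- meaning of the test on one entry of the parent -/
lemma chkOne_spec {v : List ℕ} {z : Bool} {r1 r3 A C x : ℕ} (h : P.chkOne v z r1 r3 A C x = true)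
    {φ : ℤ} (hφ : (A : ℤ) - C = φ + P.den) (hal : -(P.den : ℤ) < φ) :
    (x / 4096 < P.P2 → ∀ p : ℕ, (p : ℤ) = P.m * (x / 4096 : ℕ) + r3 - r1 → P.P0 ≤ p →
      φ + P.a1 * p ≤ P.den * p →
      (∃ y ∈ v, y / 4096 = min p P.P2 ∧ ((y % 4096 : ℕ) : ℤ) = φ + P.den) ∧
        (z = true → φ < P.e)) ∧
    (P.P2 ≤ x / 4096 →
      (∃ y ∈ v, y / 4096 = P.P2 ∧ ((y % 4096 : ℕ) : ℤ) = φ + P.den) ∧ (z = true → φ < P.e)) := by
  have hAC : C < A := by
    have : (C : ℤ) < A := by linarith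
    exact_mod_cast this
  have hsub : ((A - C : ℕ) : ℤ) = φ + P.den := by rw [Nat.cast_sub hAC.le]; exact hφ
  have memY : ∀ q : ℕ, band (Nat.ble (Nat.sub A C) 4095)
      (memL (Nat.add (Nat.mul q 4096) (Nat.sub A C)) v) = true →
      ∃ y ∈ v, y / 4096 = q ∧ ((y % 4096 : ℕ) : ℤ) = φ + P.den := by
    intro q hq
    rw [band_eq, ble_eq, memL_eq] at hq
    have h1 : A - C ≤ 4095 := hq.1
    have h2 : q * 4096 + (A - C) ∈ v := hq.2
    refine ⟨_, h2, by omega, ?_⟩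
    rw [show (q * 4096 + (A - C)) % 4096 = A - C by omega, hsub]
  have memZ : bor (Bool.not z) (Nat.ble (Nat.add (Nat.sub A C) 1) (Nat.add P.e P.den)) = true →
      z = true → φ < P.e := by
    intro hq hz
    rw [bor_eq, bnot_eq, ble_eq] at hq
    rcases hq with hq | hq
    · rw [hz] at hq; exact Bool.noConfusion hq
    · have h1 : (A - C) + 1 ≤ P.e + P.den := hq
      have : ((A - C : ℕ) : ℤ) + 1 ≤ P.e + P.den := by exact_mod_cast h1
      rw [hsub] at this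
      linarith
  unfold Par.chkOne at h
  rw [bor_eq, ble_eq] at h
  rcases h with h | h
  · omega
  constructor
  · intro hx p hp hP0 hlp
    have hble : Nat.ble P.P2 (Nat.div x 4096) = false := by
      cases hb : Nat.ble P.P2 (Nat.div x 4096) with
      | false => rfl
      | true =>
        have : P.P2 ≤ x / 4096 := ble_eq.mp hb
        omega
    rw [hble, bite_false, bor_eq, ble_eq] at h
    have hq : P.m * (x / 4096) + r3 - r1 = p ∧ r1 ≤ P.m * (x / 4096) + r3 := by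
      have : (P.m : ℤ) * ((x / 4096 : ℕ) : ℤ) + r3 = p + r1 := by linarith
      have : P.m * (x / 4096) + r3 = p + r1 := by exact_mod_cast this
      omega
    rcases h with h | h
    · exfalso
      have h' : P.m * (x / 4096) + r3 + 1 ≤ r1 + P.P0 := h
      omega
    rw [bor_eq, ble_eq] at h
    have hp' : Nat.sub (Nat.add (Nat.mul P.m (Nat.div x 4096)) r3) r1 = p := hq.1
    rw [hp'] at h
    rcases h with h | h
    · exfalso
      have h' : P.den * p + (P.den + 1) ≤ (A - C) + P.a1 * p := h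
      have h'' : (P.den : ℤ) * p + (P.den + 1) ≤ ((A - C : ℕ) : ℤ) + P.a1 * p := by
        exact_mod_cast h'
      rw [hsub] at h''
      linarith
    rw [band_eq] at h
    refine ⟨?_, memZ h.2⟩
    have hmin : (bite (Nat.ble P.P2 p) P.P2 p) = min p P.P2 := by
      cases hb : Nat.ble P.P2 p with
      | true => rw [bite_true]; rw [ble_eq] at hb; omega
      | false =>
        rw [bite_false]
        have : ¬ P.P2 ≤ p := fun hc => by rw [← ble_eq, hb] at hc; exact Bool.noConfusion hc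
        omega
    have h1 := h.1
    rw [hmin] at h1
    exact memY _ h1
  · intro hx
    have hble : Nat.ble P.P2 (Nat.div x 4096) = true := ble_eq.mpr hx
    rw [hble, bite_true, band_eq] at h
    exact ⟨memY _ h.1, memZ h.2⟩

/-- the fixed point -/
noncomputable def wP (P : Par) : ℕ → ZMod P.k := wd P.m (hZ P)

lemma wP_rec (q r : ℕ) (hr : r < P.m) : wP P (P.m * q + r) = wP P q + hZ P r :=
  wd_rec (hZ P) g.numD.1 g.hZ_zero q r hr

lemma hcl (A1 A2 B1 B2 r1 r2 r3 r4 : ℕ) (h1 : r1 < P.m) (h2 : r2 < P.m) (h3 : r3 < P.m)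
    (h4 : r4 < P.m)
    (hT : TS P (wP P (P.m * A2 + r2) - wP P (P.m * A1 + r1))
      (wP P (P.m * B1 + r3) - wP P (P.m * A1 + r1))
      (wP P (P.m * B2 + r4) - wP P (P.m * A1 + r1))
      (nd (wP P) (P.m * A1 + r1) (P.m * A2 + r2) (P.m * B1 + r3) (P.m * B2 + r4))) :
    TS P (wP P A2 - wP P A1) (wP P B1 - wP P A1) (wP P B2 - wP P A1) (nd (wP P) A1 A2 B1 B2) ∧
    ∀ (p' : ℕ) (φ' : ℤ),
      RS P (wP P A2 - wP P A1) (wP P B1 - wP P A1) (wP P B2 - wP P A1) (nd (wP P) A1 A2 B1 B2) p' φ' →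
      -(P.den : ℤ) < P.m * φ' + P.den * ((r2 : ℤ) - r1) - P.a1 * ((r3 : ℤ) - r1) →
      (p' < P.P2 → ∀ p : ℕ, (p : ℤ) = P.m * p' + r3 - r1 → P.P0 ≤ p →
        P.m * φ' + P.den * ((r2 : ℤ) - r1) - P.a1 * ((r3 : ℤ) - r1) + P.a1 * p ≤ P.den * p →
        RS P (wP P (P.m * A2 + r2) - wP P (P.m * A1 + r1))
          (wP P (P.m * B1 + r3) - wP P (P.m * A1 + r1))
          (wP P (P.m * B2 + r4) - wP P (P.m * A1 + r1))
          (nd (wP P) (P.m * A1 + r1) (P.m * A2 + r2) (P.m * B1 + r3) (P.m * B2 + r4)) (min p P.P2)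
          (P.m * φ' + P.den * ((r2 : ℤ) - r1) - P.a1 * ((r3 : ℤ) - r1)) ∧
        (nd (wP P) (P.m * A1 + r1) (P.m * A2 + r2) (P.m * B1 + r3) (P.m * B2 + r4) = 0 →
          P.m * φ' + P.den * ((r2 : ℤ) - r1) - P.a1 * ((r3 : ℤ) - r1) < P.e)) ∧
      (p' = P.P2 →
        RS P (wP P (P.m * A2 + r2) - wP P (P.m * A1 + r1))
          (wP P (P.m * B1 + r3) - wP P (P.m * A1 + r1))
          (wP P (P.m * B2 + r4) - wP P (P.m * A1 + r1))
          (nd (wP P) (P.m * A1 + r1) (P.m * A2 + r2) (P.m * B1 + r3) (P.m * B2 + r4)) P.P2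
          (P.m * φ' + P.den * ((r2 : ℤ) - r1) - P.a1 * ((r3 : ℤ) - r1)) ∧
        (nd (wP P) (P.m * A1 + r1) (P.m * A2 + r2) (P.m * B1 + r3) (P.m * B2 + r4) = 0 →
          P.m * φ' + P.den * ((r2 : ℤ) - r1) - P.a1 * ((r3 : ℤ) - r1) < P.e)) := by
  have hw := g.wP_rec
  have hlet : ∀ A r : ℕ, r < P.m → wP P (P.m * A + r) - wP P (P.m * A1 + r1) - hZ P r + hZ P r1
      = wP P A - wP P A1 := by
    intro A r hr
    rw [hw A r hr, hw A1 r1 h1]; ring
  have E1 : ∀ t, (P.dl : ℤ) * nd (wP P) A1 A2 B1 B2 t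
      = ∑ s, nuZ P (t - hZ P r1 - s)
          * nd (wP P) (P.m * A1 + r1) (P.m * A2 + r2) (P.m * B1 + r3) (P.m * B2 + r4) s
      - F0 (hZ P) (nuZ P) r2
          (t - (wP P (P.m * A2 + r2) - wP P (P.m * A1 + r1) - hZ P r2 + hZ P r1))
      + F0 (hZ P) (nuZ P) r1 t
      + F0 (hZ P) (nuZ P) r4
          (t - (wP P (P.m * B2 + r4) - wP P (P.m * A1 + r1) - hZ P r4 + hZ P r1))
      - F0 (hZ P) (nuZ P) r3
          (t - (wP P (P.m * B1 + r3) - wP P (P.m * A1 + r1) - hZ P r3 + hZ P r1)) := by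
    intro t
    rw [hlet A2 r2 h2, hlet B2 r4 h4, hlet B1 r3 h3]
    exact nd_E1 (hZ P) (wP P) (nuZ P) (P.dl : ℤ) hw g.hnu A1 A2 B1 B2 r1 r2 r3 r4 h1 h2 h3 h4 t
  have E2 := nd_E2 (hZ P) (wP P) (chZ P) g.chZ_mul g.chZ_zero hw g.G0_m
    A1 A2 B1 B2 r1 r2 r3 r4 h1 h2 h3 h4
  rw [← g.Kv_eq h1, ← g.Kv_eq h2, ← g.Kv_eq h3, ← g.Kv_eq h4] at E2
  obtain ⟨key, v, key', pv, z, hf, hkey, hf', hkey', hr', hedge, hz⟩ :=
    g.edge hT h1 h2 h3 h4 E1 E2
  rw [hlet A2 r2 h2, hlet B2 r4 h4, hlet B1 r3 h3] at hkey'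
  refine ⟨⟨key', pv, hf', hkey', hr'⟩, ?_⟩
  intro p' φ' hR hal
  obtain ⟨key'', pv'', hf'', hkey'', x, hx, hx1, hx2⟩ := hR
  have hkk : key'' = key' := by
    have : (key'' : ℤ) = key' := by rw [hkey'', hkey']
    exact_mod_cast this
  rw [hkk, hf'] at hf''
  cases hf''
  unfold Par.chkEdge at hedge
  have hone := allL_eq.mp hedge x hx
  have hφ : ((Nat.add (Nat.add (Nat.mul P.m (Nat.mod x 4096)) (Nat.mul P.den r2))
      (Nat.add (Nat.mul P.a1 r1) P.den) : ℕ) : ℤ)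
      - ((Nat.add (Nat.add (Nat.mul P.den r1) (Nat.mul P.a1 r3)) (Nat.mul P.m P.den) : ℕ) : ℤ)
      = P.m * φ' + P.den * ((r2 : ℤ) - r1) - P.a1 * ((r3 : ℤ) - r1) + P.den := by
    show (((P.m * (x % 4096) + P.den * r2) + (P.a1 * r1 + P.den) : ℕ) : ℤ)
      - (((P.den * r1 + P.a1 * r3) + P.m * P.den : ℕ) : ℤ) = _
    push_cast at hx2 ⊢
    rw [hx2]; ring
  obtain ⟨s1, s2⟩ := g.chkOne_spec hone hφ hal
  constructor
  · intro hp2 p hp hP0 hlp
    rw [hx1] at s1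
    obtain ⟨⟨y, hy, hy1, hy2⟩, hb⟩ := s1 hp2 p hp hP0 hlp
    exact ⟨⟨key, v, hf, hkey, y, hy, hy1, hy2⟩, fun h0 => hb (hz h0)⟩
  · intro hp2
    rw [hx1] at s2
    obtain ⟨⟨y, hy, hy1, hy2⟩, hb⟩ := s2 hp2.ge
    exact ⟨⟨key, v, hf, hkey, y, hy, hy1, hy2⟩, fun h0 => hb (hz h0)⟩

end Good

end CycAb
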