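import Pool.Agent.Lib.CycAb.Sound5

/-!
The small windows, and the bound on all pairs of equivalent windows.
-/

set_option linter.unusedSectionVars false

namespace CycAb

open Finset

lemma PK_ind (k : ℕ) [NeZero k] (a : ZMod k) :
    PK k (fun t => if a = t then 1 else 0) = (2 ^ 24) ^ a.val := by
  unfold PK
  rw [Finset.sum_eq_single a.val]
  · simp
  · intro b hb hne
    have : a ≠ (b : ZMod k) := fun h =>
      hne (by rw [h, ZMod.val_cast_of_lt (Finset.mem_range.mp hb)])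
    simp [this]
  · intro h
    exact absurd (Finset.mem_range.mpr (ZMod.val_lt a)) h

lemma Pc_diff {k : ℕ} [NeZero k] (w : ℕ → ZMod k) (i x : ℕ) (t : ZMod k) :
    Pc w (i + x) (w i + t) - Pc w i (w i + t)
      = ∑ j ∈ range x, if w (i + j) - w i = t then 1 else 0 := by
  unfold Pc
  rw [Finset.sum_range_add, add_sub_cancel_left]
  refine Finset.sum_congr rfl fun j _ => ?_
  have : w (i + j) = w i + t ↔ w (i + j) - w i = t := by
    rw [sub_eq_iff_eq_add, add_comm t]
  simp only [this]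

lemma sum_Pc {k : ℕ} [NeZero k] (w : ℕ → ZMod k) (c : ZMod k) (n : ℕ) :
    ∑ t, Pc w n (c + t) = n := by
  unfold Pc
  rw [Finset.sum_comm]
  have : ∀ i, ∑ t, (if w i = c + t then (1 : ℤ) else 0) = 1 := by
    intro i
    rw [Finset.sum_eq_single (w i - c)]
    · simp
    · intro b _ hb
      have : w i ≠ c + b := fun h => hb (by rw [h]; ring)
      simp [this]
    · intro h; exact absurd (Finset.mem_univ _) h
  simp only [this]
  simp

namespace Good

variable {P : Par} [NeZero P.k] (g : Good P)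
include g

/-- difference of consecutive letters -/
lemma diff_mem (q : ℕ) : (wP P (q + 1) - wP P q).val ∈ P.D := by
  have hD := g.cD
  unfold Par.chkD at hD
  rw [band_eq, allN_eq, allL_eq] at hD
  obtain ⟨hD1, hD2⟩ := hD
  have hm := g.numD.1
  have hk := g.kpos
  induction q using Nat.strong_induction_on with
  | _ q ih =>
    obtain ⟨A, r, hr, hA⟩ : ∃ A r, r < P.m ∧ q = P.m * A + r :=
      ⟨q / P.m, q % P.m, Nat.mod_lt _ (by omega), (Nat.div_add_mod q P.m).symm⟩
    by_cases hr' : r + 1 < P.m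
    · have h1 := memL_eq.mp (hD1 r (by omega))
      have h2 : wP P (q + 1) - wP P q = (((P.h (r + 1) + P.k - P.h r) % P.k : ℕ) : ZMod P.k) := by
        rw [hA, add_assoc, g.wP_rec A (r + 1) hr', g.wP_rec A r hr, g.cast_sub_h hr]
        unfold hZ; ring
      rw [h2, ZMod.val_cast_of_lt (Nat.mod_lt _ hk)]
      exact h1
    · have hrm : r = P.m - 1 := by omega
      have hAq : A < q := by
        have : 2 * A ≤ P.m * A := Nat.mul_le_mul_right _ hm
        omega
      have h1 := hD2 _ (ih A hAq)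
      rw [band_eq] at h1
      have h2 := memL_eq.mp h1.2
      have h3 : wP P (q + 1) - wP P q
          = ((((wP P (A + 1) - wP P A).val + P.k - P.h (P.m - 1)) % P.k : ℕ) : ZMod P.k) := by
        rw [g.cast_sub_h (by omega), ZMod.natCast_zmod_val]
        have : q + 1 = P.m * (A + 1) + 0 := by rw [hA, hrm, mul_add]; omega
        rw [this, g.wP_rec (A + 1) 0 (by omega), hA, g.wP_rec A r hr, hrm, g.hZ_zero]
        ring
      rw [h3, ZMod.val_cast_of_lt (Nat.mod_lt _ hk)]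
      exact h2

lemma uu_lt (d r x : ℕ) : P.uu d r x < P.k := Nat.mod_lt _ g.kpos

lemma letter {q r x : ℕ} (hr : r < P.m) (hx : r + x < 2 * P.m) :
    ((P.uu (wP P (q + 1) - wP P q).val r x : ℕ) : ZMod P.k)
      = wP P (P.m * q + r + x) - wP P (P.m * q + r) := by
  have hm := g.numD.1
  unfold Par.uu
  have hb : ((P.blk (wP P (q + 1) - wP P q).val (r + x) : ℕ) : ZMod P.k)
      = wP P (P.m * q + (r + x)) - wP P q := by
    unfold Par.blk
    split_ifs with h
    · rw [g.wP_rec q (r + x) h]; unfold hZ; ring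
    · push Not at h
      have : P.m * q + (r + x) = P.m * (q + 1) + (r + x - P.m) := by rw [mul_add]; omega
      rw [this, g.wP_rec (q + 1) _ (by omega), ZMod.natCast_mod, Nat.cast_add,
        ZMod.natCast_zmod_val]
      unfold hZ; ring
  rw [g.cast_sub_h hr, hb, g.wP_rec q r hr, add_assoc]
  ring

lemma letter_val' {q r x : ℕ} (hr : r < P.m) (hx : r + x < 2 * P.m) :
    P.uu (wP P (q + 1) - wP P q).val r x
      = (wP P (P.m * q + r + x) - wP P (P.m * q + r)).val := by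
  rw [← g.letter hr hx, ZMod.val_cast_of_lt (g.uu_lt _ _ _)]

lemma SS_eq {q r x : ℕ} (hr : r < P.m) (hx : r + x ≤ 2 * P.m) :
    ((P.SS (wP P (q + 1) - wP P q).val r x : ℕ) : ℤ)
      = PK P.k (fun t => Pc (wP P) (P.m * q + r + x) (wP P (P.m * q + r) + t)
          - Pc (wP P) (P.m * q + r) (wP P (P.m * q + r) + t)) := by
  unfold Par.SS
  rw [sumN_eq]
  simp only [Pc_diff]
  rw [PK_sum]
  push_cast
  refine Finset.sum_congr rfl fun j hj => ?_
  have hj := Finset.mem_range.mp hj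
  rw [PK_ind, g.letter_val' hr (by omega)]
  norm_num

lemma nd_pack {q r p l1 l2 : ℕ} (hr : r < P.m) (h1 : r + l1 ≤ 2 * P.m) (h2 : r + p ≤ 2 * P.m)
    (h3 : r + (p + l2) ≤ 2 * P.m) :
    PK P.k (fun t => nd (wP P) (P.m * q + r) (P.m * q + r + l1) (P.m * q + r + p)
        (P.m * q + r + p + l2) t)
      = (P.SS (wP P (q + 1) - wP P q).val r l1 : ℤ) + P.SS (wP P (q + 1) - wP P q).val r p
        - P.SS (wP P (q + 1) - wP P q).val r (p + l2) := by
  rw [g.SS_eq hr h1, g.SS_eq hr h2, g.SS_eq hr h3, ← PK_add, ← PK_sub]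
  congr 1
  funext t
  unfold nd
  rw [← add_assoc (P.m * q + r) p l2]
  ring

lemma sum_nd (i1 l1 p l2 : ℕ) :
    ∑ t, nd (wP P) i1 (i1 + l1) (i1 + p) (i1 + p + l2) t = (l1 : ℤ) - l2 := by
  unfold nd
  rw [Finset.sum_add_distrib, Finset.sum_sub_distrib, Finset.sum_sub_distrib, sum_Pc, sum_Pc,
    sum_Pc, sum_Pc]
  push_cast
  ring

lemma smallCh {q r p l1 : ℕ} (hr : r < P.m) (hp : p < P.P0) (hl : l1 ≤ p)
    (hal : P.a1 * p < P.den * l1 + P.den) :
    P.chkWin (wP P (q + 1) - wP P q).val r p l1 l1 = true ∧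
    P.chkWin (wP P (q + 1) - wP P q).val r p l1 (l1 + 1) = true ∧
    (l1 = 0 ∨ P.chkWin (wP P (q + 1) - wP P q).val r p l1 (l1 - 1) = true) ∧
    ((l1 = 0 ∨ P.SS (wP P (q + 1) - wP P q).val r l1 + P.SS (wP P (q + 1) - wP P q).val r p
        ≠ P.SS (wP P (q + 1) - wP P q).val r (p + l1)) ∨ P.den * l1 < P.a1 * p + P.e) := by
  have h := g.csmall _ (g.diff_mem q)
  unfold Par.chkSmalls at h
  have h := allN_eq.mp h r hr
  unfold Par.chkSmall at h
  have h := allN_eq.mp (allN_eq.mp h p hp) l1 (by omega)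
  rw [bor_eq] at h
  rcases h with h | h
  · have := of_decide_eq_true h
    omega
  · rw [band_eq, band_eq, band_eq, bor_eq, bor_eq, decide_eq_true_eq, decide_eq_true_eq,
      decide_eq_true_eq] at h
    exact h

lemma chkWin_spec {d r p l1 l2 key : ℕ} {v : List ℕ} (h : P.chkWin d r p l1 l2 = true)
    (hf : P.T.find key = some v)
    (hk : (16 * P.one + P.SS d r l1 + P.SS d r p - P.SS d r (p + l2)) * 512
      + (P.uu d r l1 + 8 * P.uu d r p + 64 * P.uu d r (p + l2)) = key) :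
    p * 4096 + (P.den * l1 + P.den - P.a1 * p) ∈ v := by
  unfold Par.chkWin at h
  rw [hk, hf] at h
  exact memL_eq.mp h

lemma hsm (i1 i2 j1 j2 : ℕ) (h12 : i1 ≤ i2) (h21 : i2 ≤ j1) (h34 : j1 ≤ j2)
    (hp : j1 < i1 + P.P0)
    (hT : TS P (wP P i2 - wP P i1) (wP P j1 - wP P i1) (wP P j2 - wP P i1)
      (nd (wP P) i1 i2 j1 j2))
    (hal : -(P.den : ℤ) < P.den * ((i2 : ℤ) - i1) - P.a1 * ((j1 : ℤ) - i1)) :
    RS P (wP P i2 - wP P i1) (wP P j1 - wP P i1) (wP P j2 - wP P i1) (nd (wP P) i1 i2 j1 j2)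
      (j1 - i1) (P.den * ((i2 : ℤ) - i1) - P.a1 * ((j1 : ℤ) - i1)) := by
  have hm := g.numD.1
  have hP016 := g.numD.2.2.2.2.2.2.2.2.2.2.1
  have hP0m := g.numD.2.2.2.2.2.2.2.2.2.2.2.2.1
  have hden := g.numD.2.2.2.2.2.2.2.2.2.2.2.2.2.2.2
  obtain ⟨q, r, hr, hqr⟩ : ∃ q r, r < P.m ∧ i1 = P.m * q + r :=
    ⟨i1 / P.m, i1 % P.m, Nat.mod_lt _ (by omega), (Nat.div_add_mod i1 P.m).symm⟩
  subst hqr
  obtain ⟨p, hp'⟩ := Nat.exists_eq_add_of_le (h12.trans h21)
  subst hp'
  obtain ⟨l1, hl1⟩ := Nat.exists_eq_add_of_le h12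
  subst hl1
  obtain ⟨l2, hl2⟩ := Nat.exists_eq_add_of_le h34
  subst hl2
  have hpP : p < P.P0 := by omega
  have hlp : l1 ≤ p := by omega
  obtain ⟨key, v, Q, hf, hkey, hQ, hd4, hsum⟩ := g.state_facts hT
  rw [g.sum_nd] at hsum
  have hsum' := abs_le.mp hsum
  have hl2b : l2 ≤ l1 + 1 := by omega
  have hal' : P.a1 * p < P.den * l1 + P.den := by
    have h1 : (P.a1 : ℤ) * p < P.den * l1 + P.den := by
      push_cast at hal
      have e1 : ((P.m : ℤ) * q + r + l1 - (P.m * q + r)) = l1 := by ring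
      have e2 : ((P.m : ℤ) * q + r + p - (P.m * q + r)) = p := by ring
      rw [e1, e2] at hal
      linarith
    exact_mod_cast h1
  obtain ⟨c1, c2, c3, -⟩ := g.smallCh (q := q) hr hpP hlp hal'
  have hwin : P.chkWin (wP P (q + 1) - wP P q).val r p l1 l2 = true := by
    rcases (by omega : l2 = l1 ∨ l2 = l1 + 1 ∨ (l1 ≠ 0 ∧ l2 = l1 - 1)) with h | h | h
    · rw [h]; exact c1
    · rw [h]; exact c2
    · rcases c3 with h0 | h0
      · exact absurd h0 h.1
      · rw [h.2]; exact h0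
  have hpack := g.nd_pack (q := q) (r := r) (p := p) (l1 := l1) (l2 := l2) hr (by omega) (by omega)
    (by omega)
  have hkeyeq : (16 * P.one + P.SS (wP P (q + 1) - wP P q).val r l1
      + P.SS (wP P (q + 1) - wP P q).val r p
      - P.SS (wP P (q + 1) - wP P q).val r (p + l2)) * 512
      + (P.uu (wP P (q + 1) - wP P q).val r l1 + 8 * P.uu (wP P (q + 1) - wP P q).val r p
        + 64 * P.uu (wP P (q + 1) - wP P q).val r (p + l2)) = key := by
    rw [hkey, g.letter_val' hr (by omega), g.letter_val' hr (by omega),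
      g.letter_val' hr (by omega), ← add_assoc (P.m * q + r) p l2]
    congr 2
    have hQi : (Q : ℤ) = 16 * P.one + P.SS (wP P (q + 1) - wP P q).val r l1
        + P.SS (wP P (q + 1) - wP P q).val r p
        - P.SS (wP P (q + 1) - wP P q).val r (p + l2) := by
      rw [hQ, PK_add, hpack, ← g.const_eq]
      ring
    omega
  have hmem := g.chkWin_spec hwin hf hkeyeq
  refine ⟨key, v, hf, ?_, _, hmem, ?_, ?_⟩
  · rw [hkey, ← hQ]; push_cast; ring
  · have : P.den * l1 + P.den - P.a1 * p < 4096 := by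
      have : P.den * l1 ≤ P.den * 16 := Nat.mul_le_mul_left _ (by omega)
      omega
    omega
  · have h1 : P.den * l1 + P.den - P.a1 * p < 4096 := by
      have : P.den * l1 ≤ P.den * 16 := Nat.mul_le_mul_left _ (by omega)
      omega
    have h2 : (p * 4096 + (P.den * l1 + P.den - P.a1 * p)) % 4096
        = P.den * l1 + P.den - P.a1 * p := by omega
    rw [h2, Nat.cast_sub hal'.le]
    push_cast
    ring

lemma hsm0 (i1 l p : ℕ) (hl : 1 ≤ l) (hlp : l ≤ p) (hp : p < P.P0)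
    (hnd : nd (wP P) i1 (i1 + l) (i1 + p) (i1 + p + l) = 0) :
    (P.den : ℤ) * l - P.a1 * p < P.e := by
  have hm := g.numD.1
  have hP0m := g.numD.2.2.2.2.2.2.2.2.2.2.2.2.1
  obtain ⟨q, r, hr, hqr⟩ : ∃ q r, r < P.m ∧ i1 = P.m * q + r :=
    ⟨i1 / P.m, i1 % P.m, Nat.mod_lt _ (by omega), (Nat.div_add_mod i1 P.m).symm⟩
  subst hqr
  by_cases hal : P.a1 * p < P.den * l + P.den
  · obtain ⟨-, -, -, c4⟩ := g.smallCh (q := q) hr hp hlp hal
    have hpack := g.nd_pack (q := q) (r := r) (p := p) (l1 := l) (l2 := l) hr (by omega)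
      (by omega) (by omega)
    rw [hnd] at hpack
    have h0 : PK P.k (fun t => (0 : ZMod P.k → ℤ) t) = 0 := by
      unfold PK; simp
    rw [h0] at hpack
    rcases c4 with (c | c) | c
    · omega
    · exfalso
      apply c
      omega
    · have : ((P.den * l : ℕ) : ℤ) < ((P.a1 * p + P.e : ℕ) : ℤ) := by exact_mod_cast c
      push_cast at this
      linarith
  · push Not at hal
    have : ((P.den * l + P.den : ℕ) : ℤ) ≤ ((P.a1 * p : ℕ) : ℤ) := by exact_mod_cast hal
    push_cast at this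
    have h1 : (1 : ℤ) ≤ P.den := by exact_mod_cast g.numD.2.2.2.2.2.2.2.2.2.2.2.2.2.1
    have h2 : (0 : ℤ) ≤ P.e := by positivity
    linarith

/-- all pairs of equivalent windows -/
theorem windows (i1 l p : ℕ) (hl : 1 ≤ l) (hlp : l ≤ p)
    (hnd : nd (wP P) i1 (i1 + l) (i1 + p) (i1 + p + l) = 0) :
    (P.den : ℤ) * l - P.a1 * p < P.e := by
  obtain ⟨c1, -, -, -, -, -, -, -, -, c2, -, c3, -, c4, c5, -⟩ := g.numD
  exact induct (m := P.m) (wP P) (TS P) (RS P) P.P0 P.P2 P.a1 P.den P.e c1 c2 c3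
    (by exact_mod_cast c4) (by positivity) (by exact_mod_cast c5) (by positivity)
    (fun A1 A2 B1 B2 r1 r2 r3 r4 h1 h2 h3 h4 hT => g.hcl A1 A2 B1 B2 r1 r2 r3 r4 h1 h2 h3 h4 hT)
    (fun i1 i2 j1 j2 h12 h21 h34 hp hT hal => g.hsm i1 i2 j1 j2 h12 h21 h34 hp hT hal)
    (fun i1 l p hl hlp hp hnd => g.hsm0 i1 l p hl hlp hp hnd)
    (fun n2 n3 n4 => g.TS_zero n2 n3 n4) i1 l p hl hlp hnd

end Good

end CycAb
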